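import Pool.Agent.H365PP.Defs

set_option autoImplicit false
set_option linter.unusedSectionVars false

namespace Pool.Agent.H365PP

open Finset

variable {ι : Type*} [DecidableEq ι] {X Y : ι → ℝ} {Q : Finset ι}


/-- If `p` has at most `k` points below at slope `s1` and at least `k+1` at slope `s2 > s1`, then there is a
point `q` to the right of `p`, with slope in `[s1,s2)`, such that the line `p q` has exactly `k` points below. -/
theorem leave (hG : GP X Y Q) {p : ι} (hp : p ∈ Q) {k : ℕ} {s1 s2 : ℝ} (h12 : s1 < s2)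
    (h1 : rk X Y Q s1 p ≤ k) (h2 : k + 1 ≤ rk X Y Q s2 p) :
    ∃ q ∈ Q, X p < X q ∧ s1 ≤ sl X Y p q ∧ sl X Y p q < s2 ∧ rk X Y Q (sl X Y p q) p = k := by
  induction hn : (Q.filter (fun q => X p < X q ∧ s1 ≤ sl X Y p q ∧ sl X Y p q < s2)).card
    using Nat.strong_induction_on generalizing s2 with
  | _ n ih =>
  set R := Q.filter (fun q => X p < X q ∧ s1 ≤ sl X Y p q ∧ sl X Y p q < s2) with hR
  have hleft : ∀ q ∈ Q, q ≠ p → ¬ X p < X q → X q < X p := by
    intro q hq hqp hx
    rcases lt_trichotomy (X q) (X p) with h | h | h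
    · exact h
    · exact absurd (hG.inj q hq p hp h) hqp
    · exact absurd h hx
  have hne : R.Nonempty := by
    by_contra hcon
    rw [Finset.not_nonempty_iff_eq_empty] at hcon
    have hsub : Q.filter (fun q => hh X Y s2 q < hh X Y s2 p) ⊆
        Q.filter (fun q => hh X Y s1 q < hh X Y s1 p) := by
      intro q hq
      rw [Finset.mem_filter] at hq ⊢
      refine ⟨hq.1, ?_⟩
      have hqp : q ≠ p := by rintro rfl; exact lt_irrefl _ hq.2
      by_cases hx : X p < X q
      · rw [hh_lt_iff hx]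
        have h3 := (hh_lt_iff hx s2).1 hq.2
        by_contra h4
        push Not at h4
        have : q ∈ R := Finset.mem_filter.2 ⟨hq.1, hx, h4, h3⟩
        rw [hcon] at this
        exact absurd this (Finset.notMem_empty _)
      · have hx' := hleft q hq.1 hqp hx
        have h3 := (hh_lt_iff' hx' s2).1 hq.2
        rw [hh_lt_iff' hx']
        linarith
    have := Finset.card_le_card hsub
    unfold rk at h1 h2
    omega
  obtain ⟨q, hqR, hmax⟩ := Finset.exists_max_image R (fun q => sl X Y p q) hne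
  obtain ⟨hqQ, hxq, hs1q, hs2q⟩ := Finset.mem_filter.1 hqR
  have hsub : Q.filter (fun r => hh X Y s2 r < hh X Y s2 p) ⊆
      insert q (Q.filter (fun r => hh X Y (sl X Y p q) r < hh X Y (sl X Y p q) p)) := by
    intro r hr
    rw [Finset.mem_filter] at hr
    rw [Finset.mem_insert, Finset.mem_filter]
    by_cases hrq : r = q
    · exact Or.inl hrq
    refine Or.inr ⟨hr.1, ?_⟩
    have hrp : r ≠ p := by rintro rfl; exact lt_irrefl _ hr.2
    by_cases hx : X p < X r
    · have h3 := (hh_lt_iff hx s2).1 hr.2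
      rw [hh_lt_iff hx]
      have h5 : sl X Y p r ≤ sl X Y p q := by
        by_cases h6 : s1 ≤ sl X Y p r
        · exact hmax r (Finset.mem_filter.2 ⟨hr.1, hx, h6, h3⟩)
        · push Not at h6; linarith
      rcases lt_or_eq_of_le h5 with h6 | h6
      · exact h6
      · exfalso
        have h7 := hh_sl (X := X) (Y := Y) hx.ne
        rw [h6] at h7
        exact hG.gen p hp q hqQ r hr.1 (by rintro rfl; exact lt_irrefl _ hxq) hrp hrq h7
    · have hx' := hleft r hr.1 hrp hx
      have h3 := (hh_lt_iff' hx' s2).1 hr.2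
      rw [hh_lt_iff' hx']
      linarith
  have hcard := Finset.card_le_card hsub
  have hcard2 := Finset.card_insert_le q
    (Q.filter (fun r => hh X Y (sl X Y p q) r < hh X Y (sl X Y p q) p))
  have hk : k ≤ rk X Y Q (sl X Y p q) p := by
    unfold rk at h2 ⊢
    omega
  rcases Nat.eq_or_lt_of_le hk with hk1 | hk1
  · exact ⟨q, hqQ, hxq, hs1q, hs2q, hk1.symm⟩
  · have hlt : s1 < sl X Y p q := by
      rcases lt_or_eq_of_le hs1q with h | h
      · exact h
      · rw [← h] at hk1; omega
    have hcardlt : (Q.filter (fun r => X p < X r ∧ s1 ≤ sl X Y p r ∧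
        sl X Y p r < sl X Y p q)).card < n := by
      rw [← hn]
      apply Finset.card_lt_card
      rw [Finset.ssubset_iff_of_subset]
      · refine ⟨q, hqR, ?_⟩
        rw [Finset.mem_filter]
        rintro ⟨-, -, -, h⟩
        exact lt_irrefl _ h
      · intro r hr
        obtain ⟨a, b, c, d⟩ := Finset.mem_filter.1 hr
        exact Finset.mem_filter.2 ⟨a, b, c, d.trans hs2q⟩
    obtain ⟨r, hr1, hr2, hr3, hr4, hr5⟩ := ih _ hcardlt hlt hk1 rfl
    exact ⟨r, hr1, hr2, hr3, hr4.trans hs2q, hr5⟩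

/-- mirror image of `leave` -/
theorem enter (hG : GP X Y Q) {p : ι} (hp : p ∈ Q) {k : ℕ} {s1 s2 : ℝ} (h12 : s1 < s2)
    (h1 : k + 1 ≤ rk X Y Q s1 p) (h2 : rk X Y Q s2 p ≤ k) :
    ∃ q ∈ Q, X q < X p ∧ s1 < sl X Y q p ∧ sl X Y q p ≤ s2 ∧ rk X Y Q (sl X Y q p) p = k := by
  have e1 : ∀ (s : ℝ) (i : ι), hh (fun i => -X i) Y (-s) i = hh X Y s i := by
    intro s i; unfold hh; ring
  have e2 : ∀ (i j : ι), sl (fun i => -X i) Y i j = - sl X Y i j := by
    intro i j
    unfold sl
    rw [← div_neg]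
    congr 1
    ring
  have e3 : ∀ (s : ℝ) (p : ι), rk (fun i => -X i) Y Q (-s) p = rk X Y Q s p := by
    intro s p
    unfold rk
    simp only [e1]
  have hG' : GP (fun i => -X i) Y Q := by
    refine ⟨fun i hi j hj h => hG.inj i hi j hj (neg_injective h), ?_⟩
    intro i hi j hj l hl hij hli hlj
    rw [e2, e1, e1]
    exact hG.gen i hi j hj l hl hij hli hlj
  obtain ⟨q, hq1, hq2, hq3, hq4, hq5⟩ := leave hG' hp (k := k) (s1 := -s2) (s2 := -s1)
    (neg_lt_neg h12) (by rw [e3]; exact h2) (by rw [e3]; exact h1)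
  rw [e2] at hq3 hq4 hq5
  rw [e3] at hq5
  refine ⟨q, hq1, neg_lt_neg_iff.1 hq2, ?_, ?_, ?_⟩
  · rw [sl_comm]; linarith
  · rw [sl_comm]; linarith
  · rw [sl_comm]; exact hq5

end Pool.Agent.H365PP
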