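import Pool.Agent.H365PP.Defs

set_option autoImplicit false
set_option linter.unusedSectionVars false

namespace Pool.Agent.H365PP

open Finset

variable {ι : Type*} [DecidableEq ι] {X Y : ι → ℝ} {Q : Finset ι}



theorem ip_cardA {A B : Finset ι} (hG : GP X Y (A ∪ B)) (hA : ∀ a ∈ A, X a < 0)
    (hB : ∀ b ∈ B, 0 < X b) {a b : ι} (ha : a ∈ A) (hb : b ∈ B) :
    (A.filter (fun q => hh X Y (sl X Y a b) q ≤ hh X Y (sl X Y a b) a)).card
      = rk X Y A (sl X Y a b) a + 1 := by
  have e : A.filter (fun q => hh X Y (sl X Y a b) q ≤ hh X Y (sl X Y a b) a)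
      = insert a (A.filter (fun q => hh X Y (sl X Y a b) q < hh X Y (sl X Y a b) a)) := by
    ext i
    simp only [mem_filter, mem_insert]
    constructor
    · rintro ⟨h1, h2⟩
      by_cases hi : i = a
      · exact Or.inl hi
      · right
        refine ⟨h1, lt_of_le_of_ne h2 ?_⟩
        apply hG.gen a (mem_union_left _ ha) b (mem_union_right _ hb) i (mem_union_left _ h1)
        · rintro rfl
          linarith [hA _ ha, hB _ hb]
        · exact hi
        · rintro rfl
          linarith [hA _ h1, hB _ hb]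
    · rintro (rfl | ⟨h1, h2⟩)
      · exact ⟨ha, le_rfl⟩
      · exact ⟨h1, h2.le⟩
  rw [e, card_insert_of_notMem, rk]
  simp

theorem ip_cardB {A B : Finset ι} (hG : GP X Y (A ∪ B)) (hA : ∀ a ∈ A, X a < 0)
    (hB : ∀ b ∈ B, 0 < X b) {a b : ι} (ha : a ∈ A) (hb : b ∈ B) :
    (B.filter (fun q => hh X Y (sl X Y a b) q ≤ hh X Y (sl X Y a b) a)).card
      = rk X Y B (sl X Y a b) a + 1 := by
  have hab : X a ≠ X b := by
    have := hA a ha
    have := hB b hb
    intro h
    linarith
  have hh2 := hh_sl (Y := Y) hab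
  have e : B.filter (fun q => hh X Y (sl X Y a b) q ≤ hh X Y (sl X Y a b) a)
      = insert b (B.filter (fun q => hh X Y (sl X Y a b) q < hh X Y (sl X Y a b) a)) := by
    ext i
    simp only [mem_filter, mem_insert]
    constructor
    · rintro ⟨h1, h2⟩
      by_cases hi : i = b
      · exact Or.inl hi
      · right
        refine ⟨h1, lt_of_le_of_ne h2 ?_⟩
        apply hG.gen a (mem_union_left _ ha) b (mem_union_right _ hb) i (mem_union_right _ h1)
        · rintro rfl
          exact hab rfl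
        · rintro rfl
          linarith [hA _ ha, hB _ h1]
        · exact hi
    · rintro (rfl | ⟨h1, h2⟩)
      · exact ⟨hb, hh2.le⟩
      · exact ⟨h1, h2.le⟩
  rw [e, card_insert_of_notMem, rk]
  simp [hh2]

theorem ip_rkA_lt {A B : Finset ι} {a b : ι} (ha : a ∈ A) :
    rk X Y A (sl X Y a b) a < A.card := by
  unfold rk
  apply card_lt_card
  refine ⟨filter_subset _ _, fun h => ?_⟩
  have := (mem_filter.1 (h ha)).2
  exact lt_irrefl _ this

theorem ip_rkB_lt {A B : Finset ι} (hA : ∀ a ∈ A, X a < 0)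
    (hB : ∀ b ∈ B, 0 < X b) {a b : ι} (ha : a ∈ A) (hb : b ∈ B) :
    rk X Y B (sl X Y a b) a < B.card := by
  have hab : X a ≠ X b := by
    have := hA a ha
    have := hB b hb
    intro h
    linarith
  have hh2 := hh_sl (Y := Y) hab
  unfold rk
  apply card_lt_card
  refine ⟨filter_subset _ _, fun h => ?_⟩
  have := (mem_filter.1 (h hb)).2
  linarith

theorem ip_aux {A B : Finset ι} (hG : GP X Y (A ∪ B)) (hA : ∀ a ∈ A, X a < 0)
    (hB : ∀ b ∈ B, 0 < X b)
    {a a' b b' : ι} (ha : a ∈ A) (ha' : a' ∈ A) (hb : b ∈ B) (hb' : b' ∈ B)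
    (h1 : rk X Y A (sl X Y a b) a = rk X Y A (sl X Y a' b') a')
    (h2 : rk X Y B (sl X Y a b) a = rk X Y B (sl X Y a' b') a')
    (hs : sl X Y a b ≤ sl X Y a' b') : a = a' ∧ b = b' := by
  have cA' := ip_cardA hG hA hB ha' hb'
  have cB := ip_cardB hG hA hB ha hb
  have hab : a ≠ b := by
    rintro rfl
    linarith [hA _ ha, hB _ hb]
  have hXab' : X a' ≠ X b' := by
    have := hA a' ha'
    have := hB b' hb'
    intro h
    linarith
  have ht2 := hh_sl (Y := Y) hXab'
  rcases le_or_gt (hh X Y (sl X Y a' b') a') (hh X Y (sl X Y a b) a) with ht | ht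
  · by_cases hst : sl X Y a b = sl X Y a' b' ∧ hh X Y (sl X Y a' b') a' = hh X Y (sl X Y a b) a
    · obtain ⟨e1, e2⟩ := hst
      rw [← e1] at e2 ht2
      constructor
      · by_contra hne
        refine hG.gen a (mem_union_left _ ha) b (mem_union_right _ hb) a' (mem_union_left _ ha')
          hab (Ne.symm hne) ?_ e2
        rintro rfl
        linarith [hA _ ha', hB _ hb]
      · by_contra hne
        refine hG.gen a (mem_union_left _ ha) b (mem_union_right _ hb) b' (mem_union_right _ hb')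
          hab ?_ (Ne.symm hne) (ht2.trans e2)
        rintro rfl
        linarith [hA _ ha, hB _ hb']
    · exfalso
      have hsub : A.filter (fun q => hh X Y (sl X Y a' b') q ≤ hh X Y (sl X Y a' b') a') ⊆
          A.filter (fun q => hh X Y (sl X Y a b) q < hh X Y (sl X Y a b) a) := by
        intro i hi
        rw [mem_filter] at hi ⊢
        refine ⟨hi.1, ?_⟩
        rcases hs.lt_or_eq with hlt | heq
        · linarith [hh_smono_left (Y := Y) (hA i hi.1) hlt, hi.2]
        · have hlt2 : hh X Y (sl X Y a' b') a' < hh X Y (sl X Y a b) a :=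
            lt_of_le_of_ne ht fun h => hst ⟨heq, h⟩
          linarith [hh_mono_left (Y := Y) (hA i hi.1) hs, hi.2]
      have hc := card_le_card hsub
      rw [cA'] at hc
      unfold rk at h1 hc
      omega
  · exfalso
    have hsub : B.filter (fun q => hh X Y (sl X Y a b) q ≤ hh X Y (sl X Y a b) a) ⊆
        B.filter (fun q => hh X Y (sl X Y a' b') q < hh X Y (sl X Y a' b') a') := by
      intro i hi
      rw [mem_filter] at hi ⊢
      refine ⟨hi.1, ?_⟩
      linarith [hh_anti_right (Y := Y) (hB i hi.1) hs, hi.2]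
    have hc := card_le_card hsub
    rw [cB] at hc
    unfold rk at h2 hc
    omega

/-- A line through a point of `A` and a point of `B` (`A` left of the `y`-axis, `B` right of it) is determined by the
numbers of points of `A` and of `B` below it. -/
theorem inj_pairs {A B : Finset ι} (hG : GP X Y (A ∪ B)) (hA : ∀ a ∈ A, X a < 0) (hB : ∀ b ∈ B, 0 < X b)
    {a a' b b' : ι} (ha : a ∈ A) (ha' : a' ∈ A) (hb : b ∈ B) (hb' : b' ∈ B)
    (h1 : rk X Y A (sl X Y a b) a = rk X Y A (sl X Y a' b') a')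
    (h2 : rk X Y B (sl X Y a b) a = rk X Y B (sl X Y a' b') a') : a = a' ∧ b = b' := by
  rcases le_total (sl X Y a b) (sl X Y a' b') with hs | hs
  · exact ip_aux hG hA hB ha ha' hb hb' h1 h2 hs
  · obtain ⟨e1, e2⟩ := ip_aux hG hA hB ha' ha hb' hb h1.symm h2.symm hs
    exact ⟨e1.symm, e2.symm⟩

/-- discrete ham sandwich for separated sets, by counting from `inj_pairs` -/
theorem surj_pairs {A B : Finset ι} (hG : GP X Y (A ∪ B)) (hA : ∀ a ∈ A, X a < 0) (hB : ∀ b ∈ B, 0 < X b)
    {α β : ℕ} (hα : α < A.card) (hβ : β < B.card) :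
    ∃ a ∈ A, ∃ b ∈ B, rk X Y A (sl X Y a b) a = α ∧ rk X Y B (sl X Y a b) a = β := by
  have hsurj := Finset.surjOn_of_injOn_of_card_le
    (s := A ×ˢ B) (t := Finset.range A.card ×ˢ Finset.range B.card)
    (fun x : ι × ι => (rk X Y A (sl X Y x.1 x.2) x.1, rk X Y B (sl X Y x.1 x.2) x.1))
    (by
      rintro ⟨a, b⟩ hx
      obtain ⟨ha, hb⟩ := mem_product.1 hx
      exact mem_product.2 ⟨mem_range.2 (ip_rkA_lt (B := B) ha),
        mem_range.2 (ip_rkB_lt hA hB ha hb)⟩)
    (by
      rintro ⟨a, b⟩ hx ⟨a', b'⟩ hx' h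
      obtain ⟨ha, hb⟩ := mem_product.1 (mem_coe.1 hx)
      obtain ⟨ha', hb'⟩ := mem_product.1 (mem_coe.1 hx')
      have h1 := congrArg Prod.fst h
      have h2 := congrArg Prod.snd h
      obtain ⟨e1, e2⟩ := inj_pairs hG hA hB ha ha' hb hb' h1 h2
      exact Prod.ext e1 e2)
    (by simp)
  have hmem : (α, β) ∈ (↑(Finset.range A.card ×ˢ Finset.range B.card) : Set (ℕ × ℕ)) :=
    mem_coe.2 (mem_product.2 ⟨mem_range.2 hα, mem_range.2 hβ⟩)
  obtain ⟨⟨a, b⟩, hx, hab⟩ := hsurj hmem
  obtain ⟨ha, hb⟩ := mem_product.1 (mem_coe.1 hx)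
  exact ⟨a, ha, b, hb, congrArg Prod.fst hab, congrArg Prod.snd hab⟩

end Pool.Agent.H365PP
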