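import Pool.Agent.H365PP.Defs

set_option autoImplicit false
set_option linter.unusedSectionVars false

namespace Pool.Agent.H365PP

open Finset

variable {ι : Type*} [DecidableEq ι] {X Y : ι → ℝ} {Q : Finset ι}


/-- hitting lemma for pairs in `A` -/
theorem hitA {A B : Finset ι} (hG : GP X Y (A ∪ B)) (hA : ∀ a ∈ A, X a < 0) (hB : ∀ b ∈ B, 0 < X b)
    {k : ℕ} (hkB : k < B.card)
    {s1 t1 : ℝ} {q1 : ι} (hq1 : q1 ∈ B) (hq1t : hh X Y s1 q1 = t1)
    (hc1 : (A.filter (fun a => hh X Y s1 a < t1)).card ≤ k)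
    {x y : ι} (hx : x ∈ A) (hy : y ∈ A) (hxy : X x < X y) (hs : s1 ≤ sl X Y x y)
    (hrk : rk X Y (A ∪ B) (sl X Y x y) x = k) :
    Hit X Y (sl X Y x y) (hh X Y (sl X Y x y) x) B := by
  set s := sl X Y x y with hsdef
  unfold rk at hrk
  constructor
  · by_contra hcon
    push Not at hcon
    have hsub : B ⊆ (A ∪ B).filter (fun q => hh X Y s q < hh X Y s x) := by
      intro b hb
      exact mem_filter.2 ⟨mem_union_right _ hb, hcon b hb⟩
    have := card_le_card hsub
    omega
  · by_contra hcon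
    push Not at hcon
    have ht : hh X Y s x < t1 := by
      have h1 := hcon q1 hq1
      have h2 := hh_anti_right (Y := Y) (hB q1 hq1) hs
      rw [hq1t] at h2
      exact lt_of_lt_of_le h1 h2
    have hle : ∀ a ∈ A, hh X Y s a ≤ hh X Y s x → hh X Y s1 a < t1 := fun a ha h =>
      lt_of_le_of_lt ((hh_mono_left (Y := Y) (hA a ha) hs).trans h) ht
    have hsub : insert x ((A ∪ B).filter (fun q => hh X Y s q < hh X Y s x)) ⊆
        A.filter (fun a => hh X Y s1 a < t1) := by
      intro q hq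
      rcases mem_insert.1 hq with rfl | hq
      · exact mem_filter.2 ⟨hx, hle q hx le_rfl⟩
      · obtain ⟨h1, h2⟩ := mem_filter.1 hq
        rcases mem_union.1 h1 with h3 | h3
        · exact mem_filter.2 ⟨h3, hle q h3 h2.le⟩
        · exact absurd (hcon q h3) (not_lt.2 h2.le)
    have hni : x ∉ (A ∪ B).filter (fun q => hh X Y s q < hh X Y s x) := by
      intro h
      exact lt_irrefl _ (mem_filter.1 h).2
    have h5 := card_le_card hsub
    rw [card_insert_of_notMem hni, hrk] at h5
    omega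

/-- hitting lemma for pairs in `B` -/
theorem hitB {A B : Finset ι} (hG : GP X Y (A ∪ B)) (hA : ∀ a ∈ A, X a < 0) (hB : ∀ b ∈ B, 0 < X b)
    {k : ℕ} (hkA : k < A.card)
    {s2 t2 : ℝ} {p2 : ι} (hp2 : p2 ∈ A) (hp2t : hh X Y s2 p2 = t2)
    (hc2 : (B.filter (fun b => hh X Y s2 b < t2)).card ≤ k)
    {x y : ι} (hx : x ∈ B) (hy : y ∈ B) (hxy : X x < X y) (hs : sl X Y x y ≤ s2)
    (hrk : rk X Y (A ∪ B) (sl X Y x y) x = k) :
    Hit X Y (sl X Y x y) (hh X Y (sl X Y x y) x) A := by
  set s := sl X Y x y with hsdef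
  unfold rk at hrk
  constructor
  · by_contra hcon
    push Not at hcon
    have hsub : A ⊆ (A ∪ B).filter (fun q => hh X Y s q < hh X Y s x) := by
      intro b hb
      exact mem_filter.2 ⟨mem_union_left _ hb, hcon b hb⟩
    have := card_le_card hsub
    omega
  · by_contra hcon
    push Not at hcon
    have ht : hh X Y s x < t2 := by
      have h1 := hcon p2 hp2
      have h2 := hh_mono_left (Y := Y) (hA p2 hp2) hs
      rw [hp2t] at h2
      exact lt_of_lt_of_le h1 h2
    have hle : ∀ b ∈ B, hh X Y s b ≤ hh X Y s x → hh X Y s2 b < t2 := fun b hb h =>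
      lt_of_le_of_lt ((hh_anti_right (Y := Y) (hB b hb) hs).trans h) ht
    have hsub : insert x ((A ∪ B).filter (fun q => hh X Y s q < hh X Y s x)) ⊆
        B.filter (fun b => hh X Y s2 b < t2) := by
      intro q hq
      rcases mem_insert.1 hq with rfl | hq
      · exact mem_filter.2 ⟨hx, hle q hx le_rfl⟩
      · obtain ⟨h1, h2⟩ := mem_filter.1 hq
        rcases mem_union.1 h1 with h3 | h3
        · exact absurd (hcon q h3) (not_lt.2 h2.le)
        · exact mem_filter.2 ⟨h3, hle q h3 h2.le⟩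
    have hni : x ∉ (A ∪ B).filter (fun q => hh X Y s q < hh X Y s x) := by
      intro h
      exact lt_irrefl _ (mem_filter.1 h).2
    have h5 := card_le_card hsub
    rw [card_insert_of_notMem hni, hrk] at h5
    omega

end Pool.Agent.H365PP
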