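import Pool.Agent.H365PP.HP
import Pool.Agent.H365PP.L1
import Pool.Agent.H365PP.L2
import Pool.Agent.H365PP.L3

set_option autoImplicit false
set_option linter.unusedSectionVars false

namespace Pool.Agent.H365PP

open Finset

variable {ι : Type*} [DecidableEq ι] {X Y : ι → ℝ} {Q : Finset ι}

/-- the events at level `k` with slopes in `[σ₁,σ₂]` -/
noncomputable def ev (X Y : ι → ℝ) (Q : Finset ι) (k : ℕ) (σ₁ σ₂ : ℝ) : Finset (ι × ι) :=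
  (Q ×ˢ Q).filter (fun e => X e.1 < X e.2 ∧ rk X Y Q (sl X Y e.1 e.2) e.1 = k ∧
    σ₁ ≤ sl X Y e.1 e.2 ∧ sl X Y e.1 e.2 ≤ σ₂)

theorem mem_ev {k : ℕ} {σ₁ σ₂ : ℝ} {p q : ι} : (p, q) ∈ ev X Y Q k σ₁ σ₂ ↔
    p ∈ Q ∧ q ∈ Q ∧ X p < X q ∧ rk X Y Q (sl X Y p q) p = k ∧
    σ₁ ≤ sl X Y p q ∧ sl X Y p q ≤ σ₂ := by
  unfold ev; simp only [mem_filter, mem_product]; tauto

/-- a leaving event covers pairs with the other point above -/
theorem cov_leave (hG : GP X Y Q) {k : ℕ} {σ₁ σ₂ : ℝ} {u w q : ι} (hu : u ∈ Q) (hw : w ∈ Q) (hq : q ∈ Q)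
    (huw : u ≠ w) (hX : X u < X q) (hr : rk X Y Q (sl X Y u q) u = k) (h1 : σ₁ ≤ sl X Y u q)
    (h2 : sl X Y u q ≤ σ₂) (hle : hh X Y (sl X Y u q) u ≤ hh X Y (sl X Y u q) w) :
    ∃ e ∈ ev X Y Q k σ₁ σ₂, Cov X Y e.1 e.2 u w := by
  refine ⟨(u, q), mem_ev.2 ⟨hu, hq, hX, hr, h1, h2⟩, ?_⟩
  by_cases hwq : w = q
  · left; exact ⟨rfl, hwq⟩
  · have hne : hh X Y (sl X Y u q) w ≠ hh X Y (sl X Y u q) u :=
      hG.gen u hu q hq w hw (fun h => by rw [h] at hX; exact lt_irrefl _ hX) (Ne.symm huw) hwq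
    right; right; left
    exact ⟨rfl, lt_of_le_of_ne hle (Ne.symm hne)⟩

/-- an entering event covers pairs with the other point below -/
theorem cov_enter (hG : GP X Y Q) {k : ℕ} {σ₁ σ₂ : ℝ} {u w p : ι} (hu : u ∈ Q) (hw : w ∈ Q) (hp : p ∈ Q)
    (huw : u ≠ w) (hX : X p < X w) (hr : rk X Y Q (sl X Y p w) w = k) (h1 : σ₁ ≤ sl X Y p w)
    (h2 : sl X Y p w ≤ σ₂) (hle : hh X Y (sl X Y p w) u ≤ hh X Y (sl X Y p w) w) :
    ∃ e ∈ ev X Y Q k σ₁ σ₂, Cov X Y e.1 e.2 u w := by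
  have hr' : rk X Y Q (sl X Y p w) p = k := by rw [← rk_sl hX.ne]; exact hr
  refine ⟨(p, w), mem_ev.2 ⟨hp, hw, hX, hr', h1, h2⟩, ?_⟩
  by_cases hup : u = p
  · left; exact ⟨hup, rfl⟩
  · have hne : hh X Y (sl X Y p w) u ≠ hh X Y (sl X Y p w) p :=
      hG.gen p hp w hw u hu (fun h => by rw [h] at hX; exact lt_irrefl _ hX) hup huw
    have h3 : hh X Y (sl X Y p w) w = hh X Y (sl X Y p w) p := hh_sl hX.ne
    right; right; right; right; right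
    refine ⟨rfl, lt_of_le_of_ne hle ?_⟩
    rw [h3]; exact hne

theorem rk_le_of_le {s : ℝ} {p q : ι} (h : hh X Y s p ≤ hh X Y s q) : rk X Y Q s p ≤ rk X Y Q s q := by
  unfold rk
  apply card_le_card
  intro x hx
  simp only [mem_filter] at hx ⊢
  exact ⟨hx.1, lt_of_lt_of_le hx.2 h⟩

theorem rk_lt_of_lt {s : ℝ} {p q : ι} (hp : p ∈ Q) (h : hh X Y s p < hh X Y s q) :
    rk X Y Q s p < rk X Y Q s q := by
  unfold rk
  apply card_lt_card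
  refine ⟨?_, ?_⟩
  · intro x hx
    simp only [mem_filter] at hx ⊢
    exact ⟨hx.1, lt_trans hx.2 h⟩
  · intro hsub
    have : p ∈ Q.filter (fun x => hh X Y s x < hh X Y s p) := hsub (by simp [hp, h])
    simp at this

theorem rk_union {A B : Finset ι} (hd : Disjoint A B) (s : ℝ) (p : ι) :
    rk X Y (A ∪ B) s p = rk X Y A s p + rk X Y B s p := by
  unfold rk
  rw [filter_union, card_union_of_disjoint]
  exact disjoint_filter_filter hd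

/-- the core coverage statement -/
theorem coverage_core {A B : Finset ι} (hG : GP X Y (A ∪ B)) (hA : ∀ a ∈ A, X a < 0) (hB : ∀ b ∈ B, 0 < X b)
    {k : ℕ} {σ₁ σ₂ : ℝ} {p1 q1 p2 q2 : ι} (hp1 : p1 ∈ A) (hq1 : q1 ∈ B) (hp2 : p2 ∈ A) (hq2 : q2 ∈ B)
    (hσ1 : σ₁ = sl X Y p1 q1) (hσ2 : σ₂ = sl X Y p2 q2)
    (h1A : rk X Y A σ₁ p1 = k) (h1B : rk X Y B σ₁ p1 = 0)
    (h2A : rk X Y A σ₂ p2 = 0) (h2B : rk X Y B σ₂ p2 = k)
    {u w : ι} (hu : (u ∈ A ∧ hh X Y σ₁ u ≤ hh X Y σ₁ p1) ∨ (u ∈ B ∧ hh X Y σ₂ u ≤ hh X Y σ₂ p2))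
    (hw : (w ∈ A ∧ hh X Y σ₁ w ≤ hh X Y σ₁ p1) ∨ (w ∈ B ∧ hh X Y σ₂ w ≤ hh X Y σ₂ p2))
    (huw : u ≠ w) :
    ∃ e ∈ ev X Y (A ∪ B) k σ₁ σ₂, Cov X Y e.1 e.2 u w := by
  have hdisj : Disjoint A B := by
    rw [Finset.disjoint_left]
    intro x hx hx'
    exact absurd (lt_trans (hA x hx) (hB x hx')) (lt_irrefl _)
  have hAQ : ∀ a ∈ A, a ∈ A ∪ B := fun a ha => mem_union_left _ ha
  have hBQ : ∀ b ∈ B, b ∈ A ∪ B := fun b hb => mem_union_right _ hb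
  have hX1 : X p1 < X q1 := lt_trans (hA p1 hp1) (hB q1 hq1)
  have hX2 : X p2 < X q2 := lt_trans (hA p2 hp2) (hB q2 hq2)
  have e1 : hh X Y σ₁ q1 = hh X Y σ₁ p1 := by rw [hσ1]; exact hh_sl hX1.ne
  have e2 : hh X Y σ₂ q2 = hh X Y σ₂ p2 := by rw [hσ2]; exact hh_sl hX2.ne
  have hr1 : rk X Y (A ∪ B) σ₁ p1 = k := by rw [rk_union hdisj, h1A, h1B, Nat.add_zero]
  have hr2 : rk X Y (A ∪ B) σ₂ p2 = k := by rw [rk_union hdisj, h2A, h2B, Nat.zero_add]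
  have hr1q : rk X Y (A ∪ B) σ₁ q1 = k := by rw [← hr1]; unfold rk; rw [e1]
  -- all of `B` is weakly above the first line, all of `A` weakly above the second one
  have hB1 : ∀ b ∈ B, hh X Y σ₁ p1 ≤ hh X Y σ₁ b := by
    intro b hb
    by_contra hlt
    push Not at hlt
    have : b ∈ B.filter (fun q => hh X Y σ₁ q < hh X Y σ₁ p1) := by simp [hb, hlt]
    have h0 : (B.filter (fun q => hh X Y σ₁ q < hh X Y σ₁ p1)) = ∅ := card_eq_zero.1 h1B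
    rw [h0] at this; simp at this
  have hA2 : ∀ a ∈ A, hh X Y σ₂ p2 ≤ hh X Y σ₂ a := by
    intro b hb
    by_contra hlt
    push Not at hlt
    have : b ∈ A.filter (fun q => hh X Y σ₂ q < hh X Y σ₂ p2) := by simp [hb, hlt]
    have h0 : (A.filter (fun q => hh X Y σ₂ q < hh X Y σ₂ p2)) = ∅ := card_eq_zero.1 h2A
    rw [h0] at this; simp at this
  have F1 : ∀ v ∈ A, hh X Y σ₁ v ≤ hh X Y σ₁ p1 → rk X Y (A ∪ B) σ₁ v ≤ k := by
    intro v _ hle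
    rw [← hr1]; exact rk_le_of_le hle
  have F2 : ∀ v ∈ B, hh X Y σ₂ v ≤ hh X Y σ₂ p2 → rk X Y (A ∪ B) σ₂ v ≤ k := by
    intro v _ hle
    rw [← hr2]; exact rk_le_of_le hle
  have F3 : ∀ v ∈ A, v ≠ p2 → k + 1 ≤ rk X Y (A ∪ B) σ₂ v := by
    intro v hv hne
    have h1 : hh X Y (sl X Y p2 q2) v ≠ hh X Y (sl X Y p2 q2) p2 :=
      hG.gen p2 (hAQ _ hp2) q2 (hBQ _ hq2) v (hAQ _ hv)
        (fun h => by rw [h] at hX2; exact lt_irrefl _ hX2) hne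
        (fun h => by
          have h3 := hA v hv
          rw [h] at h3
          exact absurd (lt_trans h3 (hB q2 hq2)) (lt_irrefl _))
    rw [← hσ2] at h1
    have h2 : hh X Y σ₂ p2 < hh X Y σ₂ v := lt_of_le_of_ne (hA2 v hv) (Ne.symm h1)
    have := rk_lt_of_lt (Q := A ∪ B) (hAQ _ hp2) h2
    omega
  have F4 : ∀ v ∈ B, v ≠ q1 → k + 1 ≤ rk X Y (A ∪ B) σ₁ v := by
    intro v hv hne
    have h1 : hh X Y (sl X Y p1 q1) v ≠ hh X Y (sl X Y p1 q1) p1 :=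
      hG.gen p1 (hAQ _ hp1) q1 (hBQ _ hq1) v (hBQ _ hv)
        (fun h => by rw [h] at hX1; exact lt_irrefl _ hX1)
        (fun h => by
          have h3 := hB v hv
          rw [h] at h3
          exact absurd (lt_trans h3 (hA p1 hp1)) (lt_irrefl _)) hne
    rw [← hσ1] at h1
    have h2 : hh X Y σ₁ p1 < hh X Y σ₁ v := lt_of_le_of_ne (hB1 v hv) (Ne.symm h1)
    have := rk_lt_of_lt (Q := A ∪ B) (hAQ _ hp1) h2
    omega
  have A1 : ∀ v ∈ A, ∀ s0 : ℝ, s0 ≤ σ₂ → rk X Y (A ∪ B) s0 v ≤ k →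
      ∃ q ∈ A ∪ B, X v < X q ∧ s0 ≤ sl X Y v q ∧ sl X Y v q ≤ σ₂ ∧
        rk X Y (A ∪ B) (sl X Y v q) v = k := by
    intro v hv s0 hs hr
    by_cases hv2 : v = p2
    · refine ⟨q2, hBQ _ hq2, ?_, ?_, ?_, ?_⟩
      · rw [hv2]; exact hX2
      · rw [hv2, ← hσ2]; exact hs
      · rw [hv2, ← hσ2]
      · rw [hv2, ← hσ2]; exact hr2
    · have h3 := F3 v hv hv2
      rcases lt_or_eq_of_le hs with hlt | heq
      · obtain ⟨q, hq, ha, hb, hc, hd⟩ := leave hG (hAQ _ hv) hlt hr h3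
        exact ⟨q, hq, ha, hb, hc.le, hd⟩
      · rw [heq] at hr; omega
  have A2 : ∀ v ∈ A, hh X Y σ₁ v ≤ hh X Y σ₁ p1 → ∀ s0 : ℝ, σ₁ ≤ s0 → k + 1 ≤ rk X Y (A ∪ B) s0 v →
      ∃ q ∈ A ∪ B, X v < X q ∧ σ₁ ≤ sl X Y v q ∧ sl X Y v q < s0 ∧
        rk X Y (A ∪ B) (sl X Y v q) v = k := by
    intro v hv hle s0 hs hr
    have h1 := F1 v hv hle
    rcases lt_or_eq_of_le hs with hlt | heq
    · exact leave hG (hAQ _ hv) hlt h1 hr
    · rw [← heq] at hr; omega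
  have B1 : ∀ v ∈ B, ∀ s0 : ℝ, σ₁ ≤ s0 → rk X Y (A ∪ B) s0 v ≤ k →
      ∃ p ∈ A ∪ B, X p < X v ∧ σ₁ ≤ sl X Y p v ∧ sl X Y p v ≤ s0 ∧
        rk X Y (A ∪ B) (sl X Y p v) v = k := by
    intro v hv s0 hs hr
    by_cases hv1 : v = q1
    · refine ⟨p1, hAQ _ hp1, ?_, ?_, ?_, ?_⟩
      · rw [hv1]; exact hX1
      · rw [hv1, ← hσ1]
      · rw [hv1, ← hσ1]; exact hs
      · rw [hv1, ← hσ1]; exact hr1q
    · have h3 := F4 v hv hv1
      rcases lt_or_eq_of_le hs with hlt | heq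
      · obtain ⟨q, hq, ha, hb, hc, hd⟩ := enter hG (hBQ _ hv) hlt h3 hr
        exact ⟨q, hq, ha, hb.le, hc, hd⟩
      · rw [← heq] at hr; omega
  have B2 : ∀ v ∈ B, hh X Y σ₂ v ≤ hh X Y σ₂ p2 → ∀ s0 : ℝ, s0 ≤ σ₂ → k + 1 ≤ rk X Y (A ∪ B) s0 v →
      ∃ p ∈ A ∪ B, X p < X v ∧ s0 < sl X Y p v ∧ sl X Y p v ≤ σ₂ ∧
        rk X Y (A ∪ B) (sl X Y p v) v = k := by
    intro v hv hle s0 hs hr
    have h1 := F2 v hv hle
    rcases lt_or_eq_of_le hs with hlt | heq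
    · exact enter hG (hBQ _ hv) hlt hr h1
    · rw [heq] at hr; omega
  -- `σ₁ ≤ σ₂` in the presence of a point of `B'` (or `A'`): compare the first and the second line
  have AB : ∀ v ∈ A, hh X Y σ₁ v ≤ hh X Y σ₁ p1 → ∀ z ∈ B, hh X Y σ₂ z ≤ hh X Y σ₂ p2 →
      ∃ e ∈ ev X Y (A ∪ B) k σ₁ σ₂, Cov X Y e.1 e.2 v z := by
    intro v hv hv' z hz hz'
    have hXvz : X v < X z := lt_trans (hA v hv) (hB z hz)
    have hne : v ≠ z := fun h => by rw [h] at hXvz; exact lt_irrefl _ hXvz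
    have hs1 : σ₁ ≤ sl X Y v z := (hh_le_iff' hXvz σ₁).1 (le_trans hv' (hB1 z hz))
    have hs2 : sl X Y v z ≤ σ₂ := (hh_le_iff hXvz σ₂).1 (le_trans hz' (hA2 v hv))
    have hrr : rk X Y (A ∪ B) (sl X Y v z) z = rk X Y (A ∪ B) (sl X Y v z) v := rk_sl hXvz.ne
    rcases Nat.lt_or_ge k (rk X Y (A ∪ B) (sl X Y v z) v) with hr | hr
    · obtain ⟨q, hq, ha, hb, hc, hd⟩ := A2 v hv hv' _ hs1 hr
      exact cov_leave hG (hAQ _ hv) (hBQ _ hz) hq hne ha hd hb (le_trans hc.le hs2)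
        ((hh_le_iff' hXvz _).2 hc.le)
    · obtain ⟨p, hp, ha, hb, hc, hd⟩ := B1 z hz _ hs1 (by rw [hrr]; exact hr)
      exact cov_enter hG (hAQ _ hv) (hBQ _ hz) hp hne ha hd hb (le_trans hc hs2)
        ((hh_le_iff' hXvz _).2 hc)
  have AA : ∀ v ∈ A, hh X Y σ₁ v ≤ hh X Y σ₁ p1 → ∀ z ∈ A, hh X Y σ₁ z ≤ hh X Y σ₁ p1 → X v < X z →
      σ₁ ≤ σ₂ → ∃ e ∈ ev X Y (A ∪ B) k σ₁ σ₂, Cov X Y e.1 e.2 v z := by
    intro v hv hv' z hz hz' hXvz h12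
    have hne : v ≠ z := fun h => by rw [h] at hXvz; exact lt_irrefl _ hXvz
    rcases le_total (sl X Y v z) σ₁ with hs | hs
    · -- `z` is weakly below `v` on the whole interval
      obtain ⟨q, hq, ha, hb, hc, hd⟩ := A1 z hz σ₁ h12 (F1 z hz hz')
      obtain ⟨e, he, hce⟩ := cov_leave hG (hAQ _ hz) (hAQ _ hv) hq (Ne.symm hne) ha hd hb hc
        ((hh_le_iff hXvz _).2 (le_trans hs hb))
      exact ⟨e, he, hce.symm⟩
    rcases le_total σ₂ (sl X Y v z) with hs' | hs'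
    · obtain ⟨q, hq, ha, hb, hc, hd⟩ := A1 v hv σ₁ h12 (F1 v hv hv')
      exact cov_leave hG (hAQ _ hv) (hAQ _ hz) hq hne ha hd hb hc
        ((hh_le_iff' hXvz _).2 (le_trans hc hs'))
    have hrr : rk X Y (A ∪ B) (sl X Y v z) z = rk X Y (A ∪ B) (sl X Y v z) v := rk_sl hXvz.ne
    rcases Nat.lt_or_ge k (rk X Y (A ∪ B) (sl X Y v z) v) with hr | hr
    · obtain ⟨q, hq, ha, hb, hc, hd⟩ := A2 v hv hv' _ hs hr
      exact cov_leave hG (hAQ _ hv) (hAQ _ hz) hq hne ha hd hb (le_trans hc.le hs')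
        ((hh_le_iff' hXvz _).2 hc.le)
    · obtain ⟨q, hq, ha, hb, hc, hd⟩ := A1 z hz _ hs' (by rw [hrr]; exact hr)
      obtain ⟨e, he, hce⟩ := cov_leave hG (hAQ _ hz) (hAQ _ hv) hq (Ne.symm hne) ha hd
        (le_trans hs hb) hc ((hh_le_iff hXvz _).2 hb)
      exact ⟨e, he, hce.symm⟩
  have BB : ∀ v ∈ B, hh X Y σ₂ v ≤ hh X Y σ₂ p2 → ∀ z ∈ B, hh X Y σ₂ z ≤ hh X Y σ₂ p2 → X v < X z →
      σ₁ ≤ σ₂ → ∃ e ∈ ev X Y (A ∪ B) k σ₁ σ₂, Cov X Y e.1 e.2 v z := by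
    intro v hv hv' z hz hz' hXvz h12
    have hne : v ≠ z := fun h => by rw [h] at hXvz; exact lt_irrefl _ hXvz
    rcases le_total (sl X Y v z) σ₁ with hs | hs
    · -- `v` is weakly above `z` on the whole interval
      obtain ⟨q, hq, ha, hb, hc, hd⟩ := B1 v hv σ₂ h12 (F2 v hv hv')
      obtain ⟨e, he, hce⟩ := cov_enter hG (hBQ _ hz) (hBQ _ hv) hq (Ne.symm hne) ha hd hb hc
        ((hh_le_iff hXvz _).2 (le_trans hs hb))
      exact ⟨e, he, hce.symm⟩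
    rcases le_total σ₂ (sl X Y v z) with hs' | hs'
    · obtain ⟨q, hq, ha, hb, hc, hd⟩ := B1 z hz σ₂ h12 (F2 z hz hz')
      exact cov_enter hG (hBQ _ hv) (hBQ _ hz) hq hne ha hd hb hc
        ((hh_le_iff' hXvz _).2 (le_trans hc hs'))
    have hrr : rk X Y (A ∪ B) (sl X Y v z) z = rk X Y (A ∪ B) (sl X Y v z) v := rk_sl hXvz.ne
    rcases Nat.lt_or_ge k (rk X Y (A ∪ B) (sl X Y v z) v) with hr | hr
    · obtain ⟨q, hq, ha, hb, hc, hd⟩ := B2 v hv hv' _ hs' hr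
      obtain ⟨e, he, hce⟩ := cov_enter hG (hBQ _ hz) (hBQ _ hv) hq (Ne.symm hne) ha hd
        (le_trans hs hb.le) hc ((hh_le_iff hXvz _).2 hb.le)
      exact ⟨e, he, hce.symm⟩
    · obtain ⟨q, hq, ha, hb, hc, hd⟩ := B1 z hz _ hs (by rw [hrr]; exact hr)
      exact cov_enter hG (hBQ _ hv) (hBQ _ hz) hq hne ha hd hb (le_trans hc hs')
        ((hh_le_iff' hXvz _).2 hc)
  -- `σ₁ ≤ σ₂`
  have h12 : σ₁ ≤ σ₂ := by
    by_contra hlt
    push Not at hlt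
    -- slopes decreasing from σ₁ to σ₂ < σ₁
    rcases le_total (hh X Y σ₁ p1) (hh X Y σ₂ p2) with ht | ht
    · -- `p1` at slope σ₂ is strictly below p2
      have h1 : hh X Y σ₂ p1 < hh X Y σ₁ p1 := hh_smono_left (hA p1 hp1) hlt
      have h2 := hA2 p1 hp1
      linarith
    · have h1 : hh X Y σ₁ q2 < hh X Y σ₂ q2 := hh_santi_right (hB q2 hq2) hlt
      have h2 := hB1 q2 hq2
      linarith
  rcases hu with ⟨hu, hu'⟩ | ⟨hu, hu'⟩ <;> rcases hw with ⟨hw, hw'⟩ | ⟨hw, hw'⟩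
  · rcases lt_trichotomy (X u) (X w) with h | h | h
    · exact AA u hu hu' w hw hw' h h12
    · exact absurd (hG.inj u (hAQ _ hu) w (hAQ _ hw) h) huw
    · obtain ⟨e, he, hce⟩ := AA w hw hw' u hu hu' h h12
      exact ⟨e, he, hce.symm⟩
  · exact AB u hu hu' w hw hw'
  · obtain ⟨e, he, hce⟩ := AB w hw hw' u hu hu'
    exact ⟨e, he, hce.symm⟩
  · rcases lt_trichotomy (X u) (X w) with h | h | h
    · exact BB u hu hu' w hw hw' h h12
    · exact absurd (hG.inj u (hBQ _ hu) w (hBQ _ hw) h) huw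
    · obtain ⟨e, he, hce⟩ := BB w hw hw' u hu hu' h h12
      exact ⟨e, he, hce.symm⟩

theorem card_le_line {A : Finset ι} {s : ℝ} {p : ι} (hp : p ∈ A)
    (huniq : ∀ a ∈ A, hh X Y s a = hh X Y s p → a = p) :
    (A.filter (fun a => hh X Y s a ≤ hh X Y s p)).card = rk X Y A s p + 1 := by
  have : A.filter (fun a => hh X Y s a ≤ hh X Y s p) =
      insert p (A.filter (fun a => hh X Y s a < hh X Y s p)) := by
    ext a
    simp only [mem_filter, mem_insert]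
    constructor
    · rintro ⟨h1, h2⟩
      rcases lt_or_eq_of_le h2 with h | h
      · exact Or.inr ⟨h1, h⟩
      · exact Or.inl (huniq a h1 h)
    · rintro (h | ⟨h1, h2⟩)
      · rw [h]; exact ⟨hp, le_refl _⟩
      · exact ⟨h1, h2.le⟩
  rw [this, card_insert_of_notMem (by simp)]
  rfl

theorem coverage {A B : Finset ι} (hG : GP X Y (A ∪ B)) (hA : ∀ a ∈ A, X a < 0) (hB : ∀ b ∈ B, 0 < X b)
    {k : ℕ} (hkA : k < A.card) (hkB : k < B.card) :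
    ∃ (V : Finset ι) (E : Finset (ι × ι)), V ⊆ A ∪ B ∧ V.card = 2 * (k + 1) ∧
      (∀ e ∈ E, X e.1 < X e.2) ∧
      (∀ u ∈ V, ∀ w ∈ V, u ≠ w → ∃ e ∈ E, Cov X Y e.1 e.2 u w) ∧
      E.card ≤ (k + 1) + ((hp X Y A B ∪ hp X Y B A).filter
        (fun e => rk X Y (A ∪ B) (sl X Y e.1 e.2) e.1 = k)).card := by
  have hdisj : Disjoint A B := by
    rw [Finset.disjoint_left]
    intro x hx hx'
    exact absurd (lt_trans (hA x hx) (hB x hx')) (lt_irrefl _)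
  have hneAB : ∀ a ∈ A, ∀ b ∈ B, a ≠ b := fun a ha b hb h =>
    Finset.disjoint_left.1 hdisj ha (h ▸ hb)
  have hAQ : ∀ a ∈ A, a ∈ A ∪ B := fun a ha => mem_union_left _ ha
  have hBQ : ∀ b ∈ B, b ∈ A ∪ B := fun b hb => mem_union_right _ hb
  obtain ⟨p1, hp1, q1, hq1, h1A, h1B⟩ := surj_pairs hG hA hB hkA (lt_of_le_of_lt (Nat.zero_le _) hkB)
  obtain ⟨p2, hp2, q2, hq2, h2A, h2B⟩ := surj_pairs hG hA hB (lt_of_le_of_lt (Nat.zero_le _) hkA) hkB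
  have hX1 : X p1 < X q1 := lt_trans (hA p1 hp1) (hB q1 hq1)
  have hX2 : X p2 < X q2 := lt_trans (hA p2 hp2) (hB q2 hq2)
  set σ₁ := sl X Y p1 q1 with hσ1
  set σ₂ := sl X Y p2 q2 with hσ2
  have e1 : hh X Y σ₁ q1 = hh X Y σ₁ p1 := hh_sl hX1.ne
  have e2 : hh X Y σ₂ q2 = hh X Y σ₂ p2 := hh_sl hX2.ne
  have u1 : ∀ a ∈ A, hh X Y σ₁ a = hh X Y σ₁ p1 → a = p1 := by
    intro a ha h
    by_contra hne
    exact hG.gen p1 (hAQ _ hp1) q1 (hBQ _ hq1) a (hAQ _ ha) (hneAB _ hp1 _ hq1) hne (hneAB _ ha _ hq1) h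
  have u2 : ∀ b ∈ B, hh X Y σ₂ b = hh X Y σ₂ q2 → b = q2 := by
    intro b hb h
    by_contra hne
    rw [e2] at h
    exact hG.gen p2 (hAQ _ hp2) q2 (hBQ _ hq2) b (hBQ _ hb) (hneAB _ hp2 _ hq2) (Ne.symm (hneAB _ hp2 _ hb)) hne h
  have hc1 : (A.filter (fun a => hh X Y σ₁ a ≤ hh X Y σ₁ p1)).card = k + 1 := by
    rw [card_le_line hp1 u1, h1A]
  have hc2 : (B.filter (fun a => hh X Y σ₂ a ≤ hh X Y σ₂ p2)).card = k + 1 := by
    rw [← e2, card_le_line hq2 u2]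
    congr 1
    rw [← h2B]; unfold rk; rw [e2]
  refine ⟨A.filter (fun a => hh X Y σ₁ a ≤ hh X Y σ₁ p1) ∪ B.filter (fun a => hh X Y σ₂ a ≤ hh X Y σ₂ p2),
    ev X Y (A ∪ B) k σ₁ σ₂, ?_, ?_, ?_, ?_, ?_⟩
  · exact union_subset_union (filter_subset _ _) (filter_subset _ _)
  · rw [card_union_of_disjoint, hc1, hc2]
    · ring
    · exact disjoint_filter_filter hdisj
  · intro e he
    exact (mem_ev.1 (show (e.1, e.2) ∈ _ from he)).2.2.1
  · intro u hu w hw huw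
    refine coverage_core hG hA hB hp1 hq1 hp2 hq2 hσ1 hσ2 h1A h1B h2A h2B ?_ ?_ huw
    · simpa [mem_union, mem_filter] using hu
    · simpa [mem_union, mem_filter] using hw
  · -- counting the events
    set E := ev X Y (A ∪ B) k σ₁ σ₂ with hE
    set F := (hp X Y A B ∪ hp X Y B A).filter
        (fun e => rk X Y (A ∪ B) (sl X Y e.1 e.2) e.1 = k) with hF
    have hsub : E ⊆ (E.filter (fun e => e.1 ∈ A ∧ e.2 ∈ B)) ∪ F := by
      intro e he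
      have he' := mem_ev.1 (show (e.1, e.2) ∈ ev X Y (A ∪ B) k σ₁ σ₂ from he)
      obtain ⟨ha, hb, hx, hr, hs1, hs2⟩ := he'
      rw [mem_union]
      rcases mem_union.1 ha with ha | ha <;> rcases mem_union.1 hb with hb | hb
      · right
        rw [hF, mem_filter, mem_union]
        refine ⟨Or.inl (mem_hp.2 ⟨ha, hb, hx, ?_⟩), hr⟩
        refine hitA hG hA hB hkB hq1 e1 ?_ ha hb hx hs1 hr
        exact le_of_eq h1A
      · left; exact mem_filter.2 ⟨he, ha, hb⟩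
      · exfalso
        have := hB _ ha
        have := hA _ hb
        linarith
      · right
        rw [hF, mem_filter, mem_union]
        refine ⟨Or.inr (mem_hp.2 ⟨ha, hb, hx, ?_⟩), hr⟩
        refine hitB hG hA hB hkA hp2 rfl ?_ ha hb hx hs2 hr
        exact le_of_eq h2B
    have hAB : (E.filter (fun e => e.1 ∈ A ∧ e.2 ∈ B)).card ≤ k + 1 := by
      rw [← card_range (k + 1)]
      refine card_le_card_of_injOn (fun e => rk X Y B (sl X Y e.1 e.2) e.1) ?_ ?_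
      · intro e he
        rw [mem_coe, mem_filter] at he
        have he' := mem_ev.1 (show (e.1, e.2) ∈ ev X Y (A ∪ B) k σ₁ σ₂ from he.1)
        have hr := he'.2.2.2.1
        rw [rk_union hdisj] at hr
        simp only [coe_range, Set.mem_Iio]
        omega
      · intro e he e' he' h
        rw [mem_coe, mem_filter] at he he'
        have hm := mem_ev.1 (show (e.1, e.2) ∈ ev X Y (A ∪ B) k σ₁ σ₂ from he.1)
        have hm' := mem_ev.1 (show (e'.1, e'.2) ∈ ev X Y (A ∪ B) k σ₁ σ₂ from he'.1)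
        have hr := hm.2.2.2.1
        have hr' := hm'.2.2.2.1
        rw [rk_union hdisj] at hr hr'
        simp only at h
        have := inj_pairs hG hA hB he.2.1 he'.2.1 he.2.2 he'.2.2 (by omega) h
        exact Prod.ext this.1 this.2
    calc E.card ≤ ((E.filter (fun e => e.1 ∈ A ∧ e.2 ∈ B)) ∪ F).card := card_le_card hsub
      _ ≤ (E.filter (fun e => e.1 ∈ A ∧ e.2 ∈ B)).card + F.card := card_union_le _ _
      _ ≤ (k + 1) + F.card := by omega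

end Pool.Agent.H365PP
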