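import Pool.Agent.H365PP.Cov

set_option autoImplicit false
set_option linter.unusedSectionVars false

namespace Pool.Agent.H365PP

open Finset

variable {ι : Type*} [DecidableEq ι] {X Y : ι → ℝ} {Q : Finset ι}

/-- the segments `e` and `f` cross, `e` having the smaller slope: each of them has its endpoints on the two
sides of the line of the other one -/
def Opp (X Y : ι → ℝ) (e f : ι × ι) : Prop :=
  sl X Y e.1 e.2 < sl X Y f.1 f.2 ∧
  hh X Y (sl X Y e.1 e.2) f.1 < hh X Y (sl X Y e.1 e.2) e.1 ∧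
  hh X Y (sl X Y e.1 e.2) e.1 < hh X Y (sl X Y e.1 e.2) f.2 ∧
  hh X Y (sl X Y f.1 f.2) e.2 < hh X Y (sl X Y f.1 f.2) f.1 ∧
  hh X Y (sl X Y f.1 f.2) f.1 < hh X Y (sl X Y f.1 f.2) e.1

theorem below_of_rk (hG : GP X Y Q) {p q u : ι} (hp : p ∈ Q) (hq : q ∈ Q) (hu : u ∈ Q) (hX : X p < X q)
    {k : ℕ} (hr : rk X Y Q (sl X Y p q) p = k) (hup : u ≠ p) (huq : u ≠ q)
    (h : rk X Y Q (sl X Y p q) u ≤ k) : hh X Y (sl X Y p q) u < hh X Y (sl X Y p q) p := by
  have hne : hh X Y (sl X Y p q) u ≠ hh X Y (sl X Y p q) p :=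
    hG.gen p hp q hq u hu (fun h => by rw [h] at hX; exact lt_irrefl _ hX) hup huq
  rcases lt_or_gt_of_ne hne with h1 | h1
  · exact h1
  · have := rk_lt_of_lt (Q := Q) hp h1
    omega

theorem above_of_rk (hG : GP X Y Q) {p q u : ι} (hp : p ∈ Q) (hq : q ∈ Q) (hu : u ∈ Q) (hX : X p < X q)
    {k : ℕ} (hr : rk X Y Q (sl X Y p q) p = k) (hup : u ≠ p) (huq : u ≠ q)
    (h : k + 1 ≤ rk X Y Q (sl X Y p q) u) : hh X Y (sl X Y p q) p < hh X Y (sl X Y p q) u := by
  have hne : hh X Y (sl X Y p q) u ≠ hh X Y (sl X Y p q) p :=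
    hG.gen p hp q hq u hu (fun h => by rw [h] at hX; exact lt_irrefl _ hX) hup huq
  rcases lt_or_gt_of_ne hne with h1 | h1
  · have := rk_le_of_le (Q := Q) h1.le
    omega
  · exact h1

theorem crossing_core {A B : Finset ι} (hG : GP X Y (A ∪ B)) (hA : ∀ a ∈ A, X a < 0) (hB : ∀ b ∈ B, 0 < X b)
    {k : ℕ} (hkA : k < A.card) (hkB : k < B.card) :
    ∃ G : Finset (ι × ι), (∀ e ∈ G, e.1 ∈ A ∧ e.2 ∈ B) ∧
      k + 1 ≤ G.card + 2 * ((hp X Y A B ∪ hp X Y B A).filter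
        (fun e => rk X Y (A ∪ B) (sl X Y e.1 e.2) e.1 = k)).card ∧
      (∀ e ∈ G, ∀ f ∈ G, e ≠ f → Opp X Y e f ∨ Opp X Y f e) := by
  have hdisj : Disjoint A B := by
    rw [Finset.disjoint_left]
    intro x hx hx'
    exact absurd (lt_trans (hA x hx) (hB x hx')) (lt_irrefl _)
  have hneAB : ∀ a ∈ A, ∀ b ∈ B, a ≠ b := fun a ha b hb h =>
    Finset.disjoint_left.1 hdisj ha (h ▸ hb)
  have hAQ : ∀ a ∈ A, a ∈ A ∪ B := fun a ha => mem_union_left _ ha
  have hBQ : ∀ b ∈ B, b ∈ A ∪ B := fun b hb => mem_union_right _ hb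
  obtain ⟨p1, hp1, q1, hq1, h1A, h1B⟩ := surj_pairs hG hA hB hkA (lt_of_le_of_lt (Nat.zero_le _) hkB)
  obtain ⟨p2, hp2, q2, hq2, h2A, h2B⟩ := surj_pairs hG hA hB (lt_of_le_of_lt (Nat.zero_le _) hkA) hkB
  have hX1 : X p1 < X q1 := lt_trans (hA p1 hp1) (hB q1 hq1)
  have hX2 : X p2 < X q2 := lt_trans (hA p2 hp2) (hB q2 hq2)
  set σ₁ := sl X Y p1 q1 with hσ1
  set σ₂ := sl X Y p2 q2 with hσ2
  have e1 : hh X Y σ₁ q1 = hh X Y σ₁ p1 := hh_sl hX1.ne
  have e2 : hh X Y σ₂ q2 = hh X Y σ₂ p2 := hh_sl hX2.ne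
  have u1 : ∀ a ∈ A, hh X Y σ₁ a = hh X Y σ₁ p1 → a = p1 := by
    intro a ha h
    by_contra hne
    exact hG.gen p1 (hAQ _ hp1) q1 (hBQ _ hq1) a (hAQ _ ha) (hneAB _ hp1 _ hq1) hne (hneAB _ ha _ hq1) h
  have u2 : ∀ b ∈ B, hh X Y σ₂ b = hh X Y σ₂ q2 → b = q2 := by
    intro b hb h
    by_contra hne
    rw [e2] at h
    exact hG.gen p2 (hAQ _ hp2) q2 (hBQ _ hq2) b (hBQ _ hb) (hneAB _ hp2 _ hq2) (Ne.symm (hneAB _ hp2 _ hb)) hne h
  have hc1 : (A.filter (fun a => hh X Y σ₁ a ≤ hh X Y σ₁ p1)).card = k + 1 := by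
    rw [card_le_line hp1 u1, h1A]
  have hc2 : (B.filter (fun a => hh X Y σ₂ a ≤ hh X Y σ₂ p2)).card = k + 1 := by
    rw [← e2, card_le_line hq2 u2]
    congr 1
    rw [← h2B]; unfold rk; rw [e2]
  have hr1 : rk X Y (A ∪ B) σ₁ p1 = k := by rw [rk_union hdisj, h1A, h1B, Nat.add_zero]
  have hr2 : rk X Y (A ∪ B) σ₂ p2 = k := by rw [rk_union hdisj, h2A, h2B, Nat.zero_add]
  have hr1q : rk X Y (A ∪ B) σ₁ q1 = k := by rw [← hr1]; unfold rk; rw [e1]
  have hB1 : ∀ b ∈ B, hh X Y σ₁ p1 ≤ hh X Y σ₁ b := by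
    intro b hb
    by_contra hlt
    push Not at hlt
    have : b ∈ B.filter (fun q => hh X Y σ₁ q < hh X Y σ₁ p1) := by simp [hb, hlt]
    have h0 : (B.filter (fun q => hh X Y σ₁ q < hh X Y σ₁ p1)) = ∅ := card_eq_zero.1 h1B
    rw [h0] at this; simp at this
  have hA2 : ∀ a ∈ A, hh X Y σ₂ p2 ≤ hh X Y σ₂ a := by
    intro b hb
    by_contra hlt
    push Not at hlt
    have : b ∈ A.filter (fun q => hh X Y σ₂ q < hh X Y σ₂ p2) := by simp [hb, hlt]
    have h0 : (A.filter (fun q => hh X Y σ₂ q < hh X Y σ₂ p2)) = ∅ := card_eq_zero.1 h2A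
    rw [h0] at this; simp at this
  have F1 : ∀ v ∈ A, hh X Y σ₁ v ≤ hh X Y σ₁ p1 → rk X Y (A ∪ B) σ₁ v ≤ k := by
    intro v _ hle
    rw [← hr1]; exact rk_le_of_le hle
  have F2 : ∀ v ∈ B, hh X Y σ₂ v ≤ hh X Y σ₂ p2 → rk X Y (A ∪ B) σ₂ v ≤ k := by
    intro v _ hle
    rw [← hr2]; exact rk_le_of_le hle
  have F3 : ∀ v ∈ A, v ≠ p2 → k + 1 ≤ rk X Y (A ∪ B) σ₂ v := by
    intro v hv hne
    have h1 : hh X Y (sl X Y p2 q2) v ≠ hh X Y (sl X Y p2 q2) p2 :=
      hG.gen p2 (hAQ _ hp2) q2 (hBQ _ hq2) v (hAQ _ hv) (hneAB _ hp2 _ hq2) hne (hneAB _ hv _ hq2)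
    rw [← hσ2] at h1
    have h2 : hh X Y σ₂ p2 < hh X Y σ₂ v := lt_of_le_of_ne (hA2 v hv) (Ne.symm h1)
    have := rk_lt_of_lt (Q := A ∪ B) (hAQ _ hp2) h2
    omega
  have F4 : ∀ v ∈ B, v ≠ q1 → k + 1 ≤ rk X Y (A ∪ B) σ₁ v := by
    intro v hv hne
    have h1 : hh X Y (sl X Y p1 q1) v ≠ hh X Y (sl X Y p1 q1) p1 :=
      hG.gen p1 (hAQ _ hp1) q1 (hBQ _ hq1) v (hBQ _ hv) (hneAB _ hp1 _ hq1)
        (Ne.symm (hneAB _ hp1 _ hv)) hne
    rw [← hσ1] at h1
    have h2 : hh X Y σ₁ p1 < hh X Y σ₁ v := lt_of_le_of_ne (hB1 v hv) (Ne.symm h1)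
    have := rk_lt_of_lt (Q := A ∪ B) (hAQ _ hp1) h2
    omega
  have h12 : σ₁ ≤ σ₂ := by
    by_contra hlt
    push Not at hlt
    rcases le_total (hh X Y σ₁ p1) (hh X Y σ₂ p2) with ht | ht
    · have h1 : hh X Y σ₂ p1 < hh X Y σ₁ p1 := hh_smono_left (hA p1 hp1) hlt
      have h2 := hA2 p1 hp1
      linarith
    · have h1 : hh X Y σ₁ q2 < hh X Y σ₂ q2 := hh_santi_right (hB q2 hq2) hlt
      have h2 := hB1 q2 hq2
      linarith
  set E := ev X Y (A ∪ B) k σ₁ σ₂ with hE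
  have hmE : ∀ e : ι × ι, e ∈ E ↔ e.1 ∈ A ∪ B ∧ e.2 ∈ A ∪ B ∧ X e.1 < X e.2 ∧
      rk X Y (A ∪ B) (sl X Y e.1 e.2) e.1 = k ∧ σ₁ ≤ sl X Y e.1 e.2 ∧ sl X Y e.1 e.2 ≤ σ₂ := by
    intro e; exact mem_ev (p := e.1) (q := e.2)
  -- every point of `A` which is below at `s0` leaves in `[s0,σ₂]`
  have A1 : ∀ v ∈ A, ∀ s0 : ℝ, σ₁ ≤ s0 → s0 ≤ σ₂ → rk X Y (A ∪ B) s0 v ≤ k →
      ∃ e ∈ E, e.1 = v ∧ s0 ≤ sl X Y e.1 e.2 := by
    intro v hv s0 hs' hs hr
    by_cases hv2 : v = p2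
    · exact ⟨(p2, q2), (hmE _).2 ⟨hAQ _ hp2, hBQ _ hq2, hX2, hr2, h12, le_refl _⟩, hv2.symm, hs⟩
    · have h3 := F3 v hv hv2
      rcases lt_or_eq_of_le hs with hlt | heq
      · obtain ⟨q, hq, ha, hb, hc, hd⟩ := leave hG (hAQ _ hv) hlt hr h3
        exact ⟨(v, q), (hmE _).2 ⟨hAQ _ hv, hq, ha, hd, le_trans hs' hb, hc.le⟩, rfl, hb⟩
      · rw [heq] at hr; omega
  -- every point of `A'` which is above at `s0` leaves in `[σ₁,s0)`
  have A2 : ∀ v ∈ A, hh X Y σ₁ v ≤ hh X Y σ₁ p1 → ∀ s0 : ℝ, σ₁ ≤ s0 → s0 ≤ σ₂ →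
      k + 1 ≤ rk X Y (A ∪ B) s0 v → ∃ e ∈ E, e.1 = v ∧ sl X Y e.1 e.2 < s0 := by
    intro v hv hle s0 hs hs' hr
    have h1 := F1 v hv hle
    rcases lt_or_eq_of_le hs with hlt | heq
    · obtain ⟨q, hq, ha, hb, hc, hd⟩ := leave hG (hAQ _ hv) hlt h1 hr
      exact ⟨(v, q), (hmE _).2 ⟨hAQ _ hv, hq, ha, hd, hb, le_trans hc.le hs'⟩, rfl, hc⟩
    · rw [← heq] at hr; omega
  have B1 : ∀ v ∈ B, ∀ s0 : ℝ, σ₁ ≤ s0 → s0 ≤ σ₂ → rk X Y (A ∪ B) s0 v ≤ k →
      ∃ e ∈ E, e.2 = v ∧ sl X Y e.1 e.2 ≤ s0 := by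
    intro v hv s0 hs hs' hr
    by_cases hv1 : v = q1
    · exact ⟨(p1, q1), (hmE _).2 ⟨hAQ _ hp1, hBQ _ hq1, hX1, hr1, le_refl _, h12⟩, hv1.symm, hs⟩
    · have h3 := F4 v hv hv1
      rcases lt_or_eq_of_le hs with hlt | heq
      · obtain ⟨q, hq, ha, hb, hc, hd⟩ := enter hG (hBQ _ hv) hlt h3 hr
        refine ⟨(q, v), (hmE _).2 ⟨hq, hBQ _ hv, ha, ?_, hb.le, le_trans hc hs'⟩, rfl, hc⟩
        simp only
        rw [← rk_sl ha.ne]; exact hd
      · rw [← heq] at hr; omega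
  have B2 : ∀ v ∈ B, hh X Y σ₂ v ≤ hh X Y σ₂ p2 → ∀ s0 : ℝ, σ₁ ≤ s0 → s0 ≤ σ₂ →
      k + 1 ≤ rk X Y (A ∪ B) s0 v → ∃ e ∈ E, e.2 = v ∧ s0 < sl X Y e.1 e.2 := by
    intro v hv hle s0 hs' hs hr
    have h1 := F2 v hv hle
    rcases lt_or_eq_of_le hs with hlt | heq
    · obtain ⟨q, hq, ha, hb, hc, hd⟩ := enter hG (hBQ _ hv) hlt hr h1
      refine ⟨(q, v), (hmE _).2 ⟨hq, hBQ _ hv, ha, ?_, le_trans hs' hb.le, hc⟩, rfl, hb⟩
      simp only
      rw [← rk_sl ha.ne]; exact hd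
    · rw [heq] at hr; omega
  -- the sets
  set A' := A.filter (fun a => hh X Y σ₁ a ≤ hh X Y σ₁ p1) with hA'
  set B' := B.filter (fun a => hh X Y σ₂ a ≤ hh X Y σ₂ p2) with hB'
  set GA := A'.filter (fun a => (E.filter (fun e => e.1 = a)).card = 1) with hGA
  set GB := B'.filter (fun b => (E.filter (fun e => e.2 = b)).card = 1) with hGB
  set EAB := E.filter (fun e => e.1 ∈ A ∧ e.2 ∈ B) with hEAB
  set EAA := E.filter (fun e => e.1 ∈ A ∧ e.2 ∈ A) with hEAA
  set EBB := E.filter (fun e => e.1 ∈ B ∧ e.2 ∈ B) with hEBB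
  set F := (hp X Y A B ∪ hp X Y B A).filter
        (fun e => rk X Y (A ∪ B) (sl X Y e.1 e.2) e.1 = k) with hF
  have hEABc : EAB.card ≤ k + 1 := by
    rw [← card_range (k + 1)]
    refine card_le_card_of_injOn (fun e => rk X Y B (sl X Y e.1 e.2) e.1) ?_ ?_
    · intro e he
      rw [mem_coe, hEAB, mem_filter] at he
      have he' := (hmE e).1 he.1
      have hr := he'.2.2.2.1
      rw [rk_union hdisj] at hr
      simp only [coe_range, Set.mem_Iio]
      omega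
    · intro e he e' he' h
      rw [mem_coe, hEAB, mem_filter] at he he'
      have hm := (hmE e).1 he.1
      have hm' := (hmE e').1 he'.1
      have hr := hm.2.2.2.1
      have hr' := hm'.2.2.2.1
      rw [rk_union hdisj] at hr hr'
      simp only at h
      have := inj_pairs hG hA hB he.2.1 he'.2.1 he.2.2 he'.2.2 (by omega) h
      exact Prod.ext this.1 this.2
  have hAAF : EAA.card + EBB.card ≤ F.card := by
    rw [← card_union_of_disjoint]
    · apply card_le_card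
      intro e he
      rw [mem_union, hEAA, hEBB, mem_filter, mem_filter] at he
      rcases he with ⟨he, ha, hb⟩ | ⟨he, ha, hb⟩
      · obtain ⟨_, _, hx, hr, hs1, hs2⟩ := (hmE e).1 he
        rw [hF, mem_filter, mem_union]
        refine ⟨Or.inl (mem_hp.2 ⟨ha, hb, hx, ?_⟩), hr⟩
        exact hitA hG hA hB hkB hq1 e1 (le_of_eq h1A) ha hb hx hs1 hr
      · obtain ⟨_, _, hx, hr, hs1, hs2⟩ := (hmE e).1 he
        rw [hF, mem_filter, mem_union]
        refine ⟨Or.inr (mem_hp.2 ⟨ha, hb, hx, ?_⟩), hr⟩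
        exact hitB hG hA hB hkA hp2 rfl (le_of_eq h2B) ha hb hx hs2 hr
    · rw [Finset.disjoint_left]
      intro e he he'
      rw [hEAA, mem_filter] at he
      rw [hEBB, mem_filter] at he'
      exact Finset.disjoint_left.1 hdisj he.2.1 he'.2.1
  -- counting in `A`
  have hcountA : 2 * (k + 1) ≤ (EAB.card + EAA.card) + GA.card := by
    have h1 : (E.filter (fun e => e.1 ∈ A')).card = ∑ a ∈ A', (E.filter (fun e => e.1 = a)).card := by
      rw [card_eq_sum_card_fiberwise (f := fun e => e.1) (t := A') (fun e he => by simpa using (mem_filter.1 he).2)]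
      refine sum_congr rfl fun a ha => ?_
      congr 1
      ext e
      simp only [mem_filter]
      constructor
      · rintro ⟨⟨h1, _⟩, h2⟩; exact ⟨h1, h2⟩
      · rintro ⟨h1, h2⟩; exact ⟨⟨h1, h2 ▸ ha⟩, h2⟩
    have h2 : (E.filter (fun e => e.1 ∈ A')).card ≤ EAB.card + EAA.card := by
      refine le_trans (card_le_card ?_) (card_union_le _ _)
      intro e he
      rw [mem_filter] at he
      have hm := (hmE e).1 he.1
      have ha : e.1 ∈ A := (mem_filter.1 he.2).1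
      rw [mem_union, hEAB, hEAA, mem_filter, mem_filter]
      rcases mem_union.1 hm.2.1 with hb | hb
      · right; exact ⟨he.1, ha, hb⟩
      · left; exact ⟨he.1, ha, hb⟩
    have h3 : ∑ a ∈ A', 2 ≤ ∑ a ∈ A', ((E.filter (fun e => e.1 = a)).card +
        if (E.filter (fun e => e.1 = a)).card = 1 then 1 else 0) := by
      refine sum_le_sum fun a ha => ?_
      have h4 : 1 ≤ (E.filter (fun e => e.1 = a)).card := by
        have ha' := mem_filter.1 ha
        obtain ⟨e, he, hea, _⟩ := A1 a ha'.1 σ₁ (le_refl _) h12 (F1 a ha'.1 ha'.2)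
        exact card_pos.2 ⟨e, mem_filter.2 ⟨he, hea⟩⟩
      split_ifs with h5 <;> omega
    rw [sum_add_distrib, ← h1, sum_const, smul_eq_mul, hc1, ← card_filter] at h3
    rw [hGA]
    omega
  have hcountB : 2 * (k + 1) ≤ (EAB.card + EBB.card) + GB.card := by
    have h1 : (E.filter (fun e => e.2 ∈ B')).card = ∑ a ∈ B', (E.filter (fun e => e.2 = a)).card := by
      rw [card_eq_sum_card_fiberwise (f := fun e => e.2) (t := B') (fun e he => by simpa using (mem_filter.1 he).2)]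
      refine sum_congr rfl fun a ha => ?_
      congr 1
      ext e
      simp only [mem_filter]
      constructor
      · rintro ⟨⟨h1, _⟩, h2⟩; exact ⟨h1, h2⟩
      · rintro ⟨h1, h2⟩; exact ⟨⟨h1, h2 ▸ ha⟩, h2⟩
    have h2 : (E.filter (fun e => e.2 ∈ B')).card ≤ EAB.card + EBB.card := by
      refine le_trans (card_le_card ?_) (card_union_le _ _)
      intro e he
      rw [mem_filter] at he
      have hm := (hmE e).1 he.1
      have ha : e.2 ∈ B := (mem_filter.1 he.2).1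
      rw [mem_union, hEAB, hEBB, mem_filter, mem_filter]
      rcases mem_union.1 hm.1 with hb | hb
      · left; exact ⟨he.1, hb, ha⟩
      · right; exact ⟨he.1, hb, ha⟩
    have h3 : ∑ a ∈ B', 2 ≤ ∑ a ∈ B', ((E.filter (fun e => e.2 = a)).card +
        if (E.filter (fun e => e.2 = a)).card = 1 then 1 else 0) := by
      refine sum_le_sum fun a ha => ?_
      have h4 : 1 ≤ (E.filter (fun e => e.2 = a)).card := by
        have ha' := mem_filter.1 ha
        obtain ⟨e, he, hea, _⟩ := B1 a ha'.1 σ₂ h12 (le_refl _) (F2 a ha'.1 ha'.2)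
        exact card_pos.2 ⟨e, mem_filter.2 ⟨he, hea⟩⟩
      split_ifs with h5 <;> omega
    rw [sum_add_distrib, ← h1, sum_const, smul_eq_mul, hc2, ← card_filter] at h3
    rw [hGB]
    omega
  have hGAle : GA.card ≤ (EAB.filter (fun e => e.1 ∈ GA)).card + EAA.card := by
    have h1 : GA.card ≤ (E.filter (fun e => e.1 ∈ GA)).card := by
      have : GA ⊆ (E.filter (fun e => e.1 ∈ GA)).image (fun e => e.1) := by
        intro a ha
        have h2 := (mem_filter.1 ha).2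
        have h3 : (E.filter (fun e => e.1 = a)).Nonempty := by
          rw [← card_pos, h2]; exact one_pos
        obtain ⟨e, he⟩ := h3
        rw [mem_filter] at he
        exact mem_image.2 ⟨e, mem_filter.2 ⟨he.1, he.2 ▸ ha⟩, he.2⟩
      exact le_trans (card_le_card this) card_image_le
    refine le_trans h1 (le_trans (card_le_card ?_) (card_union_le _ _))
    intro e he
    rw [mem_filter] at he
    have hm := (hmE e).1 he.1
    have ha : e.1 ∈ A := (mem_filter.1 (mem_filter.1 he.2).1).1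
    rcases mem_union.1 hm.2.1 with hb | hb
    · exact mem_union.2 (Or.inr (mem_filter.2 ⟨he.1, ha, hb⟩))
    · exact mem_union.2 (Or.inl (mem_filter.2 ⟨mem_filter.2 ⟨he.1, ha, hb⟩, he.2⟩))
  have hGBle : GB.card ≤ (EAB.filter (fun e => e.2 ∈ GB)).card + EBB.card := by
    have h1 : GB.card ≤ (E.filter (fun e => e.2 ∈ GB)).card := by
      have : GB ⊆ (E.filter (fun e => e.2 ∈ GB)).image (fun e => e.2) := by
        intro a ha
        have h2 := (mem_filter.1 ha).2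
        have h3 : (E.filter (fun e => e.2 = a)).Nonempty := by
          rw [← card_pos, h2]; exact one_pos
        obtain ⟨e, he⟩ := h3
        rw [mem_filter] at he
        exact mem_image.2 ⟨e, mem_filter.2 ⟨he.1, he.2 ▸ ha⟩, he.2⟩
      exact le_trans (card_le_card this) card_image_le
    refine le_trans h1 (le_trans (card_le_card ?_) (card_union_le _ _))
    intro e he
    rw [mem_filter] at he
    have hm := (hmE e).1 he.1
    have ha : e.2 ∈ B := (mem_filter.1 (mem_filter.1 he.2).1).1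
    rcases mem_union.1 hm.1 with hb | hb
    · exact mem_union.2 (Or.inl (mem_filter.2 ⟨mem_filter.2 ⟨he.1, hb, ha⟩, he.2⟩))
    · exact mem_union.2 (Or.inr (mem_filter.2 ⟨he.1, hb, ha⟩))
  have hinter : (EAB.filter (fun e => e.1 ∈ GA)).card + (EAB.filter (fun e => e.2 ∈ GB)).card ≤
      (EAB.filter (fun e => e.1 ∈ GA ∧ e.2 ∈ GB)).card + EAB.card := by
    rw [← card_union_add_card_inter, filter_and, add_comm]
    refine Nat.add_le_add_left (card_le_card ?_) _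
    exact union_subset (filter_subset _ _) (filter_subset _ _)
  refine ⟨EAB.filter (fun e => e.1 ∈ GA ∧ e.2 ∈ GB), ?_, by omega, ?_⟩
  · intro e he
    exact (mem_filter.1 (mem_filter.1 he).1).2
  · -- pairwise crossing
    have key : ∀ e ∈ EAB.filter (fun e => e.1 ∈ GA ∧ e.2 ∈ GB), ∀ f ∈ EAB.filter (fun e => e.1 ∈ GA ∧ e.2 ∈ GB),
        sl X Y e.1 e.2 < sl X Y f.1 f.2 → Opp X Y e f := by
      intro e he f hf hlt
      rw [mem_filter] at he hf
      obtain ⟨he1, heA, heB⟩ := he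
      obtain ⟨hf1, hfA, hfB⟩ := hf
      rw [hEAB, mem_filter] at he1 hf1
      obtain ⟨heE, hea, heb⟩ := he1
      obtain ⟨hfE, hfa, hfb⟩ := hf1
      obtain ⟨_, _, hex, her, hes1, hes2⟩ := (hmE e).1 heE
      obtain ⟨_, _, hfx, hfr, hfs1, hfs2⟩ := (hmE f).1 hfE
      -- uniqueness of the events
      have uA : ∀ a ∈ GA, ∀ g ∈ E, ∀ g' ∈ E, g.1 = a → g'.1 = a → g = g' := by
        intro a ha g hg g' hg' h1 h2
        have h3 := (mem_filter.1 ha).2
        exact card_le_one.1 (le_of_eq h3) g (mem_filter.2 ⟨hg, h1⟩) g' (mem_filter.2 ⟨hg', h2⟩)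
      have uB : ∀ a ∈ GB, ∀ g ∈ E, ∀ g' ∈ E, g.2 = a → g'.2 = a → g = g' := by
        intro a ha g hg g' hg' h1 h2
        have h3 := (mem_filter.1 ha).2
        exact card_le_one.1 (le_of_eq h3) g (mem_filter.2 ⟨hg, h1⟩) g' (mem_filter.2 ⟨hg', h2⟩)
      have hne1 : e.1 ≠ f.1 := by
        intro h
        have := uA _ hfA e heE f hfE h rfl
        rw [this] at hlt; exact lt_irrefl _ hlt
      have hne2 : e.2 ≠ f.2 := by
        intro h
        have := uB _ hfB e heE f hfE h rfl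
        rw [this] at hlt; exact lt_irrefl _ hlt
      have hfA' := (mem_filter.1 (mem_filter.1 hfA).1).2
      have heB' := (mem_filter.1 (mem_filter.1 heB).1).2
      refine ⟨hlt, ?_, ?_, ?_, ?_⟩
      · -- `f.1` is below the line of `e`
        apply below_of_rk hG (hAQ _ hea) (hBQ _ heb) (hAQ _ hfa) hex her (Ne.symm hne1) (hneAB _ hfa _ heb)
        by_contra hcon
        push Not at hcon
        obtain ⟨g, hg, hg1, hgs⟩ := A2 f.1 hfa hfA' (sl X Y e.1 e.2) hes1 hes2 hcon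
        have := uA _ hfA g hg f hfE hg1 rfl
        rw [this] at hgs
        exact absurd hgs (not_lt.2 hlt.le)
      · -- `f.2` is above the line of `e`
        apply above_of_rk hG (hAQ _ hea) (hBQ _ heb) (hBQ _ hfb) hex her (Ne.symm (hneAB _ hea _ hfb)) (Ne.symm hne2)
        by_contra hcon
        push Not at hcon
        obtain ⟨g, hg, hg1, hgs⟩ := B1 f.2 hfb (sl X Y e.1 e.2) hes1 hes2 (by omega)
        have := uB _ hfB g hg f hfE hg1 rfl
        rw [this] at hgs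
        exact absurd hgs (not_le.2 hlt)
      · -- `e.2` is below the line of `f`
        apply below_of_rk hG (hAQ _ hfa) (hBQ _ hfb) (hBQ _ heb) hfx hfr (Ne.symm (hneAB _ hfa _ heb)) hne2
        by_contra hcon
        push Not at hcon
        obtain ⟨g, hg, hg1, hgs⟩ := B2 e.2 heb heB' (sl X Y f.1 f.2) hfs1 hfs2 hcon
        have := uB _ heB g hg e heE hg1 rfl
        rw [this] at hgs
        exact absurd hgs (not_lt.2 hlt.le)
      · -- `e.1` is above the line of `f`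
        apply above_of_rk hG (hAQ _ hfa) (hBQ _ hfb) (hAQ _ hea) hfx hfr hne1 (hneAB _ hea _ hfb)
        by_contra hcon
        push Not at hcon
        obtain ⟨g, hg, hg1, hgs⟩ := A1 e.1 hea (sl X Y f.1 f.2) hfs1 hfs2 (by omega)
        have := uA _ heA g hg e heE hg1 rfl
        rw [this] at hgs
        exact absurd hgs (not_le.2 hlt)
    intro e he f hf hne
    rcases lt_trichotomy (sl X Y e.1 e.2) (sl X Y f.1 f.2) with h | h | h
    · exact Or.inl (key e he f hf h)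
    · -- equal slopes: same rank, hence the same line
      exfalso
      have he' := (mem_filter.1 he).1
      have hf' := (mem_filter.1 hf).1
      rw [hEAB, mem_filter] at he' hf'
      obtain ⟨heE, hea, heb⟩ := he'
      obtain ⟨hfE, hfa, hfb⟩ := hf'
      obtain ⟨_, _, hex, her, hes1, hes2⟩ := (hmE e).1 heE
      obtain ⟨_, _, hfx, hfr, hfs1, hfs2⟩ := (hmE f).1 hfE
      rw [← h] at hfr
      have heq : hh X Y (sl X Y e.1 e.2) f.1 = hh X Y (sl X Y e.1 e.2) e.1 := by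
        rcases lt_trichotomy (hh X Y (sl X Y e.1 e.2) f.1) (hh X Y (sl X Y e.1 e.2) e.1) with h1 | h1 | h1
        · have := rk_lt_of_lt (Q := A ∪ B) (hAQ _ hfa) h1; omega
        · exact h1
        · have := rk_lt_of_lt (Q := A ∪ B) (hAQ _ hea) h1; omega
      have h1 : f.1 = e.1 := by
        by_contra hcon
        exact hG.gen e.1 (hAQ _ hea) e.2 (hBQ _ heb) f.1 (hAQ _ hfa) (hneAB _ hea _ heb) hcon
          (hneAB _ hfa _ heb) heq
      have h2 : f.2 = e.2 := by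
        by_contra hcon
        have h3 : hh X Y (sl X Y e.1 e.2) f.2 = hh X Y (sl X Y e.1 e.2) f.1 := by
          rw [h]; exact hh_sl hfx.ne
        exact hG.gen e.1 (hAQ _ hea) e.2 (hBQ _ heb) f.2 (hBQ _ hfb) (hneAB _ hea _ heb)
          (Ne.symm (hneAB _ hea _ hfb)) hcon (by rw [h3, heq])
      exact hne (Prod.ext h1.symm h2.symm)
    · exact Or.inr (key f hf e he h)

end Pool.Agent.H365PP
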