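import Mathlib

set_option autoImplicit false

namespace Pool.Agent.H365PP

open Finset

variable {ι : Type*} [DecidableEq ι]

/-- height at `x = 0` of the line of slope `s` through the point `i` -/
noncomputable def hh (X Y : ι → ℝ) (s : ℝ) (i : ι) : ℝ := Y i - s * X i

/-- slope of the line through `i` and `j` -/
noncomputable def sl (X Y : ι → ℝ) (i j : ι) : ℝ := (Y j - Y i) / (X j - X i)

/-- general position: distinct `x`-coordinates, no three collinear -/
structure GP (X Y : ι → ℝ) (Q : Finset ι) : Prop where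
  inj : ∀ i ∈ Q, ∀ j ∈ Q, X i = X j → i = j
  gen : ∀ i ∈ Q, ∀ j ∈ Q, ∀ l ∈ Q, i ≠ j → l ≠ i → l ≠ j →
    hh X Y (sl X Y i j) l ≠ hh X Y (sl X Y i j) i

/-- number of points of `Q` strictly below the line of slope `s` through `p` -/
noncomputable def rk (X Y : ι → ℝ) (Q : Finset ι) (s : ℝ) (p : ι) : ℕ :=
  (Q.filter (fun q => hh X Y s q < hh X Y s p)).card

/-- the line of slope `s` and intercept `t` meets the hull of `S` -/
def Hit (X Y : ι → ℝ) (s t : ℝ) (S : Finset ι) : Prop :=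
  (∃ p ∈ S, t ≤ hh X Y s p) ∧ (∃ p ∈ S, hh X Y s p ≤ t)

/-- the edge `u w` belongs to the double star class of the pair `(p,q)`, `p` left of `q`:
`p` is joined to all points above the line `p q`, `q` to all points below it -/
def Cov (X Y : ι → ℝ) (p q u w : ι) : Prop :=
  (u = p ∧ w = q) ∨ (u = q ∧ w = p) ∨
  (u = p ∧ hh X Y (sl X Y p q) p < hh X Y (sl X Y p q) w) ∨
  (w = p ∧ hh X Y (sl X Y p q) p < hh X Y (sl X Y p q) u) ∨
  (u = q ∧ hh X Y (sl X Y p q) w < hh X Y (sl X Y p q) q) ∨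
  (w = q ∧ hh X Y (sl X Y p q) u < hh X Y (sl X Y p q) q)

variable {X Y : ι → ℝ} {Q : Finset ι}

theorem Cov.symm {p q u w : ι} (h : Cov X Y p q u w) : Cov X Y p q w u := by
  unfold Cov at *; tauto

theorem hh_sub {i j : ι} (hX : X i ≠ X j) (s : ℝ) :
    hh X Y s j - hh X Y s i = (sl X Y i j - s) * (X j - X i) := by
  have : X j - X i ≠ 0 := sub_ne_zero.mpr (Ne.symm hX)
  unfold hh sl; field_simp; ring

theorem sl_comm (i j : ι) : sl X Y i j = sl X Y j i := by
  unfold sl; rw [← neg_div_neg_eq]; ring_nf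

theorem hh_sl {i j : ι} (hX : X i ≠ X j) :
    hh X Y (sl X Y i j) j = hh X Y (sl X Y i j) i := by
  have := hh_sub (Y := Y) hX (sl X Y i j)
  simp at this; linarith

theorem hh_lt_iff {i j : ι} (hX : X i < X j) (s : ℝ) :
    hh X Y s j < hh X Y s i ↔ sl X Y i j < s := by
  have h := hh_sub (Y := Y) hX.ne s
  have h2 : 0 < X j - X i := sub_pos.mpr hX
  constructor
  · intro h3
    by_contra h4
    push Not at h4
    nlinarith
  · intro h3
    nlinarith

theorem hh_lt_iff' {i j : ι} (hX : X i < X j) (s : ℝ) :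
    hh X Y s i < hh X Y s j ↔ s < sl X Y i j := by
  have h := hh_sub (Y := Y) hX.ne s
  have h2 : 0 < X j - X i := sub_pos.mpr hX
  constructor
  · intro h3
    by_contra h4
    push Not at h4
    nlinarith
  · intro h3
    nlinarith

theorem hh_le_iff {i j : ι} (hX : X i < X j) (s : ℝ) :
    hh X Y s j ≤ hh X Y s i ↔ sl X Y i j ≤ s := by
  rw [← not_lt, hh_lt_iff' hX, not_lt]

theorem hh_le_iff' {i j : ι} (hX : X i < X j) (s : ℝ) :
    hh X Y s i ≤ hh X Y s j ↔ s ≤ sl X Y i j := by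
  rw [← not_lt, hh_lt_iff hX, not_lt]

/-- intercepts of points on the left increase with the slope -/
theorem hh_mono_left {i : ι} (hX : X i < 0) {s s' : ℝ} (h : s ≤ s') :
    hh X Y s i ≤ hh X Y s' i := by
  unfold hh; nlinarith

theorem hh_smono_left {i : ι} (hX : X i < 0) {s s' : ℝ} (h : s < s') :
    hh X Y s i < hh X Y s' i := by
  unfold hh; nlinarith

theorem hh_anti_right {i : ι} (hX : 0 < X i) {s s' : ℝ} (h : s ≤ s') :
    hh X Y s' i ≤ hh X Y s i := by
  unfold hh; nlinarith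

theorem hh_santi_right {i : ι} (hX : 0 < X i) {s s' : ℝ} (h : s < s') :
    hh X Y s' i < hh X Y s i := by
  unfold hh; nlinarith

theorem rk_sl {i j : ι} (hX : X i ≠ X j) :
    rk X Y Q (sl X Y i j) j = rk X Y Q (sl X Y i j) i := by
  unfold rk; rw [hh_sl hX]

end Pool.Agent.H365PP
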