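import Pool.Agent.H365PP.Cross

set_option autoImplicit false
set_option linter.unusedSectionVars false

namespace Pool.Agent.H365PP

open Finset

variable {ι : Type*} [DecidableEq ι] {X Y : ι → ℝ} {Q : Finset ι}




/-- `Opp` implies that the open segments cross (coordinates `X = x + τ y`, `Y = y`) -/
theorem opp_cross (τ : ℝ) (e f : (ℝ × ℝ) × (ℝ × ℝ))
    (hXe : e.1.1 + τ * e.1.2 < e.2.1 + τ * e.2.2) (hXf : f.1.1 + τ * f.1.2 < f.2.1 + τ * f.2.2)
    (h : Opp (fun v : ℝ × ℝ => v.1 + τ * v.2) (fun v : ℝ × ℝ => v.2) e f) :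
    (openSegment ℝ e.1 e.2 ∩ openSegment ℝ f.1 f.2).Nonempty := by
  obtain ⟨h0, h1, h2, h3, h4⟩ := h
  obtain ⟨⟨a1, a2⟩, ⟨b1, b2⟩⟩ := e
  obtain ⟨⟨c1, c2⟩, ⟨d1, d2⟩⟩ := f
  have hte := hh_sl (X := fun v : ℝ × ℝ => v.1 + τ * v.2) (Y := fun v : ℝ × ℝ => v.2)
    (i := (a1, a2)) (j := (b1, b2)) (by simpa using hXe.ne)
  have htf := hh_sl (X := fun v : ℝ × ℝ => v.1 + τ * v.2) (Y := fun v : ℝ × ℝ => v.2)
    (i := (c1, c2)) (j := (d1, d2)) (by simpa using hXf.ne)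
  simp only at h0 h1 h2 h3 h4 hte htf hXe hXf
  set se := sl (fun v : ℝ × ℝ => v.1 + τ * v.2) (fun v : ℝ × ℝ => v.2) (a1, a2) (b1, b2) with hse
  set sf := sl (fun v : ℝ × ℝ => v.1 + τ * v.2) (fun v : ℝ × ℝ => v.2) (c1, c2) (d1, d2) with hsf
  clear_value se sf
  simp only [hh] at h1 h2 h3 h4 hte htf
  -- parameters
  have hl0 : 0 < (d2 - se * (d1 + τ * d2)) - (c2 - se * (c1 + τ * c2)) := by linarith
  have hm0 : 0 < (a2 - sf * (a1 + τ * a2)) - (b2 - sf * (b1 + τ * b2)) := by linarith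
  obtain ⟨l, hl⟩ : ∃ l : ℝ, l * ((d2 - se * (d1 + τ * d2)) - (c2 - se * (c1 + τ * c2))) =
      (a2 - se * (a1 + τ * a2)) - (c2 - se * (c1 + τ * c2)) :=
    ⟨_, div_mul_cancel₀ _ hl0.ne'⟩
  obtain ⟨m, hm⟩ : ∃ m : ℝ, m * ((a2 - sf * (a1 + τ * a2)) - (b2 - sf * (b1 + τ * b2))) =
      (a2 - sf * (a1 + τ * a2)) - (c2 - sf * (c1 + τ * c2)) :=
    ⟨_, div_mul_cancel₀ _ hm0.ne'⟩
  have hlpos : 0 < l := by
    by_contra hcon
    push Not at hcon
    nlinarith
  have hl1 : l < 1 := by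
    by_contra hcon
    push Not at hcon
    nlinarith
  have hmpos : 0 < m := by
    by_contra hcon
    push Not at hcon
    nlinarith
  have hm1 : m < 1 := by
    by_contra hcon
    push Not at hcon
    nlinarith
  have hs : sf - se ≠ 0 := (sub_pos.mpr h0).ne'
  -- the two points
  have hX : (1 - m) * (a1 + τ * a2) + m * (b1 + τ * b2) =
      (1 - l) * (c1 + τ * c2) + l * (d1 + τ * d2) := by
    apply mul_left_cancel₀ hs
    linear_combination m * hte - hl + hm + l * htf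
  have hY : (1 - m) * a2 + m * b2 = (1 - l) * c2 + l * d2 := by
    linear_combination m * hte - hl + se * hX
  refine ⟨((1 - m) * a1 + m * b1, (1 - m) * a2 + m * b2), ?_, ?_⟩
  · exact ⟨1 - m, m, by linarith, hmpos, by ring, by ext <;> simp⟩
  · refine ⟨1 - l, l, by linarith, hlpos, by ring, ?_⟩
    ext
    · simp only [Prod.fst_add, Prod.smul_fst, smul_eq_mul]
      linear_combination -hX + τ * hY
    · simp only [Prod.snd_add, Prod.smul_snd, smul_eq_mul]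
      linear_combination -hY

end Pool.Agent.H365PP
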