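import Pool.Agent.H365PP.HP

set_option autoImplicit false
set_option linter.unusedSectionVars false

namespace Pool.Agent.H365PP

open Finset

variable {ι : Type*} [DecidableEq ι] {X Y : ι → ℝ} {Q : Finset ι}


/-- generic shear for a finite set of points -/
theorem shear_finset (V : Finset (ℝ × ℝ))
    (hcol : ∀ a ∈ V, ∀ b ∈ V, ∀ c ∈ V, a ≠ b → b ≠ c → a ≠ c → ¬ Collinear ℝ ({a, b, c} : Set (ℝ × ℝ))) :
    ∃ τ : ℝ, GP (fun v : ℝ × ℝ => v.1 + τ * v.2) (fun v : ℝ × ℝ => v.2) V := by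
  classical
  obtain ⟨τ, hτ⟩ := Infinite.exists_notMem_finset
    ((V ×ˢ V).image (fun p : (ℝ × ℝ) × (ℝ × ℝ) => -(p.1.1 - p.2.1) / (p.1.2 - p.2.2)))
  have hinj : ∀ a ∈ V, ∀ b ∈ V, a.1 + τ * a.2 = b.1 + τ * b.2 → a = b := by
    intro a ha b hb h
    by_cases h2 : a.2 = b.2
    · rw [h2] at h
      exact Prod.ext (by linarith) h2
    · exfalso
      apply hτ
      rw [Finset.mem_image]
      refine ⟨(a, b), Finset.mem_product.2 ⟨ha, hb⟩, ?_⟩
      have h3 : a.2 - b.2 ≠ 0 := sub_ne_zero.2 h2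
      show -(a.1 - b.1) / (a.2 - b.2) = τ
      rw [div_eq_iff h3]
      linarith
  refine ⟨τ, ⟨hinj, ?_⟩⟩
  intro i hi j hj l hl hij hli hlj h
  apply hcol i hi j hj l hl hij hlj.symm hli.symm
  have hX : (j.1 + τ * j.2) - (i.1 + τ * i.2) ≠ 0 := fun h0 =>
    hij (hinj i hi j hj (by linarith))
  simp only [hh, sl] at h
  rw [collinear_iff_of_mem (p₀ := i) (by simp)]
  refine ⟨j - i, ?_⟩
  set D := (j.1 + τ * j.2) - (i.1 + τ * i.2) with hD
  set r := ((l.1 + τ * l.2) - (i.1 + τ * i.2)) / D with hr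
  have e1 : (l.1 + τ * l.2) - (i.1 + τ * i.2) = r * D := by rw [hr]; field_simp
  have e2 : l.2 - i.2 = r * (j.2 - i.2) := by
    have h1 : l.2 - i.2 = (j.2 - i.2) / D * ((l.1 + τ * l.2) - (i.1 + τ * i.2)) := by linarith
    rw [h1, e1]
    field_simp
  have e3 : l.1 - i.1 = r * (j.1 - i.1) := by
    rw [hD] at e1
    linear_combination e1 - τ * e2
  intro p hp
  simp only [Set.mem_insert_iff, Set.mem_singleton_iff] at hp
  rcases hp with rfl | rfl | rfl
  · exact ⟨0, by simp⟩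
  · exact ⟨1, by simp⟩
  · refine ⟨r, ?_⟩
    ext
    · simp only [vadd_eq_add, Prod.fst_add, Prod.smul_fst, Prod.fst_sub, smul_eq_mul]
      linarith
    · simp only [vadd_eq_add, Prod.snd_add, Prod.smul_snd, Prod.snd_sub, smul_eq_mul]
      linarith

end Pool.Agent.H365PP
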