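import Pool.Agent.H365PP.Lin
import Pool.Agent.H365PP.K4
import Pool.Agent.H365PP.K5

set_option autoImplicit false
set_option linter.unusedSectionVars false

namespace Pool.Agent.H365PP

open Finset

/-- bipartite linear crossing families -/
theorem bip_linear {r M : ℕ} (hM : 1 ≤ M) (hr : 2 * (CC * M) ≤ r) (V₁ V₂ : Finset (ℝ × ℝ))
    (h1 : V₁.card = r) (h2 : V₂.card = r) (hd : Disjoint V₁ V₂)
    (hcol : ∀ a ∈ V₁ ∪ V₂, ∀ b ∈ V₁ ∪ V₂, ∀ c ∈ V₁ ∪ V₂, a ≠ b → b ≠ c → a ≠ c →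
      ¬ Collinear ℝ ({a, b, c} : Set (ℝ × ℝ))) :
    ∃ (k : ℕ) (a b : Fin k → ℝ × ℝ), M ≤ k ∧ (∀ i, a i ∈ V₁) ∧ (∀ i, b i ∈ V₂) ∧
      ∀ i j, i ≠ j → a i ≠ a j ∧ b i ≠ b j ∧
        (openSegment ℝ (a i) (b i) ∩ openSegment ℝ (a j) (b j)).Nonempty := by
  classical
  obtain ⟨τ, hG⟩ := shear_finset (V₁ ∪ V₂) hcol
  set X : ℝ × ℝ → ℝ := fun v => v.1 + τ * v.2 with hX
  set Y : ℝ × ℝ → ℝ := fun v => v.2 with hY
  -- the general conversion
  have conv : ∀ A0 B0 : Finset (ℝ × ℝ), A0 ⊆ V₁ ∪ V₂ → B0 ⊆ V₁ ∪ V₂ →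
      (∀ a ∈ A0, ∀ b ∈ B0, X a < X b) → CC * M ≤ A0.card → CC * M ≤ B0.card →
      ∃ (k : ℕ) (a b : Fin k → ℝ × ℝ), M ≤ k ∧ (∀ i, a i ∈ A0) ∧ (∀ i, b i ∈ B0) ∧
        ∀ i j, i ≠ j → a i ≠ a j ∧ b i ≠ b j ∧
          (openSegment ℝ (a i) (b i) ∩ openSegment ℝ (a j) (b j)).Nonempty := by
    intro A0 B0 hA hB hAB hcA hcB
    obtain ⟨G, hG1, hG2, hG3⟩ := linear_sep (hG.mono (union_subset hA hB)) hAB hM hcA hcB
    refine ⟨G.card, fun i => ((G.equivFin.symm i).1).1, fun i => ((G.equivFin.symm i).1).2, hG2,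
      fun i => (hG1 _ (G.equivFin.symm i).2).1, fun i => (hG1 _ (G.equivFin.symm i).2).2, ?_⟩
    intro i j hij
    have hne : (G.equivFin.symm i).1 ≠ (G.equivFin.symm j).1 := by
      intro h
      exact hij (G.equivFin.symm.injective (Subtype.ext h))
    have hxi := hAB _ (hG1 _ (G.equivFin.symm i).2).1 _ (hG1 _ (G.equivFin.symm i).2).2
    have hxj := hAB _ (hG1 _ (G.equivFin.symm j).2).1 _ (hG1 _ (G.equivFin.symm j).2).2
    have key : ∀ e f : (ℝ × ℝ) × (ℝ × ℝ), X e.1 < X e.2 → X f.1 < X f.2 → Opp X Y e f →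
        e.1 ≠ f.1 ∧ e.2 ≠ f.2 ∧ (openSegment ℝ e.1 e.2 ∩ openSegment ℝ f.1 f.2).Nonempty := by
      intro e f he hf ho
      refine ⟨?_, ?_, opp_cross τ e f he hf ho⟩
      · intro h
        have := ho.2.1
        rw [h] at this
        exact lt_irrefl _ this
      · intro h
        have h3 := ho.2.2.1
        rw [← h, hh_sl he.ne] at h3
        exact lt_irrefl _ h3
    rcases hG3 _ (G.equivFin.symm i).2 _ (G.equivFin.symm j).2 hne with h | h
    · exact key _ _ hxi hxj h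
    · obtain ⟨g1, g2, g3⟩ := key _ _ hxj hxi h
      exact ⟨g1.symm, g2.symm, by rwa [Set.inter_comm]⟩
  obtain ⟨S, hS, hSc, hSX⟩ := stripsN 2 (X := X) V₁
    (fun i hi j hj h => hG.inj i (mem_union_left _ hi) j (mem_union_left _ hj) h) (w := CC * M)
    (by rw [h1]; exact hr)
  have hpos : 0 < CC * M := Nat.mul_pos CC_pos hM
  obtain ⟨x0, hx1, hx2⟩ := exists_sep (X := X) (A := S 0) (B := S 1)
    (card_pos.1 (by rw [hSc]; exact hpos)) (card_pos.1 (by rw [hSc]; exact hpos))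
    (hSX 0 1 (by decide))
  have hsum : (V₂.filter (fun v => X v < x0)).card + (V₂.filter (fun v => ¬ X v < x0)).card = r := by
    rw [← h2]; exact card_filter_add_card_filter_not _
  rcases Nat.lt_or_ge (V₂.filter (fun v => X v < x0)).card (CC * M) with hlt | hge
  · -- many points of `V₂` on the right
    obtain ⟨k, a, b, hk, ha, hb, hab⟩ := conv (S 0) (V₂.filter (fun v => ¬ X v < x0))
      ((hS 0).trans subset_union_left) ((filter_subset _ _).trans subset_union_right)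
      (fun a ha b hb => lt_of_lt_of_le (hx1 a ha) (not_lt.1 (mem_filter.1 hb).2))
      (by rw [hSc]) (by omega)
    exact ⟨k, a, b, hk, fun i => hS 0 (ha i), fun i => (mem_filter.1 (hb i)).1, hab⟩
  · obtain ⟨k, a, b, hk, ha, hb, hab⟩ := conv (V₂.filter (fun v => X v < x0)) (S 1)
      ((filter_subset _ _).trans subset_union_right) ((hS 1).trans subset_union_left)
      (fun a ha b hb => lt_trans (mem_filter.1 ha).2 (hx2 b hb))
      hge (by rw [hSc])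
    refine ⟨k, b, a, hk, fun i => hS 1 (hb i), fun i => (mem_filter.1 (ha i)).1, ?_⟩
    intro i j hij
    obtain ⟨g1, g2, g3⟩ := hab i j hij
    refine ⟨g2, g1, ?_⟩
    rwa [openSegment_symm ℝ (b i) (a i), openSegment_symm ℝ (b j) (a j)]

/-- Q2: linear crossing families in complete bipartite geometric graphs -/
theorem q2 : ∃ c : ℝ, 0 < c ∧ ∀ r : ℕ, 1 ≤ r → ∀ V₁ V₂ : Finset (ℝ × ℝ),
    V₁.card = r → V₂.card = r → Disjoint V₁ V₂ →
    (∀ a ∈ V₁ ∪ V₂, ∀ b ∈ V₁ ∪ V₂, ∀ c ∈ V₁ ∪ V₂, a ≠ b → b ≠ c → a ≠ c →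
      ¬ Collinear ℝ ({a, b, c} : Set (ℝ × ℝ))) →
    ∃ (k : ℕ) (a b : Fin k → ℝ × ℝ), c * r ≤ k ∧ (∀ i, a i ∈ V₁) ∧ (∀ i, b i ∈ V₂) ∧
      ∀ i j, i ≠ j → a i ≠ a j ∧ b i ≠ b j ∧
        (openSegment ℝ (a i) (b i) ∩ openSegment ℝ (a j) (b j)).Nonempty := by
  have hD : (0 : ℝ) < 2 * (2 * CC) := by
    have : 0 < CC := CC_pos
    positivity
  refine ⟨1 / (2 * (2 * CC)), by positivity, ?_⟩
  intro r hr V₁ V₂ h1 h2 hd hcol
  rcases Nat.lt_or_ge r (2 * CC) with hlt | hge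
  · -- a single edge
    obtain ⟨v, hv⟩ : V₁.Nonempty := card_pos.1 (by omega)
    obtain ⟨w, hw⟩ : V₂.Nonempty := card_pos.1 (by omega)
    refine ⟨1, fun _ => v, fun _ => w, ?_, fun _ => hv, fun _ => hw, ?_⟩
    · rw [one_div, inv_mul_le_iff₀ hD]
      have : (r : ℝ) < 2 * CC := by exact_mod_cast hlt
      push_cast
      nlinarith
    · intro i j hij
      exact absurd (Subsingleton.elim i j) hij
  · obtain ⟨k, a, b, hk, h⟩ := bip_linear (r := r) (M := r / (2 * CC))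
      (Nat.div_pos hge (by have := CC_pos; omega)) (by
        have := Nat.div_mul_le_self r (2 * CC)
        calc 2 * (CC * (r / (2 * CC))) = r / (2 * CC) * (2 * CC) := by ring
          _ ≤ r := this) V₁ V₂ h1 h2 hd hcol
    refine ⟨k, a, b, ?_, h⟩
    rw [one_div, inv_mul_le_iff₀ hD]
    have h3 : r < 2 * CC * (r / (2 * CC) + 1) := by
      have := Nat.lt_mul_div_succ r (show 0 < 2 * CC by have := CC_pos; omega)
      simpa using this
    have h4 : 1 ≤ r / (2 * CC) := Nat.div_pos hge (by have := CC_pos; omega)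
    have h5 : r ≤ 2 * (2 * CC) * k := by
      calc r ≤ 2 * CC * (r / (2 * CC) + 1) := h3.le
        _ ≤ 2 * CC * (2 * k) := by gcongr; omega
        _ = 2 * (2 * CC) * k := by ring
    exact_mod_cast h5

/-- Q1: linear crossing families in complete geometric graphs -/
theorem q1 : ∃ c : ℝ, 0 < c ∧ ∀ r : ℕ, 2 ≤ r → ∀ P : Finset (ℝ × ℝ), P.card = r →
    (∀ a ∈ P, ∀ b ∈ P, ∀ c ∈ P, a ≠ b → b ≠ c → a ≠ c → ¬ Collinear ℝ ({a, b, c} : Set (ℝ × ℝ))) →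
    ∃ (k : ℕ) (a b : Fin k → ℝ × ℝ), c * r ≤ k ∧ (∀ i, a i ∈ P) ∧ (∀ i, b i ∈ P) ∧
      (∀ i j, a i ≠ b j) ∧
      ∀ i j, i ≠ j → a i ≠ a j ∧ b i ≠ b j ∧
        (openSegment ℝ (a i) (b i) ∩ openSegment ℝ (a j) (b j)).Nonempty := by
  obtain ⟨c, hc, h⟩ := q2
  refine ⟨c / 3, by positivity, ?_⟩
  intro r hr P hP hcol
  obtain ⟨V₁, hV1, hc1⟩ := exists_subset_card_eq (show r / 2 ≤ P.card by omega)
  obtain ⟨V₂, hV2, hc2⟩ := exists_subset_card_eq (show r / 2 ≤ (P \ V₁).card by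
    have := card_sdiff_add_card_eq_card hV1
    omega)
  have hd : Disjoint V₁ V₂ := by
    rw [Finset.disjoint_left]
    intro x hx hx'
    exact (mem_sdiff.1 (hV2 hx')).2 hx
  have hsub : V₁ ∪ V₂ ⊆ P := union_subset hV1 (hV2.trans sdiff_subset)
  obtain ⟨k, a, b, hk, ha, hb, hab⟩ := h (r / 2) (by omega) V₁ V₂ hc1 hc2 hd
    (fun a ha b hb c hc => hcol a (hsub ha) b (hsub hb) c (hsub hc))
  refine ⟨k, a, b, ?_, fun i => hV1 (ha i), fun i => sdiff_subset (hV2 (hb i)), ?_, hab⟩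
  · refine le_trans ?_ hk
    have h3 : (r : ℝ) ≤ 3 * ((r / 2 : ℕ) : ℝ) := by
      have : r ≤ 3 * (r / 2) := by omega
      exact_mod_cast this
    nlinarith
  · intro i j h
    exact Finset.disjoint_left.1 hd (ha i) (h ▸ hb j)

end Pool.Agent.H365PP
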