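import Pool.Agent.H365PP.Defs

set_option autoImplicit false
set_option linter.unusedSectionVars false

namespace Pool.Agent.H365PP

open Finset

variable {ι : Type*} [DecidableEq ι] {X Y : ι → ℝ} {Q : Finset ι}

open Classical in
/-- increasing pairs in `S` whose line meets the hull of `T` -/
noncomputable def hp (X Y : ι → ℝ) (S T : Finset ι) : Finset (ι × ι) :=
  (S ×ˢ S).filter (fun e => X e.1 < X e.2 ∧ Hit X Y (sl X Y e.1 e.2) (hh X Y (sl X Y e.1 e.2) e.1) T)

theorem mem_hp {S T : Finset ι} {e : ι × ι} : e ∈ hp X Y S T ↔ e.1 ∈ S ∧ e.2 ∈ S ∧ X e.1 < X e.2 ∧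
    Hit X Y (sl X Y e.1 e.2) (hh X Y (sl X Y e.1 e.2) e.1) T := by
  unfold hp; simp only [mem_filter, mem_product]; tauto

end Pool.Agent.H365PP
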