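import Pool.Agent.H365PP.HP

set_option autoImplicit false
set_option linter.unusedSectionVars false

namespace Pool.Agent.H365PP

open Finset

variable {ι : Type*} [DecidableEq ι] {X Y : ι → ℝ} {Q : Finset ι}


theorem Hit_mono' {s t : ℝ} {A B : Finset ι} (h : A ⊆ B) (hA : Hit X Y s t A) :
    Hit X Y s t B := by
  obtain ⟨⟨p, hp, h1⟩, ⟨q, hq, h2⟩⟩ := hA
  exact ⟨⟨p, h hp, h1⟩, ⟨q, h hq, h2⟩⟩

/-- refinement for a list of triples: the size drops by a factor 2 for every triple -/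
theorem refine_list {N : ℕ} (L : List (Fin N × Fin N × Fin N)) : ∀ (S : Fin N → Finset ι) (m : ℕ),
    (∀ i, 2 ^ L.length * (m + 1) ≤ (S i).card + 1) →
    (∀ (i j l : Fin N), i < j → j < l → ∀ (A B C : Finset ι), A ⊆ S i → B ⊆ S j → C ⊆ S l → ∀ m' : ℕ,
      2 * m' + 1 ≤ A.card → 2 * m' + 1 ≤ B.card → 2 * m' + 1 ≤ C.card →
      ∃ A' ⊆ A, ∃ B' ⊆ B, ∃ C' ⊆ C, m' ≤ A'.card ∧ m' ≤ B'.card ∧ m' ≤ C'.card ∧
        ∀ s t : ℝ, ¬ (Hit X Y s t A' ∧ Hit X Y s t B' ∧ Hit X Y s t C')) →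
    ∃ S' : Fin N → Finset ι, (∀ i, S' i ⊆ S i) ∧ (∀ i, m ≤ (S' i).card) ∧
      (∀ τ ∈ L, τ.1 < τ.2.1 → τ.2.1 < τ.2.2 → ∀ s t : ℝ,
        ¬ (Hit X Y s t (S' τ.1) ∧ Hit X Y s t (S' τ.2.1) ∧ Hit X Y s t (S' τ.2.2))) := by
  induction L with
  | nil =>
    intro S m hS _
    refine ⟨S, fun i => Finset.Subset.refl _, ?_, ?_⟩
    · intro i
      have := hS i
      simp at this
      exact this
    · intro τ hτ
      simp at hτ
  | cons τ L ih =>
    intro S m hS hR
    obtain ⟨S1, hsub, hcard, hL⟩ := ih S (2 * m + 1) (by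
      intro i
      have h := hS i
      rw [List.length_cons, pow_succ] at h
      calc 2 ^ L.length * (2 * m + 1 + 1) = 2 ^ L.length * 2 * (m + 1) := by ring
        _ ≤ _ := h) hR
    by_cases hτ : τ.1 < τ.2.1 ∧ τ.2.1 < τ.2.2
    · obtain ⟨h1, h2⟩ := hτ
      obtain ⟨A', hA, B', hB, C', hC, cA, cB, cC, hno⟩ := hR τ.1 τ.2.1 τ.2.2 h1 h2 (S1 τ.1)
        (S1 τ.2.1) (S1 τ.2.2) (hsub _) (hsub _) (hsub _) m (hcard _) (hcard _) (hcard _)
      have n1 : τ.2.1 ≠ τ.1 := h1.ne'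
      have n2 : τ.2.2 ≠ τ.2.1 := h2.ne'
      have n3 : τ.2.2 ≠ τ.1 := (h1.trans h2).ne'
      set S' : Fin N → Finset ι := fun x =>
        if x = τ.1 then A' else if x = τ.2.1 then B' else if x = τ.2.2 then C' else S1 x with hS'
      have e1 : S' τ.1 = A' := by simp [hS']
      have e2 : S' τ.2.1 = B' := by simp [hS', n1]
      have e3 : S' τ.2.2 = C' := by simp [hS', n2, n3]
      have hsub' : ∀ x, S' x ⊆ S1 x := by
        intro x
        by_cases hx1 : x = τ.1
        · rw [hx1, e1]; exact hA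
        by_cases hx2 : x = τ.2.1
        · rw [hx2, e2]; exact hB
        by_cases hx3 : x = τ.2.2
        · rw [hx3, e3]; exact hC
        have : S' x = S1 x := by simp [hS', hx1, hx2, hx3]
        rw [this]
      refine ⟨S', fun i => (hsub' i).trans (hsub i), ?_, ?_⟩
      · intro x
        by_cases hx1 : x = τ.1
        · rw [hx1, e1]; exact cA
        by_cases hx2 : x = τ.2.1
        · rw [hx2, e2]; exact cB
        by_cases hx3 : x = τ.2.2
        · rw [hx3, e3]; exact cC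
        have : S' x = S1 x := by simp [hS', hx1, hx2, hx3]
        rw [this]
        have := hcard x
        omega
      · intro τ' hτ' h3 h4 s t
        rcases List.mem_cons.1 hτ' with rfl | hm
        · rw [e1, e2, e3]
          exact hno s t
        · rintro ⟨a1, a2, a3⟩
          exact hL τ' hm h3 h4 s t ⟨Hit_mono' (hsub' _) a1, Hit_mono' (hsub' _) a2,
            Hit_mono' (hsub' _) a3⟩
    · refine ⟨S1, hsub, ?_, ?_⟩
      · intro i
        have := hcard i
        omega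
      · intro τ' hτ' h3 h4 s t
        rcases List.mem_cons.1 hτ' with rfl | hm
        · exact absurd ⟨h3, h4⟩ hτ
        · exact hL τ' hm h3 h4 s t

end Pool.Agent.H365PP
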