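import Pool.Agent.H365PP.L7

set_option autoImplicit false
set_option linter.unusedSectionVars false

namespace Pool.Agent.H365PP

open Finset

variable {ι : Type*} [DecidableEq ι] {X Y : ι → ℝ} {Q : Finset ι}







/-- two families of `N` sets of size `m` such that no line meets the hulls of three sets not all in one family: some
pair of sets from the two families has few monochromatic pairs whose line meets the hull of the other one. -/
theorem bip_sets {N : ℕ} (hN : 0 < N) {A B : Fin N → Finset ι} {m : ℕ} (hA : ∀ i, (A i).card = m) (hB : ∀ i, (B i).card = m)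
    (h1 : ∀ i i' j : Fin N, i ≠ i' → ∀ s t : ℝ, ¬ (Hit X Y s t (A i) ∧ Hit X Y s t (A i') ∧ Hit X Y s t (B j)))
    (h2 : ∀ i j j' : Fin N, j ≠ j' → ∀ s t : ℝ, ¬ (Hit X Y s t (A i) ∧ Hit X Y s t (B j) ∧ Hit X Y s t (B j'))) :
    ∃ i j : Fin N, N * ((hp X Y (A i) (B j)).card + (hp X Y (B j) (A i)).card) ≤ m * m := by
  have hAi : ∀ i : Fin N, 2 * ∑ j : Fin N, (hp X Y (A i) (B j)).card ≤ m * m := by
    intro i
    have hd : ∀ j ∈ (Finset.univ : Finset (Fin N)), ∀ j' ∈ (Finset.univ : Finset (Fin N)), j ≠ j' →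
        Disjoint (hp X Y (A i) (B j)) (hp X Y (A i) (B j')) := by
      intro j _ j' _ hjj
      rw [Finset.disjoint_left]
      intro e he he'
      rw [mem_hp] at he he'
      refine h2 i j j' hjj _ _ ⟨⟨⟨e.1, he.1, le_rfl⟩, ⟨e.1, he.1, le_rfl⟩⟩, he.2.2.2, he'.2.2.2⟩
    rw [← Finset.card_biUnion hd]
    refine le_trans (Nat.mul_le_mul_left 2 (Finset.card_le_card ?_)) (fs_inc (X := X) (A i) m (hA i))
    intro e he
    rw [Finset.mem_biUnion] at he
    obtain ⟨j, _, hj⟩ := he
    rw [mem_hp] at hj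
    simp only [Finset.mem_filter, Finset.mem_product]
    exact ⟨⟨hj.1, hj.2.1⟩, hj.2.2.1⟩
  have hBj : ∀ j : Fin N, 2 * ∑ i : Fin N, (hp X Y (B j) (A i)).card ≤ m * m := by
    intro j
    have hd : ∀ i ∈ (Finset.univ : Finset (Fin N)), ∀ i' ∈ (Finset.univ : Finset (Fin N)), i ≠ i' →
        Disjoint (hp X Y (B j) (A i)) (hp X Y (B j) (A i')) := by
      intro i _ i' _ hii
      rw [Finset.disjoint_left]
      intro e he he'
      rw [mem_hp] at he he'
      refine h1 i i' j hii _ _ ⟨he.2.2.2, he'.2.2.2, ⟨⟨e.1, he.1, le_rfl⟩, ⟨e.1, he.1, le_rfl⟩⟩⟩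
    rw [← Finset.card_biUnion hd]
    refine le_trans (Nat.mul_le_mul_left 2 (Finset.card_le_card ?_)) (fs_inc (X := X) (B j) m (hB j))
    intro e he
    rw [Finset.mem_biUnion] at he
    obtain ⟨i, _, hi⟩ := he
    rw [mem_hp] at hi
    simp only [Finset.mem_filter, Finset.mem_product]
    exact ⟨⟨hi.1, hi.2.1⟩, hi.2.2.1⟩
  by_contra hcon
  push Not at hcon
  have hS : ∑ i : Fin N, ∑ j : Fin N, ((hp X Y (A i) (B j)).card + (hp X Y (B j) (A i)).card)
      ≤ N * (m * m) := by
    have e1 : ∑ i : Fin N, ∑ j : Fin N, ((hp X Y (A i) (B j)).card + (hp X Y (B j) (A i)).card)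
        = (∑ i : Fin N, ∑ j : Fin N, (hp X Y (A i) (B j)).card)
          + (∑ j : Fin N, ∑ i : Fin N, (hp X Y (B j) (A i)).card) := by
      simp only [Finset.sum_add_distrib]
      congr 1
      exact Finset.sum_comm
    have e2 : 2 * (∑ i : Fin N, ∑ j : Fin N, (hp X Y (A i) (B j)).card) ≤ N * (m * m) := by
      rw [Finset.mul_sum]
      calc _ ≤ ∑ i : Fin N, m * m := Finset.sum_le_sum (fun i _ => hAi i)
        _ = N * (m * m) := by simp
    have e3 : 2 * (∑ j : Fin N, ∑ i : Fin N, (hp X Y (B j) (A i)).card) ≤ N * (m * m) := by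
      rw [Finset.mul_sum]
      calc _ ≤ ∑ i : Fin N, m * m := Finset.sum_le_sum (fun i _ => hBj i)
        _ = N * (m * m) := by simp
    omega
  have hT : N * (N * (m * m + 1)) ≤
      N * ∑ i : Fin N, ∑ j : Fin N, ((hp X Y (A i) (B j)).card + (hp X Y (B j) (A i)).card) := by
    rw [Finset.mul_sum]
    calc N * (N * (m * m + 1)) = ∑ i : Fin N, ∑ j : Fin N, (m * m + 1) := by simp
      _ ≤ ∑ i : Fin N, N * ∑ j : Fin N, ((hp X Y (A i) (B j)).card + (hp X Y (B j) (A i)).card) := by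
        refine Finset.sum_le_sum (fun i _ => ?_)
        rw [Finset.mul_sum]
        exact Finset.sum_le_sum (fun j _ => hcon i j)
  have h5 : N * (N * (m * m + 1)) ≤ N * (N * (m * m)) := hT.trans (Nat.mul_le_mul_left N hS)
  have h6 := Nat.le_of_mul_le_mul_left h5 hN
  have h7 := Nat.le_of_mul_le_mul_left h6 hN
  omega

end Pool.Agent.H365PP
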