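import Pool.Agent.H365PP.HP

set_option autoImplicit false
set_option linter.unusedSectionVars false

namespace Pool.Agent.H365PP

open Finset

variable {ι : Type*} [DecidableEq ι] {X Y : ι → ℝ} {Q : Finset ι}


/-- averaging for crossing families -/
theorem good_k2 {κ : Type*} [DecidableEq κ] (S : Finset κ) (f : κ → ℕ) (M : ℕ) (hM : 1 ≤ M)
    (hS : 5 * S.card ≤ (20 * M) * (20 * M)) :
    ∃ k < 20 * M, M + 2 * (S.filter (fun e => f e = k)).card ≤ k + 1 := by
  by_contra hcon
  push Not at hcon
  have h1 : ∀ i ∈ Finset.range (19 * M), i + 2 ≤ 2 * (S.filter (fun e => f e = M + i)).card := by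
    intro i hi
    have := hcon (M + i) (by have := Finset.mem_range.1 hi; omega)
    omega
  have h2 := Finset.sum_le_sum h1
  rw [← Finset.mul_sum, Finset.sum_add_distrib, Finset.sum_const, Finset.card_range] at h2
  have h3 : ∑ i ∈ Finset.range (19 * M), (S.filter (fun e => f e = M + i)).card ≤ S.card := by
    have e1 : ∑ i ∈ Finset.range (19 * M), (S.filter (fun e => f e = M + i)).card =
        ∑ k ∈ (Finset.range (19 * M)).image (fun i => M + i), (S.filter (fun e => f e = k)).card := by
      rw [Finset.sum_image (fun a _ b _ h => by simpa using h)]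
    rw [e1, Finset.sum_card_fiberwise_eq_card_filter]
    exact Finset.card_filter_le _ _
  have h4 := Finset.sum_range_id_mul_two (19 * M)
  have h5 : 19 * M * (19 * M - 1) + 19 * M = 19 * M * (19 * M) := by
    obtain ⟨n, hn⟩ : ∃ n, 19 * M = n + 1 := ⟨19 * M - 1, by omega⟩
    rw [hn]
    simp
    ring
  have h6 : (∑ i ∈ Finset.range (19 * M), i) * 2 + 19 * M = 19 * M * (19 * M) := by
    rw [h4, h5]
  simp only [smul_eq_mul] at h2
  nlinarith

end Pool.Agent.H365PP
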