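import Pool.Agent.H365PP.Defs

set_option autoImplicit false
set_option linter.unusedSectionVars false

namespace Pool.Agent.H365PP

open Finset

variable {ι : Type*} [DecidableEq ι] {X Y : ι → ℝ} {Q : Finset ι}


/-- a generic shear makes all first coordinates distinct and turns non-collinearity into `GP` -/
theorem shear {n : ℕ} (p : Fin n → ℝ × ℝ) (hinj : Function.Injective p)
    (hcol : ∀ i j l : Fin n, i ≠ j → j ≠ l → i ≠ l → ¬ Collinear ℝ ({p i, p j, p l} : Set (ℝ × ℝ))) :
    ∃ τ : ℝ, GP (fun i => (p i).1 + τ * (p i).2) (fun i => (p i).2) (Finset.univ : Finset (Fin n)) := by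
  classical
  obtain ⟨τ, hτ⟩ := Infinite.exists_notMem_finset
    ((Finset.univ : Finset (Fin n × Fin n)).image
      (fun q => -((p q.1).1 - (p q.2).1) / ((p q.1).2 - (p q.2).2)))
  have hX : ∀ i j : Fin n, (p i).1 + τ * (p i).2 = (p j).1 + τ * (p j).2 → i = j := by
    intro i j h
    by_cases h2 : (p i).2 - (p j).2 = 0
    · have h3 : (p i).2 = (p j).2 := sub_eq_zero.1 h2
      have h4 : (p i).1 = (p j).1 := by
        rw [h3] at h
        linarith
      exact hinj (Prod.ext h4 h3)
    · exfalso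
      apply hτ
      rw [Finset.mem_image]
      refine ⟨(i, j), Finset.mem_univ _, ?_⟩
      simp only
      rw [div_eq_iff h2]
      linarith
  refine ⟨τ, fun i _ j _ h => hX i j h, ?_⟩
  intro i _ j _ l _ hij hli hlj heq
  have hne : (p j).1 + τ * (p j).2 - ((p i).1 + τ * (p i).2) ≠ 0 := by
    intro h
    exact hij (hX i j (by linarith))
  apply hcol i j l hij (Ne.symm hlj) (Ne.symm hli)
  rw [collinear_iff_of_mem (p₀ := p i) (by simp)]
  unfold hh sl at heq
  simp only at heq
  set D : ℝ := (p j).1 + τ * (p j).2 - ((p i).1 + τ * (p i).2) with hD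
  set r : ℝ := ((p l).1 + τ * (p l).2 - ((p i).1 + τ * (p i).2)) / D with hr
  have e2 : (p l).2 = r * ((p j).2 - (p i).2) + (p i).2 := by
    rw [hr]
    field_simp
    field_simp at heq
    linarith
  have e3 : (p l).1 + τ * (p l).2 - ((p i).1 + τ * (p i).2) = r * D := by
    rw [hr]
    field_simp
  have e1 : (p l).1 = r * ((p j).1 - (p i).1) + (p i).1 := by
    rw [hD] at e3
    have e4 : (p l).1 = r * ((p j).1 + τ * (p j).2 - ((p i).1 + τ * (p i).2)) +
        ((p i).1 + τ * (p i).2) - τ * (p l).2 := by linarith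
    rw [e4, e2]
    ring
  refine ⟨p j - p i, ?_⟩
  intro q hq
  simp only [Set.mem_insert_iff, Set.mem_singleton_iff] at hq
  rcases hq with rfl | rfl | rfl
  · exact ⟨0, by simp⟩
  · exact ⟨1, by simp⟩
  · refine ⟨r, ?_⟩
    rw [vadd_eq_add]
    apply Prod.ext
    · simp only [Prod.fst_add, Prod.smul_fst, Prod.fst_sub, smul_eq_mul]
      exact e1
    · simp only [Prod.snd_add, Prod.smul_snd, Prod.snd_sub, smul_eq_mul]
      exact e2

/-- separated segments do not cross -/
theorem no_cross {n : ℕ} (p : Fin n → ℝ × ℝ) (τ s t : ℝ) (u w a b : Fin n)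
    (h1 : t ≤ hh (fun i => (p i).1 + τ * (p i).2) (fun i => (p i).2) s u)
    (h2 : t ≤ hh (fun i => (p i).1 + τ * (p i).2) (fun i => (p i).2) s w)
    (h3 : 2 * t < hh (fun i => (p i).1 + τ * (p i).2) (fun i => (p i).2) s u +
      hh (fun i => (p i).1 + τ * (p i).2) (fun i => (p i).2) s w)
    (h4 : hh (fun i => (p i).1 + τ * (p i).2) (fun i => (p i).2) s a ≤ t)
    (h5 : hh (fun i => (p i).1 + τ * (p i).2) (fun i => (p i).2) s b ≤ t) :
    ¬ (openSegment ℝ (p u) (p w) ∩ openSegment ℝ (p a) (p b)).Nonempty := by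
  rintro ⟨z, ⟨α, β, hα, hβ, hαβ, hz⟩, ⟨α', β', hα', hβ', hαβ', hz'⟩⟩
  unfold hh at h1 h2 h3 h4 h5
  simp only at h1 h2 h3 h4 h5
  have z1 : z.1 = α * (p u).1 + β * (p w).1 := by rw [← hz]; simp
  have z2 : z.2 = α * (p u).2 + β * (p w).2 := by rw [← hz]; simp
  have z1' : z.1 = α' * (p a).1 + β' * (p b).1 := by rw [← hz']; simp
  have z2' : z.2 = α' * (p a).2 + β' * (p b).2 := by rw [← hz']; simp
  set gu : ℝ := (p u).2 - s * ((p u).1 + τ * (p u).2) with hgu
  set gw : ℝ := (p w).2 - s * ((p w).1 + τ * (p w).2) with hgw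
  set ga : ℝ := (p a).2 - s * ((p a).1 + τ * (p a).2) with hga
  set gb : ℝ := (p b).2 - s * ((p b).1 + τ * (p b).2) with hgb
  have e1 : z.2 - s * (z.1 + τ * z.2) = α * gu + β * gw := by
    rw [z1, z2, hgu, hgw]; ring
  have e2 : z.2 - s * (z.1 + τ * z.2) = α' * ga + β' * gb := by
    rw [z1', z2', hga, hgb]; ring
  have e3 : α' * ga + β' * gb ≤ t := by
    have := mul_le_mul_of_nonneg_left h4 hα'.le
    have := mul_le_mul_of_nonneg_left h5 hβ'.le
    have e : α' * t + β' * t = t := by rw [← add_mul, hαβ', one_mul]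
    linarith
  have e4 : t < α * gu + β * gw := by
    have e : α * t + β * t = t := by rw [← add_mul, hαβ, one_mul]
    have a1 := mul_le_mul_of_nonneg_left h1 hα.le
    have a2 := mul_le_mul_of_nonneg_left h2 hβ.le
    rcases h1.lt_or_eq with h | h
    · have := mul_lt_mul_of_pos_left h hα
      linarith
    · have h' : t < gw := by linarith
      have := mul_lt_mul_of_pos_left h' hβ
      linarith
  linarith

end Pool.Agent.H365PP
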