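import Pool.Agent.H365PP.Defs

set_option autoImplicit false
set_option linter.unusedSectionVars false

namespace Pool.Agent.H365PP

open Finset

variable {ι : Type*} [DecidableEq ι] {X Y : ι → ℝ} {Q : Finset ι}


/-- no line meets three sets of which the outer two are below and the middle one above a given line -/
theorem no_transversal {A B C : Finset ι} (h1 : ∀ a ∈ A, ∀ b ∈ B, X a < X b) (h2 : ∀ b ∈ B, ∀ c ∈ C, X b < X c)
    {s0 t0 : ℝ}
    (h : ((∀ a ∈ A, hh X Y s0 a < t0) ∧ (∀ b ∈ B, t0 < hh X Y s0 b) ∧ (∀ c ∈ C, hh X Y s0 c < t0)) ∨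
      ((∀ a ∈ A, t0 < hh X Y s0 a) ∧ (∀ b ∈ B, hh X Y s0 b < t0) ∧ (∀ c ∈ C, t0 < hh X Y s0 c)))
    (s t : ℝ) : ¬ (Hit X Y s t A ∧ Hit X Y s t B ∧ Hit X Y s t C) := by
  rintro ⟨⟨⟨a, ha, ha1⟩, ⟨a', ha', ha1'⟩⟩, ⟨⟨b, hb, hb1⟩, ⟨b', hb', hb1'⟩⟩,
    ⟨⟨c, hc, hc1⟩, ⟨c', hc', hc1'⟩⟩⟩
  rcases h with ⟨hA, hB, hC⟩ | ⟨hA, hB, hC⟩
  · have k1 := hA a ha
    have k2 := hB b' hb'
    have k3 := hC c hc
    have x1 := h1 a ha b' hb'
    have x2 := h2 b' hb' c hc
    unfold hh at *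
    have d1 : (t - t0) + (s - s0) * X a < 0 := by linarith
    have d2 : 0 < (t - t0) + (s - s0) * X b' := by linarith
    have d3 : (t - t0) + (s - s0) * X c < 0 := by linarith
    have e : (X c - X b') * ((t - t0) + (s - s0) * X a) + (X b' - X a) *
        ((t - t0) + (s - s0) * X c) = (X c - X a) * ((t - t0) + (s - s0) * X b') := by ring
    have f1 : (X c - X b') * ((t - t0) + (s - s0) * X a) < 0 :=
      mul_neg_of_pos_of_neg (by linarith) d1
    have f2 : (X b' - X a) * ((t - t0) + (s - s0) * X c) < 0 :=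
      mul_neg_of_pos_of_neg (by linarith) d3
    have f3 : 0 < (X c - X a) * ((t - t0) + (s - s0) * X b') := mul_pos (by linarith) d2
    linarith
  · have k1 := hA a' ha'
    have k2 := hB b hb
    have k3 := hC c' hc'
    have x1 := h1 a' ha' b hb
    have x2 := h2 b hb c' hc'
    unfold hh at *
    have d1 : 0 < (t - t0) + (s - s0) * X a' := by linarith
    have d2 : (t - t0) + (s - s0) * X b < 0 := by linarith
    have d3 : 0 < (t - t0) + (s - s0) * X c' := by linarith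
    have e : (X c' - X b) * ((t - t0) + (s - s0) * X a') + (X b - X a') *
        ((t - t0) + (s - s0) * X c') = (X c' - X a') * ((t - t0) + (s - s0) * X b) := by ring
    have f1 : 0 < (X c' - X b) * ((t - t0) + (s - s0) * X a') := mul_pos (by linarith) d1
    have f2 : 0 < (X b - X a') * ((t - t0) + (s - s0) * X c') := mul_pos (by linarith) d3
    have f3 : (X c' - X a') * ((t - t0) + (s - s0) * X b) < 0 :=
      mul_neg_of_pos_of_neg (by linarith) d2
    linarith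

theorem refine3_above {A : Finset ι} {f : ι → ℝ} {a0 : ι} {m : ℕ}
    (hA : 2 * m + 1 ≤ A.card) (hrk : (A.filter (fun q => f q < f a0)).card = m)
    (hon : ∀ l ∈ A, l ≠ a0 → f l ≠ f a0) : m ≤ (A.filter (fun q => f a0 < f q)).card := by
  have h1 := Finset.card_filter_add_card_filter_not (s := A) (fun q => f q < f a0)
  have h2 : A.filter (fun q => ¬ f q < f a0) ⊆ insert a0 (A.filter (fun q => f a0 < f q)) := by
    intro q hq
    rw [Finset.mem_filter, not_lt] at hq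
    rw [Finset.mem_insert]
    by_cases hqa : q = a0
    · exact Or.inl hqa
    · exact Or.inr (Finset.mem_filter.2 ⟨hq.1, lt_of_le_of_ne hq.2 (Ne.symm (hon q hq.1 hqa))⟩)
  have h3 := Finset.card_le_card h2
  have h4 := Finset.card_insert_le a0 (A.filter (fun q => f a0 < f q))
  omega

/-- refinement of three separated sets to sets without a common line transversal.  `hsurj` is a discrete ham sandwich
statement (proved elsewhere). -/
theorem refine3 {A B C : Finset ι} (hG : GP X Y (A ∪ B ∪ C))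
    (h1 : ∀ a ∈ A, ∀ b ∈ B, X a < X b) (h2 : ∀ b ∈ B, ∀ c ∈ C, X b < X c)
    {m : ℕ} (hA : 2 * m + 1 ≤ A.card) (hB : 2 * m + 1 ≤ B.card) (hC : 2 * m + 1 ≤ C.card)
    (hsurj : ∀ α < A.card, ∀ β < C.card, ∃ a ∈ A, ∃ c ∈ C,
      rk X Y A (sl X Y a c) a = α ∧ rk X Y C (sl X Y a c) a = β) :
    ∃ A' ⊆ A, ∃ B' ⊆ B, ∃ C' ⊆ C, m ≤ A'.card ∧ m ≤ B'.card ∧ m ≤ C'.card ∧
      ∀ s t : ℝ, ¬ (Hit X Y s t A' ∧ Hit X Y s t B' ∧ Hit X Y s t C') := by
  obtain ⟨a0, ha0, c0, hc0, hra, hrc⟩ := hsurj m (by omega) m (by omega)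
  obtain ⟨b0, hb0⟩ : B.Nonempty := Finset.card_pos.1 (by omega)
  have hx : X a0 < X c0 := (h1 a0 ha0 b0 hb0).trans (h2 b0 hb0 c0 hc0)
  have hAC : ∀ a ∈ A, ∀ c ∈ C, X a < X c := fun a ha c hc =>
    (h1 a ha b0 hb0).trans (h2 b0 hb0 c hc)
  set s0 : ℝ := sl X Y a0 c0 with hs0
  have hc0t : hh X Y s0 c0 = hh X Y s0 a0 := hh_sl hx.ne
  have hac : a0 ≠ c0 := by
    rintro h
    rw [h] at hx
    exact lt_irrefl _ hx
  have mA : ∀ l ∈ A, l ∈ A ∪ B ∪ C := fun l hl => by simp [hl]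
  have mB : ∀ l ∈ B, l ∈ A ∪ B ∪ C := fun l hl => by simp [hl]
  have mC : ∀ l ∈ C, l ∈ A ∪ B ∪ C := fun l hl => by simp [hl]
  have onA : ∀ l ∈ A, l ≠ a0 → hh X Y s0 l ≠ hh X Y s0 a0 := by
    intro l hl hla
    refine hG.gen a0 (mA _ ha0) c0 (mC _ hc0) l (mA _ hl) hac hla ?_
    rintro rfl
    exact lt_irrefl _ (hAC l hl l hc0)
  have onC : ∀ l ∈ C, l ≠ c0 → hh X Y s0 l ≠ hh X Y s0 c0 := by
    intro l hl hlc
    rw [hc0t]
    refine hG.gen a0 (mA _ ha0) c0 (mC _ hc0) l (mC _ hl) hac ?_ hlc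
    rintro rfl
    exact lt_irrefl _ (hAC l ha0 l hl)
  have onB : ∀ l ∈ B, hh X Y s0 l ≠ hh X Y s0 a0 := by
    intro l hl
    refine hG.gen a0 (mA _ ha0) c0 (mC _ hc0) l (mB _ hl) hac ?_ ?_
    · rintro rfl
      exact lt_irrefl _ (h1 l ha0 l hl)
    · rintro rfl
      exact lt_irrefl _ (h2 l hl l hc0)
  have hra' : (A.filter (fun q => hh X Y s0 q < hh X Y s0 a0)).card = m := hra
  have hrc' : (C.filter (fun q => hh X Y s0 q < hh X Y s0 c0)).card = m := by
    rw [hc0t]; exact hrc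
  have upA := refine3_above hA hra' onA
  have upC := refine3_above hC hrc' onC
  have hBs := Finset.card_filter_add_card_filter_not (s := B)
    (fun q => hh X Y s0 q < hh X Y s0 a0)
  by_cases hBm : m ≤ (B.filter (fun q => hh X Y s0 q < hh X Y s0 a0)).card
  · refine ⟨A.filter (fun q => hh X Y s0 a0 < hh X Y s0 q), Finset.filter_subset _ _,
      B.filter (fun q => hh X Y s0 q < hh X Y s0 a0), Finset.filter_subset _ _,
      C.filter (fun q => hh X Y s0 c0 < hh X Y s0 q), Finset.filter_subset _ _, upA, hBm, upC, ?_⟩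
    refine no_transversal (s0 := s0) (t0 := hh X Y s0 a0)
      (fun a ha b hb => h1 a (Finset.mem_filter.1 ha).1 b (Finset.mem_filter.1 hb).1)
      (fun b hb c hc => h2 b (Finset.mem_filter.1 hb).1 c (Finset.mem_filter.1 hc).1)
      (Or.inr ⟨fun a ha => (Finset.mem_filter.1 ha).2, fun b hb => (Finset.mem_filter.1 hb).2,
        fun c hc => ?_⟩)
    rw [← hc0t]
    exact (Finset.mem_filter.1 hc).2
  · have hBm' : m ≤ (B.filter (fun q => ¬ hh X Y s0 q < hh X Y s0 a0)).card := by omega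
    refine ⟨A.filter (fun q => hh X Y s0 q < hh X Y s0 a0), Finset.filter_subset _ _,
      B.filter (fun q => ¬ hh X Y s0 q < hh X Y s0 a0), Finset.filter_subset _ _,
      C.filter (fun q => hh X Y s0 q < hh X Y s0 c0), Finset.filter_subset _ _, hra'.ge, hBm',
      hrc'.ge, ?_⟩
    refine no_transversal (s0 := s0) (t0 := hh X Y s0 a0)
      (fun a ha b hb => h1 a (Finset.mem_filter.1 ha).1 b (Finset.mem_filter.1 hb).1)
      (fun b hb c hc => h2 b (Finset.mem_filter.1 hb).1 c (Finset.mem_filter.1 hc).1)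
      (Or.inl ⟨fun a ha => (Finset.mem_filter.1 ha).2, fun b hb => ?_, fun c hc => ?_⟩)
    · have h3 := Finset.mem_filter.1 hb
      exact lt_of_le_of_ne (not_lt.1 h3.2) (Ne.symm (onB b h3.1))
    · rw [← hc0t]
      exact (Finset.mem_filter.1 hc).2

end Pool.Agent.H365PP
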