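import Pool.Agent.H365PP.Defs

set_option autoImplicit false
set_option linter.unusedSectionVars false

namespace Pool.Agent.H365PP

open Finset

variable {ι : Type*} [DecidableEq ι] {X Y : ι → ℝ} {Q : Finset ι}


/-- averaging: the number of elements of `S` with `f = k` is small for some `k` -/
theorem good_k {κ : Type*} [DecidableEq κ] (S : Finset κ) (f : κ → ℕ) (M : ℕ) (hM : 1 ≤ M)
    (hS : 3 * S.card ≤ (10 * M) * (10 * M)) :
    ∃ k < 10 * M, (S.filter (fun e => f e = k)).card + M ≤ k + 1 := by
  by_contra hcon
  push Not at hcon
  have h1 : ∑ k ∈ Finset.range (10 * M), (S.filter (fun e => f e = k)).card ≤ S.card := by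
    rw [← Finset.card_biUnion]
    · apply Finset.card_le_card
      intro e he
      rw [Finset.mem_biUnion] at he
      obtain ⟨k, _, hk⟩ := he
      exact (Finset.mem_filter.1 hk).1
    · intro a _ b _ hab
      show Disjoint (S.filter (fun e => f e = a)) (S.filter (fun e => f e = b))
      rw [Finset.disjoint_left]
      intro e he he'
      exact hab ((Finset.mem_filter.1 he).2.symm.trans (Finset.mem_filter.1 he').2)
  have h2 : ∑ j ∈ Finset.range (9 * M), (j + 2) ≤
      ∑ k ∈ Finset.range (10 * M), (S.filter (fun e => f e = k)).card := by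
    have h3 : 10 * M = M + 9 * M := by ring
    rw [h3, Finset.sum_range_add]
    refine le_trans ?_ (Nat.le_add_left _ _)
    refine Finset.sum_le_sum (fun j hj => ?_)
    rw [Finset.mem_range] at hj
    have := hcon (M + j) (by omega)
    omega
  have h4 : ∀ n : ℕ, 2 * ∑ j ∈ Finset.range n, (j + 2) = n * (n + 3) := by
    intro n
    induction n with
    | zero => simp
    | succ n ih =>
      rw [Finset.sum_range_succ, mul_add, ih]
      ring
  have h5 := h4 (9 * M)
  nlinarith

end Pool.Agent.H365PP
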