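import Pool.Agent.H365PP.HP

set_option autoImplicit false
set_option linter.unusedSectionVars false

namespace Pool.Agent.H365PP

open Finset

variable {ι : Type*} [DecidableEq ι] {X Y : ι → ℝ} {Q : Finset ι}




theorem fs_inc (S : Finset ι) (m : ℕ) (hm : S.card = m) :
    2 * ((S ×ˢ S).filter (fun e : ι × ι => X e.1 < X e.2)).card ≤ m * m := by
  have h1 : ((S ×ˢ S).filter (fun e : ι × ι => X e.2 < X e.1)).card
      = ((S ×ˢ S).filter (fun e : ι × ι => X e.1 < X e.2)).card := by
    refine Finset.card_bij (fun e _ => (e.2, e.1)) ?_ ?_ ?_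
    · intro e he
      simp only [Finset.mem_filter, Finset.mem_product] at he ⊢
      exact ⟨⟨he.1.2, he.1.1⟩, he.2⟩
    · intro e _ e' _ h
      simp only [Prod.mk.injEq] at h
      exact Prod.ext h.2 h.1
    · intro e he
      simp only [Finset.mem_filter, Finset.mem_product] at he
      refine ⟨(e.2, e.1), ?_, rfl⟩
      simp only [Finset.mem_filter, Finset.mem_product]
      exact ⟨⟨he.1.2, he.1.1⟩, he.2⟩
  have h2 : Disjoint ((S ×ˢ S).filter (fun e : ι × ι => X e.1 < X e.2))
      ((S ×ˢ S).filter (fun e : ι × ι => X e.2 < X e.1)) := by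
    rw [Finset.disjoint_left]
    intro e he he'
    simp only [Finset.mem_filter] at he he'
    exact lt_asymm he.2 he'.2
  have h3 : (((S ×ˢ S).filter (fun e : ι × ι => X e.1 < X e.2)) ∪
      ((S ×ˢ S).filter (fun e : ι × ι => X e.2 < X e.1))).card ≤ (S ×ˢ S).card :=
    Finset.card_le_card (Finset.union_subset (Finset.filter_subset _ _) (Finset.filter_subset _ _))
  rw [Finset.card_union_of_disjoint h2, h1, Finset.card_product, hm] at h3
  omega

theorem fs_three {S : Fin 4 → Finset ι} {m : ℕ} (hm : ∀ i, (S i).card = m)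
    (hNT : ∀ i j l : Fin 4, i ≠ j → i ≠ l → j ≠ l → ∀ s t : ℝ,
      ¬ (Hit X Y s t (S i) ∧ Hit X Y s t (S j) ∧ Hit X Y s t (S l)))
    (i a b c : Fin 4) (hia : i ≠ a) (hib : i ≠ b) (hic : i ≠ c) (hab : a ≠ b) (hac : a ≠ c)
    (hbc : b ≠ c) :
    2 * ((hp X Y (S i) (S a)).card + (hp X Y (S i) (S b)).card + (hp X Y (S i) (S c)).card)
      ≤ m * m := by
  classical
  have hdis : ∀ a b : Fin 4, i ≠ a → i ≠ b → a ≠ b →
      Disjoint (hp X Y (S i) (S a)) (hp X Y (S i) (S b)) := by
    intro a b hia hib hab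
    rw [Finset.disjoint_left]
    intro e he he'
    simp only [hp, Finset.mem_filter, Finset.mem_product] at he he'
    refine hNT i a b hia hib hab _ _ ⟨⟨⟨e.1, he.1.1, le_rfl⟩, ⟨e.1, he.1.1, le_rfl⟩⟩, he.2.2,
      he'.2.2⟩
  have hsub : ∀ a : Fin 4, hp X Y (S i) (S a) ⊆
      (S i ×ˢ S i).filter (fun e : ι × ι => X e.1 < X e.2) := by
    intro a e he
    simp only [hp, Finset.mem_filter] at he ⊢
    exact ⟨he.1, he.2.1⟩
  have h1 : (hp X Y (S i) (S a) ∪ hp X Y (S i) (S b) ∪ hp X Y (S i) (S c)).card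
      ≤ ((S i ×ˢ S i).filter (fun e : ι × ι => X e.1 < X e.2)).card :=
    Finset.card_le_card (Finset.union_subset (Finset.union_subset (hsub a) (hsub b)) (hsub c))
  have h2 : Disjoint (hp X Y (S i) (S a) ∪ hp X Y (S i) (S b)) (hp X Y (S i) (S c)) :=
    Finset.disjoint_union_left.2 ⟨hdis a c hia hic hac, hdis b c hib hic hbc⟩
  rw [Finset.card_union_of_disjoint h2, Finset.card_union_of_disjoint (hdis a b hia hib hab)] at h1
  have h3 := fs_inc (X := X) (S i) m (hm i)
  omega

/-- among four sets of size `m` without a line meeting three of their hulls, two of them, say `S i` and `S j` with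
`i < j`, have at most `m^2/3` monochromatic pairs whose line meets the hull of the other one. -/
theorem four_sets {S : Fin 4 → Finset ι} {m : ℕ} (hX : ∀ i, ∀ a ∈ S i, ∀ b ∈ S i, X a = X b → a = b)
    (hm : ∀ i, (S i).card = m)
    (hNT : ∀ i j l : Fin 4, i < j → j < l → ∀ s t : ℝ, ¬ (Hit X Y s t (S i) ∧ Hit X Y s t (S j) ∧ Hit X Y s t (S l))) :
    ∃ i j : Fin 4, i < j ∧ 3 * ((hp X Y (S i) (S j)).card + (hp X Y (S j) (S i)).card) ≤ m * m := by
  have hN : ∀ i j l : Fin 4, i ≠ j → i ≠ l → j ≠ l → ∀ s t : ℝ,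
      ¬ (Hit X Y s t (S i) ∧ Hit X Y s t (S j) ∧ Hit X Y s t (S l)) := by
    intro i j l hij hil hjl s t ⟨h1, h2, h3⟩
    rcases lt_or_gt_of_ne hij with a | a <;> rcases lt_or_gt_of_ne hil with b | b <;>
      rcases lt_or_gt_of_ne hjl with c | c
    · exact hNT i j l a c s t ⟨h1, h2, h3⟩
    · exact hNT i l j b c s t ⟨h1, h3, h2⟩
    · exact absurd (lt_trans (lt_trans a c) b) (lt_irrefl _)
    · exact hNT l i j b a s t ⟨h3, h1, h2⟩
    · exact hNT j i l a b s t ⟨h2, h1, h3⟩
    · exact absurd (lt_trans (lt_trans a b) c) (lt_irrefl _)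
    · exact hNT j l i c b s t ⟨h2, h3, h1⟩
    · exact hNT l j i c a s t ⟨h3, h2, h1⟩
  have e0 := fs_three hm hN 0 1 2 3 (by decide) (by decide) (by decide) (by decide) (by decide)
    (by decide)
  have e1 := fs_three hm hN 1 0 2 3 (by decide) (by decide) (by decide) (by decide) (by decide)
    (by decide)
  have e2 := fs_three hm hN 2 0 1 3 (by decide) (by decide) (by decide) (by decide) (by decide)
    (by decide)
  have e3 := fs_three hm hN 3 0 1 2 (by decide) (by decide) (by decide) (by decide) (by decide)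
    (by decide)
  by_contra hcon
  push Not at hcon
  have c01 := hcon 0 1 (by decide)
  have c02 := hcon 0 2 (by decide)
  have c03 := hcon 0 3 (by decide)
  have c12 := hcon 1 2 (by decide)
  have c13 := hcon 1 3 (by decide)
  have c23 := hcon 2 3 (by decide)
  linarith

end Pool.Agent.H365PP
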