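import Pool.Agent.H365PP.Defs

set_option autoImplicit false
set_option linter.unusedSectionVars false

namespace Pool.Agent.H365PP

open Finset

variable {ι : Type*} [DecidableEq ι] {X Y : ι → ℝ} {Q : Finset ι}


/-- splitting a finite set with distinct `X`-values into four consecutive blocks of size `w` -/
theorem strips (Q : Finset ι) (hinj : ∀ i ∈ Q, ∀ j ∈ Q, X i = X j → i = j) {w : ℕ} (hw : 4 * w ≤ Q.card) :
    ∃ S : Fin 4 → Finset ι, (∀ i, S i ⊆ Q) ∧ (∀ i, (S i).card = w) ∧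
      (∀ i j : Fin 4, i < j → ∀ a ∈ S i, ∀ b ∈ S j, X a < X b) := by
  classical
  obtain ⟨r, hr⟩ : ∃ r : ι → ℕ, ∀ i, r i = (Q.filter (fun j => X j < X i)).card :=
    ⟨_, fun _ => rfl⟩
  have hrlt : ∀ i ∈ Q, ∀ j ∈ Q, X i < X j → r i < r j := by
    intro i hi j hj hij
    rw [hr, hr]
    apply Finset.card_lt_card
    rw [Finset.ssubset_iff_of_subset]
    · exact ⟨i, Finset.mem_filter.2 ⟨hi, hij⟩, fun h => lt_irrefl _ (Finset.mem_filter.1 h).2⟩
    · intro l hl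
      rw [Finset.mem_filter] at hl ⊢
      exact ⟨hl.1, hl.2.trans hij⟩
  have hrinj : ∀ i ∈ Q, ∀ j ∈ Q, r i = r j → i = j := by
    intro i hi j hj hij
    rcases lt_trichotomy (X i) (X j) with h | h | h
    · have := hrlt i hi j hj h; omega
    · exact hinj i hi j hj h
    · have := hrlt j hj i hi h; omega
  have hrX : ∀ i ∈ Q, ∀ j ∈ Q, r i < r j → X i < X j := by
    intro i hi j hj hij
    rcases lt_trichotomy (X i) (X j) with h | h | h
    · exact h
    · have := hinj i hi j hj h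
      rw [this] at hij
      exact absurd hij (lt_irrefl _)
    · have := hrlt j hj i hi h; omega
  have hrQ : ∀ i ∈ Q, r i < Q.card := by
    intro i hi
    rw [hr]
    apply Finset.card_lt_card
    rw [Finset.ssubset_iff_of_subset (Finset.filter_subset _ _)]
    exact ⟨i, hi, fun h => lt_irrefl _ (Finset.mem_filter.1 h).2⟩
  have himg : Q.image r = Finset.range Q.card := by
    apply Finset.eq_of_subset_of_card_le
    · intro k hk
      obtain ⟨i, hi, rfl⟩ := Finset.mem_image.1 hk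
      exact Finset.mem_range.2 (hrQ i hi)
    · rw [Finset.card_range, Finset.card_image_of_injOn]
      intro i hi j hj hij
      exact hrinj i hi j hj hij
  refine ⟨fun a => Q.filter (fun i => a.1 * w ≤ r i ∧ r i < (a.1 + 1) * w),
    fun a => Finset.filter_subset _ _, ?_, ?_⟩
  · intro a
    have h1 : (Q.filter (fun i => a.1 * w ≤ r i ∧ r i < (a.1 + 1) * w)).image r =
        Finset.Ico (a.1 * w) ((a.1 + 1) * w) := by
      ext k
      rw [Finset.mem_image, Finset.mem_Ico]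
      constructor
      · rintro ⟨i, hi, rfl⟩
        exact (Finset.mem_filter.1 hi).2
      · rintro ⟨h1, h2⟩
        have h3 : (a.1 + 1) * w ≤ 4 * w := Nat.mul_le_mul_right w (by omega)
        have h4 : k ∈ Q.image r := by
          rw [himg, Finset.mem_range]
          omega
        obtain ⟨i, hi, rfl⟩ := Finset.mem_image.1 h4
        exact ⟨i, Finset.mem_filter.2 ⟨hi, h1, h2⟩, rfl⟩
    have h2 : ((Q.filter (fun i => a.1 * w ≤ r i ∧ r i < (a.1 + 1) * w)).image r).card =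
        (Q.filter (fun i => a.1 * w ≤ r i ∧ r i < (a.1 + 1) * w)).card := by
      apply Finset.card_image_of_injOn
      intro i hi j hj hij
      exact hrinj i (Finset.mem_filter.1 hi).1 j (Finset.mem_filter.1 hj).1 hij
    rw [← h2, h1, Nat.card_Ico, add_mul, one_mul, Nat.add_sub_cancel_left]
  · intro a b hab i hi j hj
    rw [Finset.mem_filter] at hi hj
    apply hrX i hi.1 j hj.1
    have h1 : (a.1 + 1) * w ≤ b.1 * w := Nat.mul_le_mul_right w (by
      have : a.1 < b.1 := hab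
      omega)
    omega

theorem Hit_mono {s t : ℝ} {A B : Finset ι} (h : A ⊆ B) (hA : Hit X Y s t A) :
    Hit X Y s t B := by
  obtain ⟨⟨p, hp, h1⟩, ⟨q, hq, h2⟩⟩ := hA
  exact ⟨⟨p, h hp, h1⟩, ⟨q, h hq, h2⟩⟩

/-- four rounds of refinement; `href` is proved elsewhere -/
theorem rounds (S : Fin 4 → Finset ι) {m : ℕ} (hc : ∀ i, 16 * m + 15 ≤ (S i).card)
    (href : ∀ (i j l : Fin 4), i < j → j < l → ∀ (A B C : Finset ι), A ⊆ S i → B ⊆ S j → C ⊆ S l → ∀ m' : ℕ,
      2 * m' + 1 ≤ A.card → 2 * m' + 1 ≤ B.card → 2 * m' + 1 ≤ C.card →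
      ∃ A' ⊆ A, ∃ B' ⊆ B, ∃ C' ⊆ C, m' ≤ A'.card ∧ m' ≤ B'.card ∧ m' ≤ C'.card ∧
        ∀ s t : ℝ, ¬ (Hit X Y s t A' ∧ Hit X Y s t B' ∧ Hit X Y s t C')) :
    ∃ S' : Fin 4 → Finset ι, (∀ i, S' i ⊆ S i) ∧ (∀ i, (S' i).card = m) ∧
      (∀ i j l : Fin 4, i < j → j < l → ∀ s t : ℝ,
        ¬ (Hit X Y s t (S' i) ∧ Hit X Y s t (S' j) ∧ Hit X Y s t (S' l))) := by
  have c0 := hc 0
  have c1 := hc 1
  have c2 := hc 2
  have c3 := hc 3
  obtain ⟨A1, hA1, B1, hB1, C1, hC1, a1, b1, d1, n1⟩ := href 0 1 2 (by decide) (by decide)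
    (S 0) (S 1) (S 2) (Finset.Subset.refl _) (Finset.Subset.refl _) (Finset.Subset.refl _)
    (8 * m + 7) (by omega) (by omega) (by omega)
  obtain ⟨A2, hA2, B2, hB2, D2, hD2, a2, b2, d2, n2⟩ := href 0 1 3 (by decide) (by decide)
    A1 B1 (S 3) hA1 hB1 (Finset.Subset.refl _) (4 * m + 3) (by omega) (by omega) (by omega)
  obtain ⟨A3, hA3, C3, hC3, D3, hD3, a3, b3, d3, n3⟩ := href 0 2 3 (by decide) (by decide)
    A2 C1 D2 (hA2.trans hA1) hC1 hD2 (2 * m + 1) (by omega) (by omega) (by omega)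
  obtain ⟨B4, hB4, C4, hC4, D4, hD4, a4, b4, d4, n4⟩ := href 1 2 3 (by decide) (by decide)
    B2 C3 D3 (hB2.trans hB1) (hC3.trans hC1) (hD3.trans hD2) m (by omega) (by omega) (by omega)
  obtain ⟨A, hA, cA⟩ := Finset.exists_subset_card_eq (show m ≤ A3.card by omega)
  obtain ⟨B, hB, cB⟩ := Finset.exists_subset_card_eq a4
  obtain ⟨C, hC, cC⟩ := Finset.exists_subset_card_eq b4
  obtain ⟨D, hD, cD⟩ := Finset.exists_subset_card_eq d4
  refine ⟨![A, B, C, D], ?_, ?_, ?_⟩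
  · intro i
    fin_cases i
    · exact hA.trans (hA3.trans (hA2.trans hA1))
    · exact hB.trans (hB4.trans (hB2.trans hB1))
    · exact hC.trans (hC4.trans (hC3.trans hC1))
    · exact hD.trans (hD4.trans (hD3.trans hD2))
  · intro i
    fin_cases i
    · exact cA
    · exact cB
    · exact cC
    · exact cD
  · have key : ∀ i j l : Fin 4, i < j → j < l → (i = 0 ∧ j = 1 ∧ l = 2) ∨
        (i = 0 ∧ j = 1 ∧ l = 3) ∨ (i = 0 ∧ j = 2 ∧ l = 3) ∨ (i = 1 ∧ j = 2 ∧ l = 3) := by decide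
    intro i j l hij hjl s t
    rcases key i j l hij hjl with ⟨rfl, rfl, rfl⟩ | ⟨rfl, rfl, rfl⟩ | ⟨rfl, rfl, rfl⟩ |
      ⟨rfl, rfl, rfl⟩
    · rintro ⟨h1, h2, h3⟩
      exact n1 s t ⟨Hit_mono (hA.trans (hA3.trans hA2)) h1, Hit_mono (hB.trans (hB4.trans hB2)) h2,
        Hit_mono (hC.trans (hC4.trans hC3)) h3⟩
    · rintro ⟨h1, h2, h3⟩
      exact n2 s t ⟨Hit_mono (hA.trans hA3) h1, Hit_mono (hB.trans hB4) h2,
        Hit_mono (hD.trans (hD4.trans hD3)) h3⟩
    · rintro ⟨h1, h2, h3⟩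
      exact n3 s t ⟨Hit_mono hA h1, Hit_mono (hC.trans hC4) h2, Hit_mono (hD.trans hD4) h3⟩
    · rintro ⟨h1, h2, h3⟩
      exact n4 s t ⟨Hit_mono hB h1, Hit_mono hC h2, Hit_mono hD h3⟩

end Pool.Agent.H365PP
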