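import Pool.Agent.H365PP.Defs

set_option autoImplicit false
set_option linter.unusedSectionVars false

namespace Pool.Agent.H365PP

open Finset

variable {ι : Type*} [DecidableEq ι] {X Y : ι → ℝ} {Q : Finset ι}


/-- goodness of a class for an edge -/
def Good_10682 {n : ℕ} (X Y : Fin n → ℝ) (T : Finset (Fin n)) (E : Finset (Fin n × Fin n)) :
    (T ⊕ E) → Fin n → Fin n → Prop
  | Sum.inl x, u, w => u = x.1 ∨ w = x.1
  | Sum.inr e, u, w => Cov X Y e.1.1 e.1.2 u w

theorem Good_symm_10682 {n : ℕ} {X Y : Fin n → ℝ} {T : Finset (Fin n)}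
    {E : Finset (Fin n × Fin n)} {k : T ⊕ E} {u w : Fin n} (h : Good_10682 X Y T E k u w) :
    Good_10682 X Y T E k w u := by
  cases k with
  | inl x => exact Or.symm h
  | inr e => exact Cov.symm h

/-- From a cover of all pairs by full stars (centres `T`) and double stars (pairs `E`) one gets a colouring with
`T.card + E.card` colours in which two vertex-disjoint edges of the same colour lie in a common double star class. -/
theorem coloring_of_cover {n : ℕ} {X Y : Fin n → ℝ} (T : Finset (Fin n)) (E : Finset (Fin n × Fin n))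
    (hcov : ∀ u w : Fin n, u ≠ w → (u ∈ T ∨ w ∈ T ∨ ∃ e ∈ E, Cov X Y e.1 e.2 u w)) :
    ∃ c : Fin n → Fin n → ℕ, (∀ i j, c i j = c j i) ∧ (∀ i j, i ≠ j → c i j < T.card + E.card) ∧
      (∀ i j a b : Fin n, i ≠ j → i ≠ a → i ≠ b → j ≠ a → j ≠ b → a ≠ b → c i j = c a b →
        ∃ e ∈ E, Cov X Y e.1 e.2 i j ∧ Cov X Y e.1 e.2 a b) := by
  have hG : ∀ u w : Fin n, u ≠ w → ∃ k : T ⊕ E, Good_10682 X Y T E k u w := by
    intro u w huw
    rcases hcov u w huw with h | h | ⟨e, he, h⟩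
    · exact ⟨Sum.inl ⟨u, h⟩, Or.inl rfl⟩
    · exact ⟨Sum.inl ⟨w, h⟩, Or.inr rfl⟩
    · exact ⟨Sum.inr ⟨e, he⟩, h⟩
  choose f hf using hG
  let φ : (T ⊕ E) ≃ Fin (T.card + E.card) :=
    (Equiv.sumCongr T.equivFin E.equivFin).trans finSumFinEquiv
  let c : Fin n → Fin n → ℕ := fun i j =>
    if h : i < j then (φ (f i j h.ne)).1 else if h : j < i then (φ (f j i h.ne)).1 else 0
  have key : ∀ i j, i ≠ j → ∃ k, Good_10682 X Y T E k i j ∧ c i j = (φ k).1 := by
    intro i j hij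
    rcases lt_or_gt_of_ne hij with h | h
    · refine ⟨f i j h.ne, hf i j h.ne, ?_⟩
      show (if h : i < j then (φ (f i j h.ne)).1 else _) = _
      rw [dif_pos h]
    · refine ⟨f j i h.ne, Good_symm_10682 (hf j i h.ne), ?_⟩
      show (if h : i < j then (φ (f i j h.ne)).1 else
        if h : j < i then (φ (f j i h.ne)).1 else 0) = _
      rw [dif_neg (not_lt.2 h.le), dif_pos h]
  refine ⟨c, ?_, ?_, ?_⟩
  · intro i j
    show (if h : i < j then (φ (f i j h.ne)).1 else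
        if h : j < i then (φ (f j i h.ne)).1 else 0) =
      (if h : j < i then (φ (f j i h.ne)).1 else
        if h : i < j then (φ (f i j h.ne)).1 else 0)
    rcases lt_trichotomy i j with h | h | h
    · rw [dif_pos h, dif_neg (not_lt.2 h.le), dif_pos h]
    · subst h; rfl
    · rw [dif_neg (not_lt.2 h.le), dif_pos h, dif_pos h]
  · intro i j hij
    obtain ⟨k, _, h⟩ := key i j hij
    rw [h]
    exact (φ k).2
  · intro i j a b hij hia hib hja hjb hab h
    obtain ⟨k, hk, hk'⟩ := key i j hij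
    obtain ⟨l, hl, hl'⟩ := key a b hab
    have hkl : k = l := by
      apply φ.injective
      apply Fin.ext
      rw [← hk', ← hl', h]
    subst hkl
    cases k with
    | inl x =>
      exfalso
      rcases hk with h1 | h1 <;> rcases hl with h2 | h2
      · exact hia (h1.trans h2.symm)
      · exact hib (h1.trans h2.symm)
      · exact hja (h1.trans h2.symm)
      · exact hjb (h1.trans h2.symm)
    | inr e => exact ⟨e.1, e.2, hk, hl⟩

/-- two vertex-disjoint edges of a double star class are separated by the line of the class -/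
theorem cov_sep {p q u w a b : ι} (hpq : X p < X q) (h1 : Cov X Y p q u w) (h2 : Cov X Y p q a b)
    (hua : u ≠ a) (hub : u ≠ b) (hwa : w ≠ a) (hwb : w ≠ b) :
    (∃ s t : ℝ, (t ≤ hh X Y s u ∧ t ≤ hh X Y s w ∧ 2 * t < hh X Y s u + hh X Y s w) ∧
      (hh X Y s a ≤ t ∧ hh X Y s b ≤ t)) ∨
    (∃ s t : ℝ, (t ≤ hh X Y s a ∧ t ≤ hh X Y s b ∧ 2 * t < hh X Y s a + hh X Y s b) ∧
      (hh X Y s u ≤ t ∧ hh X Y s w ≤ t)) := by
  have hq : hh X Y (sl X Y p q) q = hh X Y (sl X Y p q) p := hh_sl hpq.ne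
  unfold Cov at h1 h2
  rcases h1 with ⟨e1, e2⟩ | ⟨e1, e2⟩ | ⟨e1, e2⟩ | ⟨e1, e2⟩ | ⟨e1, e2⟩ | ⟨e1, e2⟩ <;>
  rcases h2 with ⟨f1, f2⟩ | ⟨f1, f2⟩ | ⟨f1, f2⟩ | ⟨f1, f2⟩ | ⟨f1, f2⟩ | ⟨f1, f2⟩ <;>
  first
  | (exact absurd (e1.trans f1.symm) (by assumption))
  | (exact absurd (e1.trans f2.symm) (by assumption))
  | (exact absurd (e2.trans f1.symm) (by assumption))
  | (exact absurd (e2.trans f2.symm) (by assumption))
  | (left
     refine ⟨sl X Y p q, hh X Y (sl X Y p q) p, ⟨?_, ?_, ?_⟩, ?_, ?_⟩ <;>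
     (first | rw [e1] | skip) <;> (first | rw [f1] | skip) <;> linarith)
  | (right
     refine ⟨sl X Y p q, hh X Y (sl X Y p q) p, ⟨?_, ?_, ?_⟩, ?_, ?_⟩ <;>
     (first | rw [e1] | skip) <;> (first | rw [f1] | skip) <;> linarith)

end Pool.Agent.H365PP
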