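import Pool.Agent.H365PP.Cross
import Pool.Agent.H365PP.L5

set_option autoImplicit false
set_option linter.unusedSectionVars false

namespace Pool.Agent.H365PP

open Finset

variable {ι : Type*} [DecidableEq ι] {X Y : ι → ℝ} {Q : Finset ι}

/-- splitting a finite set with distinct `X`-values into `N` consecutive blocks of size `w` -/
theorem stripsN (N : ℕ) (Q : Finset ι) (hinj : ∀ i ∈ Q, ∀ j ∈ Q, X i = X j → i = j) {w : ℕ} (hw : N * w ≤ Q.card) :
    ∃ S : Fin N → Finset ι, (∀ i, S i ⊆ Q) ∧ (∀ i, (S i).card = w) ∧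
      (∀ i j : Fin N, i < j → ∀ a ∈ S i, ∀ b ∈ S j, X a < X b) := by
  classical
  obtain ⟨r, hr⟩ : ∃ r : ι → ℕ, ∀ i, r i = (Q.filter (fun j => X j < X i)).card :=
    ⟨_, fun _ => rfl⟩
  have hrlt : ∀ i ∈ Q, ∀ j ∈ Q, X i < X j → r i < r j := by
    intro i hi j hj hij
    rw [hr, hr]
    apply Finset.card_lt_card
    rw [Finset.ssubset_iff_of_subset]
    · exact ⟨i, Finset.mem_filter.2 ⟨hi, hij⟩, fun h => lt_irrefl _ (Finset.mem_filter.1 h).2⟩
    · intro l hl
      rw [Finset.mem_filter] at hl ⊢
      exact ⟨hl.1, hl.2.trans hij⟩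
  have hrinj : ∀ i ∈ Q, ∀ j ∈ Q, r i = r j → i = j := by
    intro i hi j hj hij
    rcases lt_trichotomy (X i) (X j) with h | h | h
    · have := hrlt i hi j hj h; omega
    · exact hinj i hi j hj h
    · have := hrlt j hj i hi h; omega
  have hrX : ∀ i ∈ Q, ∀ j ∈ Q, r i < r j → X i < X j := by
    intro i hi j hj hij
    rcases lt_trichotomy (X i) (X j) with h | h | h
    · exact h
    · have := hinj i hi j hj h
      rw [this] at hij
      exact absurd hij (lt_irrefl _)
    · have := hrlt j hj i hi h; omega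
  have hrQ : ∀ i ∈ Q, r i < Q.card := by
    intro i hi
    rw [hr]
    apply Finset.card_lt_card
    rw [Finset.ssubset_iff_of_subset (Finset.filter_subset _ _)]
    exact ⟨i, hi, fun h => lt_irrefl _ (Finset.mem_filter.1 h).2⟩
  have himg : Q.image r = Finset.range Q.card := by
    apply Finset.eq_of_subset_of_card_le
    · intro k hk
      obtain ⟨i, hi, rfl⟩ := Finset.mem_image.1 hk
      exact Finset.mem_range.2 (hrQ i hi)
    · rw [Finset.card_range, Finset.card_image_of_injOn]
      intro i hi j hj hij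
      exact hrinj i hi j hj hij
  refine ⟨fun a => Q.filter (fun i => a.1 * w ≤ r i ∧ r i < (a.1 + 1) * w),
    fun a => Finset.filter_subset _ _, ?_, ?_⟩
  · intro a
    have h1 : (Q.filter (fun i => a.1 * w ≤ r i ∧ r i < (a.1 + 1) * w)).image r =
        Finset.Ico (a.1 * w) ((a.1 + 1) * w) := by
      ext k
      rw [Finset.mem_image, Finset.mem_Ico]
      constructor
      · rintro ⟨i, hi, rfl⟩
        exact (Finset.mem_filter.1 hi).2
      · rintro ⟨h1, h2⟩
        have h3 : (a.1 + 1) * w ≤ N * w := Nat.mul_le_mul_right w (by omega)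
        have h4 : k ∈ Q.image r := by
          rw [himg, Finset.mem_range]
          omega
        obtain ⟨i, hi, rfl⟩ := Finset.mem_image.1 h4
        exact ⟨i, Finset.mem_filter.2 ⟨hi, h1, h2⟩, rfl⟩
    have h2 : ((Q.filter (fun i => a.1 * w ≤ r i ∧ r i < (a.1 + 1) * w)).image r).card =
        (Q.filter (fun i => a.1 * w ≤ r i ∧ r i < (a.1 + 1) * w)).card := by
      apply Finset.card_image_of_injOn
      intro i hi j hj hij
      exact hrinj i (Finset.mem_filter.1 hi).1 j (Finset.mem_filter.1 hj).1 hij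
    rw [← h2, h1, Nat.card_Ico, add_mul, one_mul, Nat.add_sub_cancel_left]
  · intro a b hab i hi j hj
    rw [Finset.mem_filter] at hi hj
    apply hrX i hi.1 j hj.1
    have h1 : (a.1 + 1) * w ≤ b.1 * w := Nat.mul_le_mul_right w (by
      have : a.1 < b.1 := hab
      omega)
    omega


end Pool.Agent.H365PP
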