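import Pool.Agent.H365PP.Shift
import Pool.Agent.H365PP.StripsN
import Pool.Agent.H365PP.K1
import Pool.Agent.H365PP.K2
import Pool.Agent.H365PP.K3
import Pool.Agent.H365PP.L5

set_option autoImplicit false
set_option linter.unusedSectionVars false

namespace Pool.Agent.H365PP

open Finset

variable {ι : Type*} [DecidableEq ι] {X Y : ι → ℝ} {Q : Finset ι}

/-- the list of all triples of indices -/
noncomputable def LL : List (Fin (5 + 5) × Fin (5 + 5) × Fin (5 + 5)) :=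
  (univ : Finset (Fin (5 + 5) × Fin (5 + 5) × Fin (5 + 5))).toList

theorem mem_LL (t : Fin (5 + 5) × Fin (5 + 5) × Fin (5 + 5)) : t ∈ LL := by
  unfold LL; simp

/-- the constant -/
noncomputable def CC : ℕ := 105 * 2 ^ LL.length

theorem CC_pos : 0 < CC := by unfold CC; positivity

theorem castAdd_lt' (i j : Fin 5) : Fin.castAdd 5 i < Fin.castAdd 5 j ↔ i < j := by
  rw [Fin.lt_def, Fin.lt_def, Fin.val_castAdd, Fin.val_castAdd]

theorem natAdd_lt' (i j : Fin 5) : Fin.natAdd 5 i < Fin.natAdd 5 j ↔ i < j := by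
  rw [Fin.lt_def, Fin.lt_def, Fin.val_natAdd, Fin.val_natAdd]
  omega

/-- Linear crossing families between two separated sets -/
theorem linear_sep {A0 B0 : Finset ι} (hG : GP X Y (A0 ∪ B0)) (hAB : ∀ a ∈ A0, ∀ b ∈ B0, X a < X b)
    {M : ℕ} (hM : 1 ≤ M) (hA : CC * M ≤ A0.card) (hB : CC * M ≤ B0.card) :
    ∃ G : Finset (ι × ι), (∀ e ∈ G, e.1 ∈ A0 ∧ e.2 ∈ B0) ∧ M ≤ G.card ∧
      (∀ e ∈ G, ∀ f ∈ G, e ≠ f → Opp X Y e f ∨ Opp X Y f e) := by
  have hw : 5 * (2 ^ LL.length * (20 * M + 1)) ≤ CC * M := by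
    unfold CC
    have h1 : 20 * M + 1 ≤ 21 * M := by omega
    calc 5 * (2 ^ LL.length * (20 * M + 1)) ≤ 5 * (2 ^ LL.length * (21 * M)) := by gcongr
      _ = 105 * 2 ^ LL.length * M := by ring
  obtain ⟨SA, hSA, hSAc, hSAX⟩ := stripsN 5 (X := X) A0
    (fun i hi j hj h => hG.inj i (mem_union_left _ hi) j (mem_union_left _ hj) h) (le_trans hw hA)
  obtain ⟨SB, hSB, hSBc, hSBX⟩ := stripsN 5 (X := X) B0
    (fun i hi j hj h => hG.inj i (mem_union_right _ hi) j (mem_union_right _ hj) h) (le_trans hw hB)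
  obtain ⟨S, hS⟩ : ∃ S : Fin (5 + 5) → Finset ι, S = Fin.append SA SB := ⟨_, rfl⟩
  have hSl : ∀ i, S (Fin.castAdd 5 i) = SA i := fun i => by rw [hS, Fin.append_left]
  have hSr : ∀ i, S (Fin.natAdd 5 i) = SB i := fun i => by rw [hS, Fin.append_right]
  have hSc : ∀ i, (S i).card = 2 ^ LL.length * (20 * M + 1) := by
    intro i
    refine Fin.addCases (fun i' => ?_) (fun i' => ?_) i
    · rw [hSl]; exact hSAc i'
    · rw [hSr]; exact hSBc i'
  have hSX : ∀ i j : Fin (5 + 5), i < j → ∀ a ∈ S i, ∀ b ∈ S j, X a < X b := by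
    intro i j
    refine Fin.addCases (fun i' => ?_) (fun i' => ?_) i <;>
      refine Fin.addCases (fun j' => ?_) (fun j' => ?_) j
    · intro hij a ha b hb
      rw [hSl] at ha hb
      exact hSAX i' j' ((castAdd_lt' _ _).1 hij) a ha b hb
    · intro hij a ha b hb
      rw [hSl] at ha
      rw [hSr] at hb
      exact hAB a (hSA i' ha) b (hSB j' hb)
    · intro hij
      exfalso
      rw [Fin.lt_def] at hij
      simp only [Fin.val_natAdd, Fin.val_castAdd] at hij
      omega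
    · intro hij a ha b hb
      rw [hSr] at ha hb
      exact hSBX i' j' ((natAdd_lt' _ _).1 hij) a ha b hb
  have hSsub : ∀ i, S i ⊆ A0 ∪ B0 := by
    intro i
    refine Fin.addCases (fun i' => ?_) (fun i' => ?_) i
    · rw [hSl]; exact (hSA i').trans subset_union_left
    · rw [hSr]; exact (hSB i').trans subset_union_right
  obtain ⟨S', hS', hS'c, hNT'⟩ := refine_list (X := X) (Y := Y) LL S (20 * M)
    (fun i => by rw [hSc i]; exact Nat.le_succ _) (by
      intro i j l hij hjl A B C hA hB hC m' h1 h2 h3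
      refine refine3 (hG.mono ?_) ?_ ?_ h1 h2 h3 ?_
      · exact union_subset (union_subset (hA.trans (hSsub i)) (hB.trans (hSsub j))) (hC.trans (hSsub l))
      · intro a ha b hb; exact hSX i j hij a (hA ha) b (hB hb)
      · intro b hb c hc; exact hSX j l hjl b (hB hb) c (hC hc)
      · intro α hα β hβ
        exact surj_pairs' (hG.mono (union_subset (hA.trans (hSsub i)) (hC.trans (hSsub l))))
          (fun a ha c hc => hSX i l (lt_trans hij hjl) a (hA ha) c (hC hc)) hα hβ)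
  choose T hT hTc using fun i => Finset.exists_subset_card_eq (hS'c i)
  have hNT : ∀ i j l : Fin (5 + 5), i < j → j < l → ∀ s t : ℝ,
      ¬ (Hit X Y s t (T i) ∧ Hit X Y s t (T j) ∧ Hit X Y s t (T l)) := by
    rintro i j l hij hjl s t ⟨h1, h2, h3⟩
    exact hNT' (i, j, l) (mem_LL _) hij hjl s t
      ⟨Hit_mono' (hT i) h1, Hit_mono' (hT j) h2, Hit_mono' (hT l) h3⟩
  obtain ⟨i, j, hij⟩ := bip_sets (X := X) (Y := Y) (N := 5) (by norm_num)
    (A := fun i => T (Fin.castAdd 5 i)) (B := fun j => T (Fin.natAdd 5 j)) (m := 20 * M)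
    (fun i => hTc _) (fun j => hTc _)
    (by
      intro i i' j hne s t
      rintro ⟨h1, h2, h3⟩
      have hlt : ∀ (x : Fin 5) (y : Fin 5), Fin.castAdd 5 x < Fin.natAdd 5 y := by
        intro x y
        rw [Fin.lt_def]
        simp only [Fin.val_natAdd, Fin.val_castAdd]
        omega
      rcases lt_or_gt_of_ne hne with h | h
      · exact hNT (Fin.castAdd 5 i) (Fin.castAdd 5 i') (Fin.natAdd 5 j) ((castAdd_lt' _ _).2 h) (hlt _ _) s t ⟨h1, h2, h3⟩
      · exact hNT (Fin.castAdd 5 i') (Fin.castAdd 5 i) (Fin.natAdd 5 j) ((castAdd_lt' _ _).2 h) (hlt _ _) s t ⟨h2, h1, h3⟩)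
    (by
      intro i j j' hne s t
      rintro ⟨h1, h2, h3⟩
      have hlt : ∀ (x : Fin 5) (y : Fin 5), Fin.castAdd 5 x < Fin.natAdd 5 y := by
        intro x y
        rw [Fin.lt_def]
        simp only [Fin.val_natAdd, Fin.val_castAdd]
        omega
      rcases lt_or_gt_of_ne hne with h | h
      · exact hNT (Fin.castAdd 5 i) (Fin.natAdd 5 j) (Fin.natAdd 5 j') (hlt _ _) ((natAdd_lt' _ _).2 h) s t ⟨h1, h2, h3⟩
      · exact hNT (Fin.castAdd 5 i) (Fin.natAdd 5 j') (Fin.natAdd 5 j) (hlt _ _) ((natAdd_lt' _ _).2 h) s t ⟨h1, h3, h2⟩)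
  obtain ⟨k, hk, hkc⟩ := good_k2 (hp X Y (T (Fin.castAdd 5 i)) (T (Fin.natAdd 5 j)) ∪
      hp X Y (T (Fin.natAdd 5 j)) (T (Fin.castAdd 5 i)))
    (fun e => rk X Y (T (Fin.castAdd 5 i) ∪ T (Fin.natAdd 5 j)) (sl X Y e.1 e.2) e.1) M hM (by
      have := card_union_le (hp X Y (T (Fin.castAdd 5 i)) (T (Fin.natAdd 5 j)))
        (hp X Y (T (Fin.natAdd 5 j)) (T (Fin.castAdd 5 i)))
      omega)
  have hTA : T (Fin.castAdd 5 i) ⊆ A0 :=
    ((hT _).trans (hS' _)).trans (by rw [hSl]; exact hSA i)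
  have hTB : T (Fin.natAdd 5 j) ⊆ B0 :=
    ((hT _).trans (hS' _)).trans (by rw [hSr]; exact hSB j)
  obtain ⟨G, hG1, hG2, hG3⟩ := crossing' (hG.mono (union_subset_union hTA hTB))
    (fun a ha b hb => hAB a (hTA ha) b (hTB hb)) (k := k) (by rw [hTc]; exact hk) (by rw [hTc]; exact hk)
  refine ⟨G, fun e he => ⟨hTA (hG1 e he).1, hTB (hG1 e he).2⟩, by omega, hG3⟩

end Pool.Agent.H365PP
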