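import Pool.Agent.H365PP.Cov
import Pool.Agent.H365PP.L5
import Pool.Agent.H365PP.L6
import Pool.Agent.H365PP.L7
import Pool.Agent.H365PP.L8
import Pool.Agent.H365PP.L9
import Pool.Agent.H365PP.L10

set_option autoImplicit false
set_option linter.unusedSectionVars false

namespace Pool.Agent.H365PP

open Finset

variable {ι : Type*} [DecidableEq ι] {X Y : ι → ℝ} {Q : Finset ι}

theorem GP.mono {Q' : Finset ι} (h : GP X Y Q) (hs : Q' ⊆ Q) : GP X Y Q' :=
  ⟨fun i hi j hj => h.inj i (hs hi) j (hs hj),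
   fun i hi j hj l hl => h.gen i (hs hi) j (hs hj) l (hs hl)⟩

theorem sl_shift (x0 : ℝ) (i j : ι) : sl (fun i => X i - x0) Y i j = sl X Y i j := by
  unfold sl; congr 1; ring

theorem hh_shift (x0 s : ℝ) (i : ι) : hh (fun i => X i - x0) Y s i = hh X Y s i + s * x0 := by
  unfold hh; ring

theorem rk_shift (x0 s : ℝ) (p : ι) : rk (fun i => X i - x0) Y Q s p = rk X Y Q s p := by
  unfold rk
  congr 1
  ext q
  simp only [mem_filter, hh_shift, add_lt_add_iff_right]

theorem GP_shift (x0 : ℝ) (h : GP X Y Q) : GP (fun i => X i - x0) Y Q := by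
  refine ⟨?_, ?_⟩
  · intro i hi j hj hij
    exact h.inj i hi j hj (by simpa using hij)
  · intro i hi j hj l hl hij hli hlj
    have := h.gen i hi j hj l hl hij hli hlj
    simp only [sl_shift, hh_shift]
    intro h'
    exact this (by linarith)

theorem Hit_shift (x0 s t : ℝ) (S : Finset ι) :
    Hit (fun i => X i - x0) Y s (t + s * x0) S ↔ Hit X Y s t S := by
  unfold Hit
  simp only [hh_shift, add_le_add_iff_right]

theorem hp_shift (x0 : ℝ) (S T : Finset ι) : hp (fun i => X i - x0) Y S T = hp X Y S T := by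
  ext e
  rw [mem_hp, mem_hp]
  simp only [sl_shift, sub_lt_sub_iff_right]
  rw [hh_shift, Hit_shift]

theorem Cov_shift (x0 : ℝ) (p q u w : ι) : Cov (fun i => X i - x0) Y p q u w ↔ Cov X Y p q u w := by
  unfold Cov
  simp only [sl_shift, hh_shift, add_lt_add_iff_right]

theorem exists_sep {A B : Finset ι} (hA : A.Nonempty) (hB : B.Nonempty)
    (hAB : ∀ a ∈ A, ∀ b ∈ B, X a < X b) : ∃ x0 : ℝ, (∀ a ∈ A, X a < x0) ∧ (∀ b ∈ B, x0 < X b) := by
  obtain ⟨a0, ha0, ha⟩ := exists_max_image A X hA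
  obtain ⟨b0, hb0, hb⟩ := exists_min_image B X hB
  have h := hAB a0 ha0 b0 hb0
  refine ⟨(X a0 + X b0) / 2, fun a haa => ?_, fun b hbb => ?_⟩
  · have := ha a haa; linarith
  · have := hb b hbb; linarith

theorem surj_pairs' {A B : Finset ι} (hG : GP X Y (A ∪ B)) (hAB : ∀ a ∈ A, ∀ b ∈ B, X a < X b)
    {α β : ℕ} (hα : α < A.card) (hβ : β < B.card) :
    ∃ a ∈ A, ∃ b ∈ B, rk X Y A (sl X Y a b) a = α ∧ rk X Y B (sl X Y a b) a = β := by
  have hA : A.Nonempty := card_pos.1 (lt_of_le_of_lt (Nat.zero_le _) hα)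
  have hB : B.Nonempty := card_pos.1 (lt_of_le_of_lt (Nat.zero_le _) hβ)
  obtain ⟨x0, h1, h2⟩ := exists_sep hA hB hAB
  obtain ⟨a, ha, b, hb, h3, h4⟩ := surj_pairs (X := fun i => X i - x0) (GP_shift x0 hG)
    (fun a ha => by have := h1 a ha; linarith)
    (fun b hb => by have := h2 b hb; linarith) hα hβ
  rw [sl_shift, rk_shift] at h3 h4
  exact ⟨a, ha, b, hb, h3, h4⟩

theorem coverage' {A B : Finset ι} (hG : GP X Y (A ∪ B)) (hAB : ∀ a ∈ A, ∀ b ∈ B, X a < X b)
    {k : ℕ} (hkA : k < A.card) (hkB : k < B.card) :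
    ∃ (V : Finset ι) (E : Finset (ι × ι)), V ⊆ A ∪ B ∧ V.card = 2 * (k + 1) ∧
      (∀ e ∈ E, X e.1 < X e.2) ∧
      (∀ u ∈ V, ∀ w ∈ V, u ≠ w → ∃ e ∈ E, Cov X Y e.1 e.2 u w) ∧
      E.card ≤ (k + 1) + ((hp X Y A B ∪ hp X Y B A).filter
        (fun e => rk X Y (A ∪ B) (sl X Y e.1 e.2) e.1 = k)).card := by
  have hA : A.Nonempty := card_pos.1 (lt_of_le_of_lt (Nat.zero_le _) hkA)
  have hB : B.Nonempty := card_pos.1 (lt_of_le_of_lt (Nat.zero_le _) hkB)
  obtain ⟨x0, h1, h2⟩ := exists_sep hA hB hAB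
  obtain ⟨V, E, hV, hVc, hE, hcov, hc⟩ := coverage (X := fun i => X i - x0) (GP_shift x0 hG)
    (fun a ha => by have := h1 a ha; linarith)
    (fun b hb => by have := h2 b hb; linarith) hkA hkB
  refine ⟨V, E, hV, hVc, ?_, ?_, ?_⟩
  · intro e he; simpa using hE e he
  · intro u hu w hw huw
    obtain ⟨e, he, hce⟩ := hcov u hu w hw huw
    exact ⟨e, he, (Cov_shift x0 _ _ _ _).1 hce⟩
  · simpa only [hp_shift, sl_shift, rk_shift] using hc

theorem classes_exist [Fintype ι] (hG : GP X Y (univ : Finset ι)) {M : ℕ} (hM : 1 ≤ M)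
    (hn : 640 * M + 60 ≤ Fintype.card ι) :
    ∃ (T : Finset ι) (E : Finset (ι × ι)), T.card + E.card + M ≤ Fintype.card ι ∧
      (∀ e ∈ E, X e.1 < X e.2) ∧
      ∀ u w : ι, u ≠ w → (u ∈ T ∨ w ∈ T ∨ ∃ e ∈ E, Cov X Y e.1 e.2 u w) := by
  obtain ⟨S, _, hSc, hSX⟩ := strips (X := X) (univ : Finset ι) hG.inj (w := 16 * (10 * M) + 15)
    (by rw [card_univ]; omega)
  obtain ⟨S', hS', hS'c, hNT⟩ := rounds (X := X) (Y := Y) S (m := 10 * M)
    (fun i => le_of_eq (hSc i).symm) (by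
      intro i j l hij hjl A B C hA hB hC m' h1 h2 h3
      refine refine3 (hG.mono (subset_univ _)) ?_ ?_ h1 h2 h3 ?_
      · intro a ha b hb; exact hSX i j hij a (hA ha) b (hB hb)
      · intro b hb c hc; exact hSX j l hjl b (hB hb) c (hC hc)
      · intro α hα β hβ
        exact surj_pairs' (hG.mono (subset_univ _))
          (fun a ha c hc => hSX i l (lt_trans hij hjl) a (hA ha) c (hC hc)) hα hβ)
  obtain ⟨i, j, hij, hH⟩ := four_sets (X := X) (Y := Y) (S := S') (m := 10 * M)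
    (fun i a _ b _ h => hG.inj a (mem_univ _) b (mem_univ _) h) hS'c hNT
  have hAB : ∀ a ∈ S' i, ∀ b ∈ S' j, X a < X b := fun a ha b hb =>
    hSX i j hij a (hS' i ha) b (hS' j hb)
  obtain ⟨k, hk, hkc⟩ := good_k (hp X Y (S' i) (S' j) ∪ hp X Y (S' j) (S' i))
    (fun e => rk X Y (S' i ∪ S' j) (sl X Y e.1 e.2) e.1) M hM (by
      have := card_union_le (hp X Y (S' i) (S' j)) (hp X Y (S' j) (S' i))
      omega)
  obtain ⟨V, E, _, hVc, hE, hcov, hEc⟩ := coverage' (hG.mono (subset_univ _)) hAB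
    (k := k) (by rw [hS'c]; exact hk) (by rw [hS'c]; exact hk)
  refine ⟨univ \ V, E, ?_, hE, ?_⟩
  · have h1 : (univ \ V).card + V.card = Fintype.card ι := by
      rw [card_sdiff_add_card_eq_card (subset_univ _), card_univ]
    omega
  · intro u w huw
    by_cases hu : u ∈ V
    · by_cases hw : w ∈ V
      · right; right; exact hcov u hu w hw huw
      · right; left; simp [hw]
    · left; simp [hu]

theorem main_explicit :
      ∀ n : ℕ, ∀ p : Fin n → ℝ × ℝ,
        Function.Injective p →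
        (∀ i j l : Fin n, i ≠ j → j ≠ l → i ≠ l → ¬ Collinear ℝ ({p i, p j, p l} : Set (ℝ × ℝ))) →
        ∃ k : ℕ, (k : ℝ) ≤ (1 - 1 / 1400) * (n : ℝ) ∧
          ∃ c : Fin n → Fin n → ℕ,
            (∀ i j : Fin n, c i j = c j i) ∧
            (∀ i j : Fin n, i ≠ j → c i j < k) ∧
            (∀ i j a b : Fin n, i ≠ j → i ≠ a → i ≠ b → j ≠ a → j ≠ b → a ≠ b →
              (openSegment ℝ (p i) (p j) ∩ openSegment ℝ (p a) (p b)).Nonempty →
              c i j ≠ c a b) := by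
  intro n p hinj hcol
  rcases Nat.lt_or_ge n 700 with hn | hn
  · -- few points: full stars at all points but one
    rcases Nat.eq_zero_or_pos n with h0 | h0
    · subst h0
      refine ⟨0, by simp, fun _ _ => 0, fun i => i.elim0, fun i => i.elim0, fun i => i.elim0⟩
    · obtain ⟨c, h1, h2, h3⟩ := coloring_of_cover (X := fun _ => 0) (Y := fun _ => 0)
        ((univ : Finset (Fin n)).erase ⟨0, h0⟩) ∅ (by
          intro u w huw
          by_cases hu : u = ⟨0, h0⟩
          · right; left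
            simp only [mem_erase, mem_univ, and_true]
            intro hw; exact huw (hu.trans hw.symm)
          · left; simp [hu])
      refine ⟨((univ : Finset (Fin n)).erase ⟨0, h0⟩).card + (∅ : Finset (Fin n × Fin n)).card,
        ?_, c, h1, h2, ?_⟩
      · rw [card_erase_of_mem (mem_univ _)]
        simp only [card_univ, Fintype.card_fin, card_empty, add_zero]
        rw [Nat.cast_sub (by omega)]
        have : (n : ℝ) < 700 := by exact_mod_cast hn
        push_cast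
        linarith
      · intro i j a b hij hia hib hja hjb hab _ hc
        obtain ⟨e, he, _⟩ := h3 i j a b hij hia hib hja hjb hab hc
        simp at he
  · obtain ⟨τ, hG⟩ := shear p hinj hcol
    obtain ⟨T, E, hcard, hE, hcov⟩ := classes_exist hG (M := n / 700) (by omega)
      (by rw [Fintype.card_fin]; omega)
    obtain ⟨c, h1, h2, h3⟩ := coloring_of_cover T E hcov
    refine ⟨T.card + E.card, ?_, c, h1, h2, ?_⟩
    · rw [Fintype.card_fin] at hcard
      have h4 : 1400 * (T.card + E.card) + n ≤ 1400 * n := by omega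
      have h5 : (1400 : ℝ) * ((T.card + E.card : ℕ) : ℝ) + (n : ℝ) ≤ 1400 * (n : ℝ) := by
        exact_mod_cast h4
      linarith
    · intro i j a b hij hia hib hja hjb hab hne hc
      obtain ⟨e, he, hc1, hc2⟩ := h3 i j a b hij hia hib hja hjb hab hc
      rcases cov_sep (hE e he) hc1 hc2 hia hib hja hjb with ⟨s, t, ⟨g1, g2, g3⟩, g4, g5⟩ | ⟨s, t, ⟨g1, g2, g3⟩, g4, g5⟩
      · exact no_cross p τ s t i j a b g1 g2 g3 g4 g5 hne
      · exact no_cross p τ s t a b i j g1 g2 g3 g4 g5 (by rwa [Set.inter_comm])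

theorem main_result :
    ∃ ε : ℝ, 0 < ε ∧
      ∀ n : ℕ, ∀ p : Fin n → ℝ × ℝ,
        Function.Injective p →
        (∀ i j l : Fin n, i ≠ j → j ≠ l → i ≠ l → ¬ Collinear ℝ ({p i, p j, p l} : Set (ℝ × ℝ))) →
        ∃ k : ℕ, (k : ℝ) ≤ (1 - ε) * (n : ℝ) ∧
          ∃ c : Fin n → Fin n → ℕ,
            (∀ i j : Fin n, c i j = c j i) ∧
            (∀ i j : Fin n, i ≠ j → c i j < k) ∧
            (∀ i j a b : Fin n, i ≠ j → i ≠ a → i ≠ b → j ≠ a → j ≠ b → a ≠ b →
              (openSegment ℝ (p i) (p j) ∩ openSegment ℝ (p a) (p b)).Nonempty →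
              c i j ≠ c a b) :=
  ⟨1 / 1400, by norm_num, main_explicit⟩

end Pool.Agent.H365PP
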