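import Pool.Agent.H365PP.Cross

set_option autoImplicit false
set_option linter.unusedSectionVars false

namespace Pool.Agent.H365PP

open Finset

variable {ι : Type*} [DecidableEq ι] {X Y : ι → ℝ} {Q : Finset ι}

theorem GP.mono {Q' : Finset ι} (h : GP X Y Q) (hs : Q' ⊆ Q) : GP X Y Q' :=
  ⟨fun i hi j hj => h.inj i (hs hi) j (hs hj),
   fun i hi j hj l hl => h.gen i (hs hi) j (hs hj) l (hs hl)⟩

theorem sl_shift (x0 : ℝ) (i j : ι) : sl (fun i => X i - x0) Y i j = sl X Y i j := by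
  unfold sl; congr 1; ring

theorem hh_shift (x0 s : ℝ) (i : ι) : hh (fun i => X i - x0) Y s i = hh X Y s i + s * x0 := by
  unfold hh; ring

theorem rk_shift (x0 s : ℝ) (p : ι) : rk (fun i => X i - x0) Y Q s p = rk X Y Q s p := by
  unfold rk
  congr 1
  ext q
  simp only [mem_filter, hh_shift, add_lt_add_iff_right]

theorem GP_shift (x0 : ℝ) (h : GP X Y Q) : GP (fun i => X i - x0) Y Q := by
  refine ⟨?_, ?_⟩
  · intro i hi j hj hij
    exact h.inj i hi j hj (by simpa using hij)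
  · intro i hi j hj l hl hij hli hlj
    have := h.gen i hi j hj l hl hij hli hlj
    simp only [sl_shift, hh_shift]
    intro h'
    exact this (by linarith)

theorem Hit_shift (x0 s t : ℝ) (S : Finset ι) :
    Hit (fun i => X i - x0) Y s (t + s * x0) S ↔ Hit X Y s t S := by
  unfold Hit
  simp only [hh_shift, add_le_add_iff_right]

theorem hp_shift (x0 : ℝ) (S T : Finset ι) : hp (fun i => X i - x0) Y S T = hp X Y S T := by
  ext e
  rw [mem_hp, mem_hp]
  simp only [sl_shift, sub_lt_sub_iff_right]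
  rw [hh_shift, Hit_shift]

theorem Cov_shift (x0 : ℝ) (p q u w : ι) : Cov (fun i => X i - x0) Y p q u w ↔ Cov X Y p q u w := by
  unfold Cov
  simp only [sl_shift, hh_shift, add_lt_add_iff_right]

theorem Opp_shift (x0 : ℝ) (e f : ι × ι) : Opp (fun i => X i - x0) Y e f ↔ Opp X Y e f := by
  unfold Opp
  simp only [sl_shift, hh_shift, add_lt_add_iff_right]

theorem exists_sep {A B : Finset ι} (hA : A.Nonempty) (hB : B.Nonempty)
    (hAB : ∀ a ∈ A, ∀ b ∈ B, X a < X b) : ∃ x0 : ℝ, (∀ a ∈ A, X a < x0) ∧ (∀ b ∈ B, x0 < X b) := by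
  obtain ⟨a0, ha0, ha⟩ := exists_max_image A X hA
  obtain ⟨b0, hb0, hb⟩ := exists_min_image B X hB
  have h := hAB a0 ha0 b0 hb0
  refine ⟨(X a0 + X b0) / 2, fun a haa => ?_, fun b hbb => ?_⟩
  · have := ha a haa; linarith
  · have := hb b hbb; linarith

theorem surj_pairs' {A B : Finset ι} (hG : GP X Y (A ∪ B)) (hAB : ∀ a ∈ A, ∀ b ∈ B, X a < X b)
    {α β : ℕ} (hα : α < A.card) (hβ : β < B.card) :
    ∃ a ∈ A, ∃ b ∈ B, rk X Y A (sl X Y a b) a = α ∧ rk X Y B (sl X Y a b) a = β := by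
  have hA : A.Nonempty := card_pos.1 (lt_of_le_of_lt (Nat.zero_le _) hα)
  have hB : B.Nonempty := card_pos.1 (lt_of_le_of_lt (Nat.zero_le _) hβ)
  obtain ⟨x0, h1, h2⟩ := exists_sep hA hB hAB
  obtain ⟨a, ha, b, hb, h3, h4⟩ := surj_pairs (X := fun i => X i - x0) (GP_shift x0 hG)
    (fun a ha => by have := h1 a ha; linarith)
    (fun b hb => by have := h2 b hb; linarith) hα hβ
  rw [sl_shift, rk_shift] at h3 h4
  exact ⟨a, ha, b, hb, h3, h4⟩

theorem coverage' {A B : Finset ι} (hG : GP X Y (A ∪ B)) (hAB : ∀ a ∈ A, ∀ b ∈ B, X a < X b)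
    {k : ℕ} (hkA : k < A.card) (hkB : k < B.card) :
    ∃ (V : Finset ι) (E : Finset (ι × ι)), V ⊆ A ∪ B ∧ V.card = 2 * (k + 1) ∧
      (∀ e ∈ E, X e.1 < X e.2) ∧
      (∀ u ∈ V, ∀ w ∈ V, u ≠ w → ∃ e ∈ E, Cov X Y e.1 e.2 u w) ∧
      E.card ≤ (k + 1) + ((hp X Y A B ∪ hp X Y B A).filter
        (fun e => rk X Y (A ∪ B) (sl X Y e.1 e.2) e.1 = k)).card := by
  have hA : A.Nonempty := card_pos.1 (lt_of_le_of_lt (Nat.zero_le _) hkA)
  have hB : B.Nonempty := card_pos.1 (lt_of_le_of_lt (Nat.zero_le _) hkB)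
  obtain ⟨x0, h1, h2⟩ := exists_sep hA hB hAB
  obtain ⟨V, E, hV, hVc, hE, hcov, hc⟩ := coverage (X := fun i => X i - x0) (GP_shift x0 hG)
    (fun a ha => by have := h1 a ha; linarith)
    (fun b hb => by have := h2 b hb; linarith) hkA hkB
  refine ⟨V, E, hV, hVc, ?_, ?_, ?_⟩
  · intro e he; simpa using hE e he
  · intro u hu w hw huw
    obtain ⟨e, he, hce⟩ := hcov u hu w hw huw
    exact ⟨e, he, (Cov_shift x0 _ _ _ _).1 hce⟩
  · simpa only [hp_shift, sl_shift, rk_shift] using hc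

theorem crossing' {A B : Finset ι} (hG : GP X Y (A ∪ B)) (hAB : ∀ a ∈ A, ∀ b ∈ B, X a < X b)
    {k : ℕ} (hkA : k < A.card) (hkB : k < B.card) :
    ∃ G : Finset (ι × ι), (∀ e ∈ G, e.1 ∈ A ∧ e.2 ∈ B) ∧
      k + 1 ≤ G.card + 2 * ((hp X Y A B ∪ hp X Y B A).filter
        (fun e => rk X Y (A ∪ B) (sl X Y e.1 e.2) e.1 = k)).card ∧
      (∀ e ∈ G, ∀ f ∈ G, e ≠ f → Opp X Y e f ∨ Opp X Y f e) := by
  have hA : A.Nonempty := card_pos.1 (lt_of_le_of_lt (Nat.zero_le _) hkA)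
  have hB : B.Nonempty := card_pos.1 (lt_of_le_of_lt (Nat.zero_le _) hkB)
  obtain ⟨x0, h1, h2⟩ := exists_sep hA hB hAB
  obtain ⟨G, hG1, hG2, hG3⟩ := crossing_core (X := fun i => X i - x0) (GP_shift x0 hG)
    (fun a ha => by have := h1 a ha; linarith)
    (fun b hb => by have := h2 b hb; linarith) hkA hkB
  refine ⟨G, hG1, ?_, ?_⟩
  · simpa only [hp_shift, sl_shift, rk_shift] using hG2
  · intro e he f hf hne
    simpa only [Opp_shift] using hG3 e he f hf hne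

end Pool.Agent.H365PP
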